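import Pool.Agent.CubLBC.Defs

set_option autoImplicit false

namespace Pool.Agent.CubLBC

open Finset

variable {V : Type} {n : ℕ}

lemma agree_refl (c : Lab V n) : Agree c c := fun _ _ => rfl

lemma agree_symm {c c' : Lab V n} (h : Agree c c') : Agree c' c := fun ε hε => (h ε hε).symm

lemma flipL_flipL (c : Lab V n) (i : Fin n) : flipL (flipL c i) i = c := by
  funext ε
  simp [flipL]

lemma permL_symm (c : Lab V n) (π : Equiv.Perm (Fin n)) : permL (permL c π) π.symm = c := by
  funext ε
  simp [permL]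

lemma permL_one (c : Lab V n) : permL c 1 = c := by
  funext ε
  simp [permL]

/-- Translation of a labelled cube. -/
def trL (c : Lab V n) (ε : Fin n → Bool) : Lab V n := fun η => c (fun i => xor (η i) (ε i))

lemma trL_b0 (c : Lab V n) (ε : Fin n → Bool) : trL c ε b0 = c ε := by
  simp [trL, b0]

namespace CubCx

variable (K : CubCx V n)

lemma gstep_symm {c c' : Lab V n} (hc : c ∈ K.F) (h : GStep K.F c c') : GStep K.F c' c := by
  obtain ⟨_, h⟩ := h
  refine ⟨hc, ?_⟩
  rcases h with ⟨π, rfl⟩ | ⟨i, rfl⟩ | h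
  · exact Or.inl ⟨π.symm, (permL_symm c π).symm⟩
  · exact Or.inr (Or.inl ⟨i, (flipL_flipL c i).symm⟩)
  · exact Or.inr (Or.inr (agree_symm h))

lemma sim_mem {c c' : Lab V n} (hc : c ∈ K.F) (h : K.Sim c c') : c' ∈ K.F := by
  induction h with
  | refl => exact hc
  | tail _ h _ => exact h.1

lemma sim_symm {c c' : Lab V n} (hc : c ∈ K.F) (h : K.Sim c c') : K.Sim c' c := by
  induction h with
  | refl => exact Relation.ReflTransGen.refl
  | tail h1 h2 ih => exact Relation.ReflTransGen.head (K.gstep_symm (K.sim_mem hc h1) h2) ih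

lemma sim_trans {c c' c'' : Lab V n} (h : K.Sim c c') (h' : K.Sim c' c'') : K.Sim c c'' :=
  Relation.ReflTransGen.trans h h'

lemma lstep_sim {k : ℕ} {c c' : Lab V n} (h : Relation.ReflTransGen (LStep K.F k) c c') :
    K.Sim c c' := by
  have key : ∀ a b : Lab V n, LStep K.F k a b → GStep K.F a b := by
    rintro a b ⟨hb, h⟩
    refine ⟨hb, ?_⟩
    rcases h with ⟨π, _, h⟩ | h
    · exact Or.inl ⟨π, h⟩
    · exact Or.inr (Or.inr h)
  exact Relation.ReflTransGen.mono key _ _ h

lemma sim_of_base {c c' : Lab V n} (hc : c ∈ K.F) (hc' : c' ∈ K.F) (h : c b0 = c' b0) :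
    K.Sim c c' :=
  K.lstep_sim (K.conn 0 c hc c' hc' h (by simp))

lemma trL_mem_sim {c : Lab V n} (hc : c ∈ K.F) (ε : Fin n → Bool) :
    trL c ε ∈ K.F ∧ K.Sim c (trL c ε) := by
  classical
  have key : ∀ s : Finset (Fin n), trL c (fun i => decide (i ∈ s)) ∈ K.F ∧
      K.Sim c (trL c (fun i => decide (i ∈ s))) := by
    intro s
    induction s using Finset.induction_on with
    | empty =>
      have : trL c (fun i => decide (i ∈ (∅ : Finset (Fin n)))) = c := by
        funext η
        simp [trL]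
      rw [this]
      exact ⟨hc, Relation.ReflTransGen.refl⟩
    | insert a s ha ih =>
      have h : trL c (fun i => decide (i ∈ insert a s)) =
          flipL (trL c (fun i => decide (i ∈ s))) a := by
        funext η
        simp only [trL, flipL]
        congr 1
        funext i
        by_cases hi : i = a
        · subst hi
          simp [ha]
        · simp [hi]
      rw [h]
      refine ⟨K.flip _ ih.1 a, ih.2.tail ⟨K.flip _ ih.1 a, Or.inr (Or.inl ⟨a, rfl⟩)⟩⟩
  have := key (Finset.univ.filter (fun i => ε i = true))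
  simpa using this

lemma trL_mem {c : Lab V n} (hc : c ∈ K.F) (ε : Fin n → Bool) : trL c ε ∈ K.F :=
  (K.trL_mem_sim hc ε).1

lemma trL_sim {c : Lab V n} (hc : c ∈ K.F) (ε : Fin n → Bool) : K.Sim c (trL c ε) :=
  (K.trL_mem_sim hc ε).2

lemma adj_of {c : Lab V n} (hc : c ∈ K.F) (ε : Fin n → Bool) (i : Fin n) :
    K.Adj (c ε) (c (Function.update ε i (!(ε i)))) := by
  refine ⟨trL c ε, K.trL_mem hc ε, i, trL_b0 c ε, ?_⟩
  simp only [trL]
  congr 1
  funext j
  by_cases hj : j = i
  · subst hj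
    simp [bE]
  · simp [bE, hj]

lemma adj_symm {x y : V} (h : K.Adj x y) : K.Adj y x := by
  obtain ⟨c, hc, i, rfl, rfl⟩ := h
  have := K.adj_of hc (bE i) i
  convert this using 2
  funext j
  by_cases hj : j = i
  · subst hj
    simp [bE, b0]
  · simp [bE, b0, hj]

/-- In an adjacency the direction can be prescribed. -/
lemma adj_dir {x y : V} (h : K.Adj x y) (j : Fin n) :
    ∃ c ∈ K.F, c b0 = x ∧ c (bE j) = y := by
  obtain ⟨c, hc, i, rfl, rfl⟩ := h
  refine ⟨permL c (Equiv.swap i j), K.perm c hc _, rfl, ?_⟩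
  simp only [permL]
  congr 1
  funext l
  simp only [bE, decide_eq_decide]
  constructor
  · intro h
    have := congrArg (Equiv.swap i j) h
    simpa using this
  · rintro rfl
    simp

lemma adj_ne {x y : V} (h : K.Adj x y) : x ≠ y := by
  obtain ⟨c, hc, i, rfl, rfl⟩ := h
  intro he
  have := K.inj c hc he
  have := congrFun this i
  simp [b0, bE] at this

lemma adj_isVert {x y : V} (h : K.Adj x y) : K.IsVert x := by
  obtain ⟨c, hc, i, h1, h2⟩ := h
  exact ⟨c, hc, h1⟩

lemma isVert_of {c : Lab V n} (hc : c ∈ K.F) (ε : Fin n → Bool) : K.IsVert (c ε) :=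
  ⟨trL c ε, K.trL_mem hc ε, trL_b0 c ε⟩

end CubCx

end Pool.Agent.CubLBC
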