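import Mathlib

set_option autoImplicit false

namespace Pool.Agent.CubLBC

open Finset

/-- A nonempty finite set of edges of a simple graph with all degrees even has at least three
members. -/
lemma three_le_of_even {V : Type*} [DecidableEq V] (B : Finset (Sym2 V))
    (hd : ∀ e ∈ B, ¬ e.IsDiag) (hne : B.Nonempty)
    (hev : ∀ v : V, Even ((B.filter (fun e => v ∈ e)).card)) : 3 ≤ B.card := by
  obtain ⟨e, he⟩ := hne
  induction e using Sym2.ind with
  | h u v =>
    have huv : u ≠ v := by
      intro h
      exact hd _ he (by simpa using h)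
    -- another edge at a given end of a given edge
    have key : ∀ a : V, ∀ e ∈ B, a ∈ e → ∃ e' ∈ B, a ∈ e' ∧ e' ≠ e := by
      intro a e he ha
      have h1 : e ∈ B.filter (fun e => a ∈ e) := mem_filter.2 ⟨he, ha⟩
      have h2 : 1 < (B.filter (fun e => a ∈ e)).card := by
        have h3 : 0 < (B.filter (fun e => a ∈ e)).card := card_pos.2 ⟨_, h1⟩
        obtain ⟨k, hk⟩ := hev a
        omega
      obtain ⟨e', he', hne'⟩ := exists_mem_ne h2 e
      exact ⟨e', (mem_filter.1 he').1, (mem_filter.1 he').2, hne'⟩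
    obtain ⟨e1, he1, hu1, hn1⟩ := key u s(u, v) he (by simp)
    obtain ⟨e2, he2, hv2, hn2⟩ := key v s(u, v) he (by simp)
    have h12 : e1 ≠ e2 := by
      rintro rfl
      apply hn1
      exact ((Sym2.mem_and_mem_iff huv).1 ⟨hu1, hv2⟩)
    have hsub : ({s(u, v), e1, e2} : Finset (Sym2 V)) ⊆ B := by
      intro x hx
      simp only [mem_insert, mem_singleton] at hx
      rcases hx with rfl | rfl | rfl
      · exact he
      · exact he1
      · exact he2
    have hc : ({s(u, v), e1, e2} : Finset (Sym2 V)).card = 3 := by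
      rw [card_insert_of_notMem, card_insert_of_notMem, card_singleton]
      · simpa using h12
      · simp only [mem_insert, mem_singleton, not_or]
        exact ⟨fun h => hn1 h.symm, fun h => hn2 h.symm⟩
    rw [← hc]
    exact card_le_card hsub

section
variable {V F : Type} [Fintype V] [Fintype F]

open Classical in
/-- the edges of the surface -/
noncomputable def sE (fe : F → Finset (Sym2 V)) : Finset (Sym2 V) :=
  univ.filter (fun e => ∃ f, e ∈ fe f)

open Classical in
/-- the edges that meet `X` -/
noncomputable def sEX (fe : F → Finset (Sym2 V)) (X : Finset V) : Finset (Sym2 V) :=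
  univ.filter (fun e : Sym2 V => (∃ f, e ∈ fe f) ∧ ∃ v ∈ e, v ∈ X)

open Classical in
/-- the faces that meet `X` -/
noncomputable def sFX (fe : F → Finset (Sym2 V)) (X : Finset V) : Finset F :=
  univ.filter (fun f => ∃ e ∈ fe f, e ∈ sEX fe X)

open Classical in
/-- the boundary of a class of faces is large -/
lemma class_bound (q : ℕ) (hq : q = 3 ∨ q = 4)
    (fe : F → Finset (Sym2 V))
    (hcard : ∀ f, (fe f).card = q)
    (hdiag : ∀ f, ∀ e ∈ fe f, ¬ e.IsDiag)
    (heven : ∀ f, ∀ v, Even ((fe f).filter (fun e => v ∈ e)).card)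
    (htwo : ∀ f, ∀ e ∈ fe f, (univ.filter (fun g => e ∈ fe g)).card = 2)
    (X : Finset V)
    (hfree : ∀ f, ∃ g, Relation.ReflTransGen (fun f g => (fe f ∩ fe g).Nonempty) f g ∧
      ∀ e ∈ fe g, ∀ v ∈ e, v ∉ X)
    (R : Finset F) (hR : R ⊆ sFX fe X) (hne : R.Nonempty)
    (hcl : ∀ f ∈ R, ∀ g, ∀ e ∈ sEX fe X, e ∈ fe f → e ∈ fe g → g ∈ R) :
    q ≤ ∑ f ∈ R, ((fe f).filter (fun e => e ∉ sEX fe X)).card := by
  set m : Sym2 V → ℕ := fun e => (R.filter (fun f => e ∈ fe f)).card with hm
  -- values of m
  have hm2 : ∀ e ∈ sE fe, m e ≤ 2 := by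
    intro e he
    obtain ⟨f, hf⟩ := (mem_filter.1 he).2
    rw [← htwo f e hf]
    exact card_le_card (filter_subset_filter _ (subset_univ _))
  have hmX : ∀ e ∈ sEX fe X, m e = 0 ∨ m e = 2 := by
    intro e he
    by_cases h0 : ∃ f ∈ R, e ∈ fe f
    · right
      obtain ⟨f, hf, hef⟩ := h0
      rw [← htwo f e hef]
      show (R.filter (fun f => e ∈ fe f)).card = _
      congr 1
      ext g
      simp only [mem_filter, mem_univ, true_and]
      constructor
      · rintro ⟨_, h2⟩; exact h2
      · intro h2; exact ⟨hcl f hf g e he hef h2, h2⟩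
    · left
      push Not at h0
      show (R.filter (fun f => e ∈ fe f)).card = 0
      rw [card_eq_zero, filter_eq_empty_iff]
      intro f hf
      exact h0 f hf
  -- double counting
  have hdc : ∀ T : Finset (Sym2 V), ∑ f ∈ R, ((fe f).filter (fun e => e ∈ T)).card =
      ∑ e ∈ T, m e := by
    intro T
    simp only [hm, card_eq_sum_ones, sum_filter]
    have h1 : ∀ f : F, (∑ e ∈ fe f, if e ∈ T then 1 else 0) =
        ∑ e ∈ T, if e ∈ fe f then 1 else 0 := by
      intro f
      rw [← sum_filter, ← sum_filter, ← card_eq_sum_ones, ← card_eq_sum_ones]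
      congr 1
      ext e
      simp only [mem_filter]
      tauto
    rw [sum_congr rfl (fun f _ => h1 f), sum_comm]
  set Bd : Finset (Sym2 V) := (sE fe).filter (fun e => m e = 1) with hBd
  have hmemE : ∀ f, ∀ e ∈ fe f, e ∈ sE fe := fun f e he => mem_filter.2 ⟨mem_univ _, f, he⟩
  -- the boundary is nonempty
  have hBne : Bd.Nonempty := by
    obtain ⟨f0, hf0⟩ := hne
    obtain ⟨g, hg, hgX⟩ := hfree f0
    have hgR : g ∉ R := by
      intro h
      obtain ⟨e, he, heX⟩ := (mem_filter.1 (hR h)).2
      obtain ⟨x, hxe, hx⟩ := (mem_filter.1 heX).2.2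
      exact hgX e he x hxe hx
    have hstep : ∀ g, Relation.ReflTransGen (fun f g => (fe f ∩ fe g).Nonempty) f0 g → g ∉ R →
        ∃ f1 ∈ R, ∃ f2, f2 ∉ R ∧ ∃ e ∈ fe f1, e ∈ fe f2 := by
      intro g hg
      induction hg with
      | refl => intro h; exact absurd hf0 h
      | tail hab hbc ih =>
        rename_i b c
        intro hc
        by_cases hb : b ∈ R
        · obtain ⟨e, he⟩ := hbc
          exact ⟨b, hb, c, hc, e, (mem_inter.1 he).1, (mem_inter.1 he).2⟩
        · exact ih hb
    obtain ⟨f1, hf1, f2, hf2R, e, he1, he2⟩ := hstep g hg hgR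
    refine ⟨e, ?_⟩
    rw [hBd, mem_filter]
    refine ⟨hmemE f1 e he1, ?_⟩
    have h1 : 1 ≤ m e := card_pos.2 ⟨f1, mem_filter.2 ⟨hf1, he1⟩⟩
    have h2 : m e < 2 := by
      rw [← htwo f1 e he1]
      apply card_lt_card
      rw [ssubset_iff_of_subset (filter_subset_filter _ (subset_univ _))]
      exact ⟨f2, mem_filter.2 ⟨mem_univ _, he2⟩, fun h => hf2R (mem_filter.1 h).1⟩
    omega
  have hB3 : 3 ≤ Bd.card := by
    apply three_le_of_even Bd (fun e he => ?_) hBne
    · intro v
      have h1 : ∑ f ∈ R, ((fe f).filter (fun e => e ∈ (sE fe).filter (fun e => v ∈ e))).card =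
          ∑ e ∈ (sE fe).filter (fun e => v ∈ e), m e := hdc _
      have h2 : Even (∑ f ∈ R, ((fe f).filter
          (fun e => e ∈ (sE fe).filter (fun e => v ∈ e))).card) := by
        apply even_sum
        intro f hf
        have h3 : (fe f).filter (fun e => e ∈ (sE fe).filter (fun e => v ∈ e)) =
            (fe f).filter (fun e => v ∈ e) := by
          ext e
          simp only [mem_filter]
          constructor
          · rintro ⟨h, _, h'⟩; exact ⟨h, h'⟩
          · rintro ⟨h, h'⟩; exact ⟨h, hmemE f e h, h'⟩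
        rw [h3]
        exact heven f v
      rw [h1] at h2
      -- split m e into m e = 1 and the rest
      have h4 : ∑ e ∈ (sE fe).filter (fun e => v ∈ e), m e =
          (Bd.filter (fun e => v ∈ e)).card +
            ∑ e ∈ ((sE fe).filter (fun e => v ∈ e)).filter (fun e => ¬ m e = 1), m e := by
        rw [← sum_filter_add_sum_filter_not ((sE fe).filter (fun e => v ∈ e)) (fun e => m e = 1)]
        congr 1
        rw [sum_congr rfl (fun e he => (mem_filter.1 he).2), ← card_eq_sum_ones]
        congr 1
        ext e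
        simp only [hBd, mem_filter]
        tauto
      have h5 : Even (∑ e ∈ ((sE fe).filter (fun e => v ∈ e)).filter (fun e => ¬ m e = 1),
          m e) := by
        apply even_sum
        intro e he
        have h6 := (mem_filter.1 he).2
        have h7 := hm2 e (mem_filter.1 (mem_filter.1 he).1).1
        have h8 : m e = 0 ∨ m e = 2 := by omega
        rcases h8 with h8 | h8 <;> rw [h8]
        · exact Even.zero
        · exact even_two
      rw [h4] at h2
      exact (Nat.even_add.1 h2).2 h5
    · obtain ⟨f, hf⟩ := (mem_filter.1 (mem_filter.1 he).1).2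
      exact hdiag f e hf
  -- the boundary sum
  have hsum : ∑ f ∈ R, ((fe f).filter (fun e => e ∉ sEX fe X)).card =
      ∑ e ∈ sE fe \ sEX fe X, m e := by
    rw [← hdc]
    refine sum_congr rfl fun f hf => ?_
    congr 1
    ext e
    simp only [mem_filter, mem_sdiff]
    constructor
    · rintro ⟨h, h'⟩; exact ⟨h, hmemE f e h, h'⟩
    · rintro ⟨h, _, h'⟩; exact ⟨h, h'⟩
  have hge : Bd.card ≤ ∑ e ∈ sE fe \ sEX fe X, m e := by
    have hsub : Bd ⊆ sE fe \ sEX fe X := by
      intro e he
      rw [mem_sdiff]
      refine ⟨(mem_filter.1 he).1, fun h => ?_⟩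
      have h1 := (mem_filter.1 he).2
      rcases hmX e h with h2 | h2 <;> omega
    calc Bd.card = ∑ e ∈ Bd, m e := by
          rw [card_eq_sum_ones]
          exact sum_congr rfl fun e he => (mem_filter.1 he).2.symm
      _ ≤ _ := sum_le_sum_of_subset hsub
  rcases hq with rfl | rfl
  · rw [hsum]; omega
  · -- parity
    have h1 : ∑ f ∈ R, (fe f).card = ∑ f ∈ R, ((fe f).filter (fun e => e ∈ sEX fe X)).card +
        ∑ f ∈ R, ((fe f).filter (fun e => e ∉ sEX fe X)).card := by
      rw [← sum_add_distrib]
      refine sum_congr rfl fun f _ => ?_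
      exact (card_filter_add_card_filter_not (s := fe f) (fun e => e ∈ sEX fe X)).symm
    have h2 : ∑ f ∈ R, (fe f).card = 4 * R.card := by
      rw [sum_congr rfl (fun f hf => hcard f), sum_const, smul_eq_mul, mul_comm]
    have h3 : Even (∑ f ∈ R, ((fe f).filter (fun e => e ∈ sEX fe X)).card) := by
      rw [hdc]
      apply even_sum
      intro e he
      rcases hmX e he with h | h <;> rw [h]
      · exact Even.zero
      · exact even_two
    have h4 : Even (∑ f ∈ R, ((fe f).filter (fun e => e ∉ sEX fe X)).card) := by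
      have h5 : Even (∑ f ∈ R, (fe f).card) := by rw [h2]; exact ⟨2 * R.card, by ring⟩
      rw [h1] at h5
      exact (Nat.even_add.1 h5).1 h3
    obtain ⟨k, hk⟩ := h4
    omega

open Classical in
/-- `|X| + |F_X| ≤ |E_X| + c`: the rank argument over `ZMod 2` -/
lemma rank_bound (fe : F → Finset (Sym2 V))
    (hne : ∀ f, (fe f).Nonempty)
    (heven : ∀ f, ∀ v, Even ((fe f).filter (fun e => v ∈ e)).card)
    (htwo : ∀ f, ∀ e ∈ fe f, (univ.filter (fun g => e ∈ fe g)).card = 2)
    (hcyc : ∀ f, ∀ S : Set V, (∃ e ∈ fe f, ∃ v ∈ e, v ∈ S) →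
      (∀ e ∈ fe f, (∃ v ∈ e, v ∈ S) → ∀ v ∈ e, v ∈ S) → ∀ e ∈ fe f, ∀ v ∈ e, v ∈ S)
    (X : Finset V)
    (hX : ∀ x ∈ X, ∃ f, ∃ e ∈ fe f, x ∈ e)
    (hfree : ∀ f, ∃ g, Relation.ReflTransGen (fun f g => (fe f ∩ fe g).Nonempty) f g ∧
      ∀ e ∈ fe g, ∀ v ∈ e, v ∉ X)
    {C : Type} (cls : F → C)
    (hcls : ∀ h : F → ZMod 2,
      (∀ f, ∀ g, ∀ e ∈ sEX fe X, e ∈ fe f → e ∈ fe g → h f = h g) →
      ∀ f ∈ sFX fe X, ∀ g ∈ sFX fe X, cls f = cls g → h f = h g) :
    X.card + (sFX fe X).card ≤ (sEX fe X).card + ((sFX fe X).image cls).card := by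
  set EX := sEX fe X with hEX
  set FX := sFX fe X with hFX
  let A : Matrix EX X (ZMod 2) := fun e x => if (x : V) ∈ (e : Sym2 V) then 1 else 0
  let B : Matrix FX EX (ZMod 2) := fun f e => if (e : Sym2 V) ∈ fe (f : F) then 1 else 0
  -- B A = 0
  have hBA : B * A = 0 := by
    ext f x
    rw [Matrix.mul_apply, Matrix.zero_apply]
    have h1 : ∑ e : EX, B f e * A e x =
        (((fe (f : F)).filter (fun e => (x : V) ∈ e)).card : ZMod 2) := by
      have h2 : ∑ e : EX, B f e * A e x = ∑ e ∈ EX, (if (e ∈ fe (f : F) ∧ (x : V) ∈ e)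
          then (1 : ZMod 2) else 0) := by
        rw [← sum_coe_sort EX]
        refine sum_congr rfl fun e _ => ?_
        simp only [A, B]
        split_ifs <;> simp_all
      rw [h2, sum_boole]
      congr 2
      ext e
      simp only [mem_filter]
      constructor
      · rintro ⟨_, h⟩; exact h
      · rintro ⟨h, h'⟩
        refine ⟨?_, h, h'⟩
        rw [hEX]
        exact mem_filter.2 ⟨mem_univ _, ⟨f, h⟩, x, h', x.2⟩
    rw [h1]
    obtain ⟨k, hk⟩ := heven f x
    rw [hk]
    push_cast
    exact CharTwo.add_self_eq_zero _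
  have hr := Matrix.rank_add_rank_le_card_of_mul_eq_zero hBA
  -- rank of A
  have hA : A.rank = X.card := by
    have hinj : Function.Injective A.mulVecLin := by
      rw [← LinearMap.ker_eq_bot, LinearMap.ker_eq_bot']
      intro u hu
      by_contra hne0
      -- the support
      let S : Set V := {v | ∃ h : v ∈ X, u ⟨v, h⟩ ≠ 0}
      have hSX : ∀ v ∈ S, v ∈ X := fun v hv => hv.1
      -- no edge leaves S
      have hedge : ∀ f, ∀ e ∈ fe f, (∃ v ∈ e, v ∈ S) → ∀ w ∈ e, w ∈ S := by
        intro f e he hv0 w hw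
        obtain ⟨v, hv, hvS⟩ := hv0
        by_cases hvw : v = w
        · rwa [← hvw]
        have hev : e = s(v, w) := (Sym2.mem_and_mem_iff hvw).1 ⟨hv, hw⟩
        have heX : e ∈ EX := mem_filter.2 ⟨mem_univ _, ⟨f, he⟩, v, hv, hSX v hvS⟩
        have h1 := congrFun hu ⟨e, heX⟩
        rw [Matrix.mulVecLin_apply, Matrix.mulVec, dotProduct] at h1
        have h2 : ∑ x : X, A ⟨e, heX⟩ x * u x =
            ∑ x : X, (if (x : V) = v ∨ (x : V) = w then u x else 0) := by
          refine sum_congr rfl fun x _ => ?_
          simp only [A, hev, Sym2.mem_iff]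
          split_ifs <;> simp
        rw [h2] at h1
        obtain ⟨hvX, hv0⟩ := hvS
        by_cases hwX : w ∈ X
        · have h3 : ∑ x : X, (if (x : V) = v ∨ (x : V) = w then u x else 0) =
              u ⟨v, hvX⟩ + u ⟨w, hwX⟩ := by
            have h4 : (⟨v, hvX⟩ : X) ≠ ⟨w, hwX⟩ := fun h => hvw (congrArg Subtype.val h)
            rw [← sum_pair h4, ← sum_filter]
            refine sum_congr ?_ (fun _ _ => rfl)
            ext x
            simp only [mem_filter, mem_univ, true_and, mem_insert, mem_singleton, Subtype.ext_iff]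
          rw [h3] at h1
          refine ⟨hwX, fun h0 => hv0 ?_⟩
          rw [h0, add_zero] at h1
          exact h1
        · exfalso
          apply hv0
          have h3 : ∑ x : X, (if (x : V) = v ∨ (x : V) = w then u x else 0) = u ⟨v, hvX⟩ := by
            rw [← sum_singleton u (⟨v, hvX⟩ : X), ← sum_filter]
            refine sum_congr ?_ (fun _ _ => rfl)
            ext x
            simp only [mem_filter, mem_univ, true_and, mem_singleton, Subtype.ext_iff]
            constructor
            · rintro (h | h)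
              · exact h
              · exact absurd (h ▸ x.2) hwX
            · exact fun h => Or.inl h
          rw [h3] at h1
          exact h1
      -- pick a point of S
      have hex : ∃ x : X, u x ≠ 0 := by
        by_contra h
        push Not at h
        exact hne0 (funext h)
      obtain ⟨x, hx⟩ := hex
      obtain ⟨f, e, he, hxe⟩ := hX x x.2
      obtain ⟨g, hg, hgX⟩ := hfree f
      have hall : ∀ g, Relation.ReflTransGen (fun f g => (fe f ∩ fe g).Nonempty) f g →
          ∀ e ∈ fe g, ∀ v ∈ e, v ∈ S := by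
        intro g hg
        induction hg with
        | refl => exact hcyc f S ⟨e, he, x, hxe, x.2, hx⟩ (hedge f)
        | tail hab hbc ih =>
          rename_i b c
          obtain ⟨e', he'⟩ := hbc
          obtain ⟨he'b, he'c⟩ := mem_inter.1 he'
          refine hcyc c S ?_ (hedge c)
          clear he'
          induction e' using Sym2.ind with
          | h a b' => exact ⟨_, he'c, a, by simp, ih _ he'b a (by simp)⟩
      obtain ⟨e', he'⟩ := hne g
      induction e' using Sym2.ind with
      | h a b' =>
        exact hgX _ he' a (by simp) (hSX a ((hall g hg) _ he' a (by simp)))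
    rw [Matrix.rank, LinearMap.finrank_range_of_inj hinj]
    simp
  -- rank of B
  have hB : FX.card ≤ B.rank + (FX.image cls).card := by
    rw [← Matrix.rank_transpose]
    have h1 := LinearMap.finrank_range_add_finrank_ker (B.transpose.mulVecLin)
    have h2 : Module.finrank (ZMod 2) (LinearMap.ker B.transpose.mulVecLin) ≤
        (FX.image cls).card := by
      let L : ({x : C // x ∈ FX.image cls} → ZMod 2) →ₗ[ZMod 2] (FX → ZMod 2) :=
        LinearMap.funLeft (ZMod 2) (ZMod 2)
          (fun f : FX => (⟨cls f, mem_image_of_mem cls f.2⟩ : {x : C // x ∈ FX.image cls}))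
      have h3 : LinearMap.ker B.transpose.mulVecLin ≤ LinearMap.range L := by
        intro h hh
        rw [LinearMap.mem_ker] at hh
        -- extend h
        let h' : F → ZMod 2 := fun f => if hf : f ∈ FX then h ⟨f, hf⟩ else 0
        have hh' : ∀ f : FX, h' f = h f := by
          intro f
          simp only [h', f.2, dite_true]
        have h4 : ∀ f, ∀ g, ∀ e ∈ EX, e ∈ fe f → e ∈ fe g → h' f = h' g := by
          intro f g e he hef heg
          by_cases hfg : f = g
          · rw [hfg]
          have hf : f ∈ FX := mem_filter.2 ⟨mem_univ _, e, hef, he⟩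
          have hg : g ∈ FX := mem_filter.2 ⟨mem_univ _, e, heg, he⟩
          have h5 := congrFun hh ⟨e, he⟩
          rw [Matrix.mulVecLin_apply, Matrix.mulVec, dotProduct] at h5
          have h6 : univ.filter (fun f => e ∈ fe f) = {f, g} := by
            symm
            apply eq_of_subset_of_card_le
            · intro x hx
              simp only [mem_insert, mem_singleton] at hx
              rcases hx with rfl | rfl
              · exact mem_filter.2 ⟨mem_univ _, hef⟩
              · exact mem_filter.2 ⟨mem_univ _, heg⟩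
            · rw [htwo f e hef, card_pair hfg]
          have h7 : ∑ x : FX, B.transpose ⟨e, he⟩ x * h x = h' f + h' g := by
            have h8 : ∑ x : FX, B.transpose ⟨e, he⟩ x * h x =
                ∑ x ∈ FX, (if e ∈ fe x then h' x else 0) := by
              rw [← sum_coe_sort FX]
              refine sum_congr rfl fun x _ => ?_
              rw [Matrix.transpose_apply, hh']
              by_cases hx : e ∈ fe (x : F)
              · simp only [B, if_pos hx, one_mul]
              · simp only [B, if_neg hx, zero_mul]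
            rw [h8, ← sum_filter, ← sum_pair hfg]
            refine sum_congr ?_ (fun _ _ => rfl)
            rw [← h6]
            ext x
            simp only [mem_filter, mem_univ, true_and]
            constructor
            · rintro ⟨_, h2⟩; exact h2
            · intro h2
              exact ⟨mem_filter.2 ⟨mem_univ _, e, h2, he⟩, h2⟩
          rw [h7] at h5
          have h9 : h' f + h' g = 0 := h5
          exact CharTwo.add_eq_zero.1 h9
        have h5 := hcls h' h4
        refine ⟨fun c => if hc : ∃ f : FX, cls f = c then h hc.choose else 0, ?_⟩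
        funext f
        have hc : ∃ f' : FX, cls f' = cls f := ⟨f, rfl⟩
        have h6 : L (fun c => if hc : ∃ f : FX, cls f = c then h hc.choose else 0) f =
            h hc.choose := by
          simp only [L, LinearMap.funLeft_apply]
          rw [dif_pos hc]
        rw [h6, ← hh', ← hh']
        exact h5 _ hc.choose.2 _ f.2 hc.choose_spec
      calc Module.finrank (ZMod 2) (LinearMap.ker B.transpose.mulVecLin)
          ≤ Module.finrank (ZMod 2) (LinearMap.range L) := Submodule.finrank_mono h3
        _ ≤ Module.finrank (ZMod 2) ({x : C // x ∈ FX.image cls} → ZMod 2) :=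
            LinearMap.finrank_range_le L
        _ = (FX.image cls).card := by
            rw [Module.finrank_fintype_fun_eq_card, Fintype.card_coe]
    have h3 : Module.finrank (ZMod 2) (FX → ZMod 2) = FX.card := by simp
    rw [h3] at h1
    have h4 : B.transpose.rank = Module.finrank (ZMod 2) (LinearMap.range B.transpose.mulVecLin) :=
      rfl
    omega
  rw [hA, Fintype.card_coe] at hr
  omega

end

open Classical in
/-- Euler's inequality for closed pseudo-surfaces made of triangles (`q = 3`) or quadrangles (`q = 4`),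
relative to a set `X` of vertices such that every strong component has a face avoiding `X`. -/
theorem surf_ineq {V F : Type} [Fintype V] [Fintype F] (q : ℕ) (hq : q = 3 ∨ q = 4)
    (fe : F → Finset (Sym2 V))
    (hcard : ∀ f, (fe f).card = q)
    (hdiag : ∀ f, ∀ e ∈ fe f, ¬ e.IsDiag)
    (heven : ∀ f, ∀ v, Even ((fe f).filter (fun e => v ∈ e)).card)
    (htwo : ∀ f, ∀ e ∈ fe f, (univ.filter (fun g => e ∈ fe g)).card = 2)
    (hcyc : ∀ f, ∀ S : Set V, (∃ e ∈ fe f, ∃ v ∈ e, v ∈ S) →
      (∀ e ∈ fe f, (∃ v ∈ e, v ∈ S) → ∀ v ∈ e, v ∈ S) → ∀ e ∈ fe f, ∀ v ∈ e, v ∈ S)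
    (X : Finset V)
    (hX : ∀ x ∈ X, ∃ f, ∃ e ∈ fe f, x ∈ e)
    (hfree : ∀ f, ∃ g, Relation.ReflTransGen (fun f g => (fe f ∩ fe g).Nonempty) f g ∧
      ∀ e ∈ fe g, ∀ v ∈ e, v ∉ X) :
    q * X.card + 2 * (univ.filter (fun e : Sym2 V => (∃ f, e ∈ fe f) ∧ ∃ v ∈ e, v ∈ X)).card ≤
      q * (univ.filter (fun e : Sym2 V => (∃ f, e ∈ fe f) ∧ ∃ v ∈ e, v ∈ X)).card := by
  show q * X.card + 2 * (sEX fe X).card ≤ q * (sEX fe X).card
  have hne : ∀ f, (fe f).Nonempty := by
    intro f
    rw [← card_pos, hcard f]
    rcases hq with rfl | rfl <;> norm_num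
  -- classes of faces
  let G : SimpleGraph F :=
    { Adj := fun f g => f ≠ g ∧ ∃ e ∈ sEX fe X, e ∈ fe f ∧ e ∈ fe g
      symm := ⟨fun f g h => ⟨h.1.symm, by obtain ⟨_, e, h1, h2, h3⟩ := h; exact ⟨e, h1, h3, h2⟩⟩⟩
      loopless := ⟨fun f h => h.1 rfl⟩ }
  have hadj : ∀ f g, ∀ e ∈ sEX fe X, e ∈ fe f → e ∈ fe g →
      G.connectedComponentMk f = G.connectedComponentMk g := by
    intro f g e he hf hg
    by_cases hfg : f = g
    · rw [hfg]
    · exact SimpleGraph.ConnectedComponent.sound
        (SimpleGraph.Adj.reachable (show G.Adj f g from ⟨hfg, e, he, hf, hg⟩))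
  have h1 := rank_bound fe hne heven htwo hcyc X hX hfree (G.connectedComponentMk) (by
    intro h hh f _ g _ hfg
    have hr : G.Reachable f g := SimpleGraph.ConnectedComponent.exact hfg
    have hw : ∀ a b : F, G.Walk a b → h a = h b := by
      intro a b w
      induction w with
      | nil => rfl
      | cons hab p ih =>
        obtain ⟨_, e, he, h1, h2⟩ := hab
        exact (hh _ _ e he h1 h2).trans ih
    obtain ⟨w⟩ := hr
    exact hw f g w)
  set FX := sFX fe X with hFX
  set cs := FX.image G.connectedComponentMk with hcs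
  -- every class has a large boundary
  have h2 : q * cs.card ≤ ∑ f ∈ FX, ((fe f).filter (fun e => e ∉ sEX fe X)).card := by
    rw [← sum_fiberwise_of_maps_to (s := FX) (t := cs) (g := G.connectedComponentMk)
      (fun f hf => mem_image_of_mem _ hf), mul_comm, ← smul_eq_mul, ← sum_const]
    refine sum_le_sum fun c hc => ?_
    apply class_bound q hq fe hcard hdiag heven htwo X hfree
    · exact filter_subset _ _
    · obtain ⟨f, hf, hfc⟩ := mem_image.1 hc
      exact ⟨f, mem_filter.2 ⟨hf, hfc⟩⟩
    · intro f hf g e he hef heg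
      refine mem_filter.2 ⟨mem_filter.2 ⟨mem_univ _, e, heg, he⟩, ?_⟩
      rw [← (mem_filter.1 hf).2]
      exact hadj g f e he heg hef
  -- double counting
  have h3 : ∑ f ∈ FX, (fe f).card = ∑ f ∈ FX, ((fe f).filter (fun e => e ∈ sEX fe X)).card +
      ∑ f ∈ FX, ((fe f).filter (fun e => e ∉ sEX fe X)).card := by
    rw [← sum_add_distrib]
    refine sum_congr rfl fun f _ => ?_
    exact (card_filter_add_card_filter_not (s := fe f) (fun e => e ∈ sEX fe X)).symm
  have h4 : ∑ f ∈ FX, (fe f).card = q * FX.card := by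
    rw [sum_congr rfl (fun f _ => hcard f), sum_const, smul_eq_mul, mul_comm]
  have h5 : ∑ f ∈ FX, ((fe f).filter (fun e => e ∈ sEX fe X)).card = 2 * (sEX fe X).card := by
    simp only [card_eq_sum_ones, sum_filter]
    have h6 : ∀ f : F, (∑ e ∈ fe f, if e ∈ sEX fe X then 1 else 0) =
        ∑ e ∈ sEX fe X, if e ∈ fe f then 1 else 0 := by
      intro f
      rw [← sum_filter, ← sum_filter, ← card_eq_sum_ones, ← card_eq_sum_ones]
      congr 1
      ext e
      simp only [mem_filter]
      tauto
    rw [sum_congr rfl (fun f _ => h6 f), sum_comm, mul_sum]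
    refine sum_congr rfl fun e he => ?_
    obtain ⟨f, hf⟩ := (mem_filter.1 he).2.1
    rw [← sum_filter, ← card_eq_sum_ones, mul_one, ← htwo f e hf]
    congr 1
    ext g
    simp only [mem_filter, mem_univ, true_and]
    constructor
    · rintro ⟨_, h⟩; exact h
    · intro h; exact ⟨mem_filter.2 ⟨mem_univ _, e, h, he⟩, h⟩
  have h6 : q * FX.card = 2 * (sEX fe X).card +
      ∑ f ∈ FX, ((fe f).filter (fun e => e ∉ sEX fe X)).card := by
    rw [← h4, h3, h5]
  have h7 : q * (X.card + FX.card) ≤ q * ((sEX fe X).card + cs.card) := Nat.mul_le_mul_left _ h1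
  rw [mul_add, mul_add] at h7
  omega

end Pool.Agent.CubLBC
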