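import Pool.Agent.CubLBC.Defs
import Pool.Agent.CubLBC.Surf

set_option autoImplicit false

namespace Pool.Agent.CubLBC

open Finset

namespace PTwoAux

variable {V : Type}

/-- the corner (1,1) -/
def b1 : Fin 2 → Bool := fun _ => true

lemma corner_cases (ε : Fin 2 → Bool) : ε = b0 ∨ ε = bE 0 ∨ ε = bE 1 ∨ ε = b1 := by
  revert ε; unfold b0 bE b1; decide

lemma flip0 (c : Lab V 2) : flipL c 0 b0 = c (bE 0) ∧ flipL c 0 (bE 0) = c b0 ∧
    flipL c 0 (bE 1) = c b1 ∧ flipL c 0 b1 = c (bE 1) := by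
  unfold flipL
  refine ⟨congrArg c ?_, congrArg c ?_, congrArg c ?_, congrArg c ?_⟩ <;>
    decide

lemma flip1 (c : Lab V 2) : flipL c 1 b0 = c (bE 1) ∧ flipL c 1 (bE 0) = c b1 ∧
    flipL c 1 (bE 1) = c b0 ∧ flipL c 1 b1 = c (bE 0) := by
  unfold flipL
  refine ⟨congrArg c ?_, congrArg c ?_, congrArg c ?_, congrArg c ?_⟩ <;>
    decide

lemma swap01 (c : Lab V 2) : permL c (Equiv.swap 0 1) b0 = c b0 ∧
    permL c (Equiv.swap 0 1) (bE 0) = c (bE 1) ∧
    permL c (Equiv.swap 0 1) (bE 1) = c (bE 0) ∧ permL c (Equiv.swap 0 1) b1 = c b1 := by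
  unfold permL
  refine ⟨congrArg c ?_, congrArg c ?_, congrArg c ?_, congrArg c ?_⟩ <;>
    decide

lemma perm_cases (π : Equiv.Perm (Fin 2)) : π = 1 ∨ π = Equiv.swap 0 1 := by
  revert π; decide

open Classical in
/-- the four edges of a labelled square -/
noncomputable def fe (c : Lab V 2) : Finset (Sym2 V) :=
  {s(c b0, c (bE 0)), s(c (bE 0), c b1), s(c b1, c (bE 1)), s(c (bE 1), c b0)}

lemma mem_fe (c : Lab V 2) (e : Sym2 V) : e ∈ fe c ↔ e = s(c b0, c (bE 0)) ∨
    e = s(c (bE 0), c b1) ∨ e = s(c b1, c (bE 1)) ∨ e = s(c (bE 1), c b0) := by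
  unfold fe; simp

lemma fe_flip0 (c : Lab V 2) : fe (flipL c 0) = fe c := by
  obtain ⟨h1, h2, h3, h4⟩ := flip0 c
  ext e
  rw [mem_fe, mem_fe, h1, h2, h3, h4, Sym2.eq_swap (a := c (bE 0)) (b := c b0),
    Sym2.eq_swap (a := c b0) (b := c (bE 1)), Sym2.eq_swap (a := c (bE 1)) (b := c b1),
    Sym2.eq_swap (a := c b1) (b := c (bE 0))]
  tauto

lemma fe_flip1 (c : Lab V 2) : fe (flipL c 1) = fe c := by
  obtain ⟨h1, h2, h3, h4⟩ := flip1 c
  ext e
  rw [mem_fe, mem_fe, h1, h2, h3, h4, Sym2.eq_swap (a := c (bE 1)) (b := c b1),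
    Sym2.eq_swap (a := c b1) (b := c (bE 0)), Sym2.eq_swap (a := c (bE 0)) (b := c b0),
    Sym2.eq_swap (a := c b0) (b := c (bE 1))]
  tauto

lemma fe_swap (c : Lab V 2) : fe (permL c (Equiv.swap 0 1)) = fe c := by
  obtain ⟨h1, h2, h3, h4⟩ := swap01 c
  ext e
  rw [mem_fe, mem_fe, h1, h2, h3, h4, Sym2.eq_swap (a := c b0) (b := c (bE 1)),
    Sym2.eq_swap (a := c (bE 1)) (b := c b1), Sym2.eq_swap (a := c b1) (b := c (bE 0)),
    Sym2.eq_swap (a := c (bE 0)) (b := c b0)]
  tauto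

lemma permL_one (c : Lab V 2) : permL c 1 = c := rfl

/-- every oriented edge of a square can be put into the position `(0,0) → (1,0)` -/
lemma relabel (K : CubCx V 2) (c : Lab V 2) (hc : c ∈ K.F) (x y : V) (h : s(x, y) ∈ fe c) :
    ∃ c' ∈ K.F, fe c' = fe c ∧ c' b0 = x ∧ c' (bE 0) = y := by
  have key : ∀ c : Lab V 2, c ∈ K.F → ∀ x y : V, s(x, y) = s(c b0, c (bE 0)) →
      ∃ c' ∈ K.F, fe c' = fe c ∧ c' b0 = x ∧ c' (bE 0) = y := by
    intro c hc x y h
    rw [Sym2.eq_iff] at h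
    rcases h with ⟨rfl, rfl⟩ | ⟨rfl, rfl⟩
    · exact ⟨c, hc, rfl, rfl, rfl⟩
    · exact ⟨flipL c 0, K.flip c hc 0, fe_flip0 c, (flip0 c).1, (flip0 c).2.1⟩
  rw [mem_fe] at h
  rcases h with h | h | h | h
  · exact key c hc x y h
  · -- s(c10, c11): swap then flip... use flip0 then swap
    have h1 := K.perm _ (K.flip c hc 0) (Equiv.swap 0 1)
    obtain ⟨c', hc', h2, h3⟩ := key _ h1 x y (by
      rw [(swap01 _).1, (swap01 _).2.1, (flip0 c).1, (flip0 c).2.2.1]; exact h)
    exact ⟨c', hc', h2.trans ((fe_swap _).trans (fe_flip0 c)), h3⟩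
  · have h1 := K.flip c hc 1
    obtain ⟨c', hc', h2, h3⟩ := key _ h1 x y (by
      rw [(flip1 c).1, (flip1 c).2.1, h, Sym2.eq_swap])
    exact ⟨c', hc', h2.trans (fe_flip1 c), h3⟩
  · have h1 := K.perm c hc (Equiv.swap 0 1)
    obtain ⟨c', hc', h2, h3⟩ := key _ h1 x y (by
      rw [(swap01 _).1, (swap01 _).2.1, h, Sym2.eq_swap])
    exact ⟨c', hc', h2.trans (fe_swap c), h3⟩

lemma distinct (K : CubCx V 2) (c : Lab V 2) (hc : c ∈ K.F) :
    c b0 ≠ c (bE 0) ∧ c b0 ≠ c (bE 1) ∧ c b0 ≠ c b1 ∧ c (bE 0) ≠ c (bE 1) ∧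
      c (bE 0) ≠ c b1 ∧ c (bE 1) ≠ c b1 := by
  have hi := K.inj c hc
  refine ⟨hi.ne ?_, hi.ne ?_, hi.ne ?_, hi.ne ?_, hi.ne ?_, hi.ne ?_⟩ <;>
    decide

lemma nodup (K : CubCx V 2) (c : Lab V 2) (hc : c ∈ K.F) :
    (s(c b0, c (bE 0)) : Sym2 V) ≠ s(c (bE 0), c b1) ∧ (s(c b0, c (bE 0)) : Sym2 V) ≠ s(c b1, c (bE 1)) ∧
    (s(c b0, c (bE 0)) : Sym2 V) ≠ s(c (bE 1), c b0) ∧ (s(c (bE 0), c b1) : Sym2 V) ≠ s(c b1, c (bE 1)) ∧
    (s(c (bE 0), c b1) : Sym2 V) ≠ s(c (bE 1), c b0) ∧ (s(c b1, c (bE 1)) : Sym2 V) ≠ s(c (bE 1), c b0) := by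
  obtain ⟨h1, h2, h3, h4, h5, h6⟩ := distinct K c hc
  refine ⟨?_, ?_, ?_, ?_, ?_, ?_⟩ <;> rw [Ne, Sym2.eq_iff] <;> rintro (⟨h, h'⟩ | ⟨h, h'⟩)
  · exact h1 h
  · exact h3 h
  · exact h3 h
  · exact h2 h
  · exact h2 h
  · exact h4 h'
  · exact h5 h
  · exact h4 h
  · exact h4 h
  · exact h1 h.symm
  · exact h6 h.symm
  · exact h3 h.symm

open Classical in
/-- sums over the four edges -/
lemma sum_fe (K : CubCx V 2) (c : Lab V 2) (hc : c ∈ K.F) (g : Sym2 V → ℕ) :
    ∑ e ∈ fe c, g e = g s(c b0, c (bE 0)) + (g s(c (bE 0), c b1) + (g s(c b1, c (bE 1)) +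
      g s(c (bE 1), c b0))) := by
  obtain ⟨n1, n2, n3, n4, n5, n6⟩ := nodup K c hc
  unfold fe
  rw [Finset.sum_insert, Finset.sum_insert, Finset.sum_insert, Finset.sum_singleton]
  · rw [mem_singleton]; exact n6
  · rw [mem_insert, mem_singleton]; tauto
  · rw [mem_insert, mem_insert, mem_singleton]; tauto

lemma agree_of (c c' : Lab V 2) (h0 : c b0 = c' b0) (h1 : c (bE 0) = c' (bE 0)) : Agree c c' := by
  intro ε hε
  have h2 : ε 1 = false := hε 1 rfl
  rcases corner_cases ε with rfl | rfl | rfl | rfl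
  · exact h0
  · exact h1
  · exfalso; revert h2; unfold bE; decide
  · exfalso; revert h2; unfold b1; decide

lemma of_agree (c c' : Lab V 2) (h : Agree c c') : c b0 = c' b0 ∧ c (bE 0) = c' (bE 0) := by
  constructor
  · apply h; intro i _; rfl
  · apply h
    intro i hi
    unfold bE
    have : i = 1 := by ext; simp; omega
    rw [this]; decide

lemma eq_of_three (K : CubCx V 2) (c c' : Lab V 2) (hc : c ∈ K.F) (hc' : c' ∈ K.F)
    (h0 : c b0 = c' b0) (h1 : c (bE 0) = c' (bE 0)) (h2 : c (bE 1) = c' (bE 1)) : c = c' := by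
  funext ε
  refine K.det c hc c' hc' 2 h0 ?_ ε ?_
  · intro i _
    fin_cases i
    · exact h1
    · exact h2
  · intro i hi
    have := i.2
    omega

end PTwoAux

open PTwoAux

/-- Base case of the cubical pinned inequality. -/
theorem P2 {V : Type} [Fintype V] (K : CubCx V 2) (X : Finset V) (hX : ∀ x ∈ X, K.IsVert x)
    (hF : K.Free X) : 4 * X.card ≤ (K.inc X).card := by
  classical
  set F := {s : Finset (Sym2 V) // ∃ c ∈ K.F, s = fe c} with hFdef
  have hfin : Fintype F := Fintype.ofFinite _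
  have key := surf_ineq (V := V) (F := F) 4 (Or.inr rfl) (fun f => f.1) ?_ ?_ ?_ ?_ ?_ X ?_ ?_
  · -- conclusion
    set EX := (univ.filter (fun e : Sym2 V => (∃ f : F, e ∈ f.1) ∧ ∃ v ∈ e, v ∈ X)) with hEX
    have h2 : 2 * EX.card ≤ (K.inc X).card := by
      have hadj : ∀ x y, (∃ f : F, s(x, y) ∈ f.1) → K.Adj x y := by
        rintro x y ⟨⟨f, c, hc, rfl⟩, h⟩
        obtain ⟨c', hc', _, h1, h2⟩ := relabel K c hc x y h
        exact ⟨c', hc', 0, h1, h2⟩
      have hadj' : ∀ x y, K.Adj x y → ∃ f : F, s(x, y) ∈ f.1 := by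
        rintro x y ⟨c, hc, i, rfl, rfl⟩
        refine ⟨⟨fe c, c, hc, rfl⟩, ?_⟩
        show _ ∈ fe c
        rw [mem_fe]
        fin_cases i
        · left; rfl
        · right; right; right; exact Sym2.eq_swap
      have hmaps : ∀ p ∈ K.inc X, (s(p.1, p.2) : Sym2 V) ∈ EX := by
        intro p hp
        unfold CubCx.inc at hp
        rw [Finset.mem_filter] at hp
        rw [hEX, Finset.mem_filter]
        refine ⟨Finset.mem_univ _, hadj' _ _ hp.2.1, ?_⟩
        rcases hp.2.2 with h | h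
        · exact ⟨p.1, by simp, h⟩
        · exact ⟨p.2, by simp, h⟩
      rw [Finset.card_eq_sum_card_fiberwise hmaps, mul_comm, ← smul_eq_mul, ← Finset.sum_const]
      apply Finset.sum_le_sum
      intro e he
      rw [hEX, Finset.mem_filter] at he
      obtain ⟨_, ⟨f, hf⟩, v, hv, hvX⟩ := he
      induction e using Sym2.ind with
      | _ x y =>
        have hxy : x ≠ y := by
          rintro rfl
          obtain ⟨c, hc, hfc⟩ := f.2
          rw [hfc] at hf
          obtain ⟨c', hc', _, h1, h2⟩ := relabel K c hc x x hf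
          exact (distinct K c' hc').1 (h1.trans h2.symm)
        have hsub : ({(x, y), (y, x)} : Finset (V × V)) ⊆
            (K.inc X).filter (fun p => (s(p.1, p.2) : Sym2 V) = s(x, y)) := by
          intro p hp
          rw [Finset.mem_insert, Finset.mem_singleton] at hp
          rw [Finset.mem_filter]
          unfold CubCx.inc
          rw [Finset.mem_filter]
          rw [Sym2.mem_iff] at hv
          rcases hp with rfl | rfl
          · refine ⟨⟨Finset.mem_univ _, hadj _ _ ⟨f, hf⟩, ?_⟩, rfl⟩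
            rcases hv with rfl | rfl
            · exact Or.inl hvX
            · exact Or.inr hvX
          · refine ⟨⟨Finset.mem_univ _, hadj _ _ ⟨f, ?_⟩, ?_⟩, Sym2.eq_swap⟩
            · rw [Sym2.eq_swap]; exact hf
            · rcases hv with rfl | rfl
              · exact Or.inr hvX
              · exact Or.inl hvX
        have hc2 : ({(x, y), (y, x)} : Finset (V × V)).card = 2 := by
          apply Finset.card_pair
          intro h
          exact hxy (Prod.mk.inj h).1
        exact hc2.symm.le.trans (Finset.card_le_card hsub)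
    omega
  · -- card
    rintro ⟨f, c, hc, rfl⟩
    show (fe c).card = 4
    rw [Finset.card_eq_sum_ones, sum_fe K c hc]
  · -- no loops
    rintro ⟨f, c, hc, rfl⟩ e he hd
    obtain ⟨h1, h2, h3, h4, h5, h6⟩ := distinct K c hc
    rw [mem_fe] at he
    rcases he with rfl | rfl | rfl | rfl
    · exact h1 (by simpa using hd)
    · exact h5 (by simpa using hd)
    · exact h6.symm (by simpa using hd)
    · exact h2.symm (by simpa using hd)
  · -- even
    rintro ⟨f, c, hc, rfl⟩ v
    obtain ⟨h1, h2, h3, h4, h5, h6⟩ := distinct K c hc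
    show Even ((fe c).filter (fun e => v ∈ e)).card
    rw [Finset.card_filter, sum_fe K c hc]
    simp only [Sym2.mem_iff]
    by_cases e1 : v = c b0
    · subst e1; simp [h1, h2, h3]
    by_cases e2 : v = c (bE 0)
    · subst e2; simp [h1.symm, h4, h5]
    by_cases e3 : v = c (bE 1)
    · subst e3; simp [h2.symm, h4.symm, h6]
    by_cases e4 : v = c b1
    · subst e4; simp [h3.symm, h5.symm, h6.symm]
    simp [e1, e2, e3, e4]
  · -- two
    rintro ⟨f, c, hc, rfl⟩ e he
    change e ∈ fe c at he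
    induction e using Sym2.ind with
    | _ x y =>
      obtain ⟨c1, hc1, hfe, hx, hy⟩ := relabel K c hc x y he
      obtain ⟨c2, hc2, hne, hag, huniq⟩ := K.ridge c1 hc1
      obtain ⟨a1, a2⟩ := of_agree c1 c2 hag
      rw [Finset.card_eq_two]
      refine ⟨⟨fe c1, c1, hc1, rfl⟩, ⟨fe c2, c2, hc2, rfl⟩, ?_, ?_⟩
      · intro h
        have h' : fe c1 = fe c2 := congrArg Subtype.val h
        apply hne
        refine (eq_of_three K c1 c2 hc1 hc2 a1 a2 ?_).symm
        have h3 : (s(c1 (bE 1), c1 b0) : Sym2 V) ∈ fe c2 := by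
          rw [← h', mem_fe]; tauto
        obtain ⟨g1, g2, g3, g4, g5, g6⟩ := distinct K c2 hc2
        obtain ⟨k1, k2, k3, k4, k5, k6⟩ := distinct K c1 hc1
        rw [mem_fe, a1] at h3
        simp only [Sym2.eq_iff] at h3
        rcases h3 with (⟨h, h'⟩ | ⟨h, h'⟩) | (⟨h, h'⟩ | ⟨h, h'⟩) | (⟨h, h'⟩ | ⟨h, h'⟩) | (⟨h, h'⟩ | ⟨h, h'⟩)
        · exact absurd h' g1
        · exact absurd (a2.trans h.symm) k4
        · exact absurd h' g3
        · exact absurd h' g1
        · exact absurd h' g2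
        · exact absurd h' g3
        · exact h
        · exact absurd h' g2
      · ext g
        simp only [mem_filter, mem_univ, true_and, mem_insert, mem_singleton]
        constructor
        · intro hg
          obtain ⟨g, c3, hc3, rfl⟩ := g
          obtain ⟨c4, hc4, hfe4, hx4, hy4⟩ := relabel K c3 hc3 x y hg
          have hag4 : Agree c1 c4 := agree_of c1 c4 (hx.trans hx4.symm) (hy.trans hy4.symm)
          rcases huniq c4 hc4 hag4 with h | h
          · left; exact Subtype.ext (by show fe c3 = fe c1; rw [← hfe4, h])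
          · right; exact Subtype.ext (by show fe c3 = fe c2; rw [← hfe4, h])
        · rintro (rfl | rfl)
          · show _ ∈ fe c1
            rw [hfe]; exact he
          · show _ ∈ fe c2
            rw [mem_fe, ← a1, ← a2, hx, hy]; tauto
  · -- cyc
    rintro ⟨f, c, hc, rfl⟩ S ⟨e, he, v, hv, hvS⟩ hcl
    have k1 : c b0 ∈ S ↔ c (bE 0) ∈ S := by
      have h := hcl s(c b0, c (bE 0)) (by rw [mem_fe]; tauto)
      constructor
      · intro hh; exact h ⟨_, by simp, hh⟩ _ (by simp)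
      · intro hh; exact h ⟨c (bE 0), by simp, hh⟩ _ (by simp)
    have k2 : c (bE 0) ∈ S ↔ c b1 ∈ S := by
      have h := hcl s(c (bE 0), c b1) (by rw [mem_fe]; tauto)
      constructor
      · intro hh; exact h ⟨_, by simp, hh⟩ _ (by simp)
      · intro hh; exact h ⟨c b1, by simp, hh⟩ _ (by simp)
    have k3 : c b1 ∈ S ↔ c (bE 1) ∈ S := by
      have h := hcl s(c b1, c (bE 1)) (by rw [mem_fe]; tauto)
      constructor
      · intro hh; exact h ⟨_, by simp, hh⟩ _ (by simp)
      · intro hh; exact h ⟨c (bE 1), by simp, hh⟩ _ (by simp)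
    have hall : c b0 ∈ S := by
      rw [mem_fe] at he
      rcases he with rfl | rfl | rfl | rfl <;> rw [Sym2.mem_iff] at hv <;>
        rcases hv with rfl | rfl <;> tauto
    intro e' he' w hw
    rw [mem_fe] at he'
    rcases he' with rfl | rfl | rfl | rfl <;> rw [Sym2.mem_iff] at hw <;>
      rcases hw with rfl | rfl <;> tauto
  · -- covering
    intro x hx
    obtain ⟨c, hc, rfl⟩ := hX x hx
    exact ⟨⟨fe c, c, hc, rfl⟩, s(c b0, c (bE 0)), by show _ ∈ fe c; rw [mem_fe]; tauto, by simp⟩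
  · -- free
    rintro ⟨f, c, hc, rfl⟩
    obtain ⟨c', hc', hsim, hfree⟩ := hF c hc
    refine ⟨⟨fe c', c', hc', rfl⟩, ?_, ?_⟩
    · have gen : ∀ d, Relation.ReflTransGen (GStep K.F) c d → ∀ hd : d ∈ K.F,
          Relation.ReflTransGen (fun f g : F => (f.1 ∩ g.1).Nonempty)
            ⟨fe c, c, hc, rfl⟩ ⟨fe d, d, hd, rfl⟩ := by
        intro d hcd
        induction hcd with
        | refl => intro hd; exact Relation.ReflTransGen.refl
        | @tail d d' hcd hstep ih =>
          intro hd'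
          have hd : d ∈ K.F := by
            rcases hcd.cases_tail with h | ⟨z, _, hz⟩
            · rw [h]; exact hc
            · exact hz.1
          refine (ih hd).tail ?_
          show (fe d ∩ fe d').Nonempty
          have hself : (s(d b0, d (bE 0)) : Sym2 V) ∈ fe d := by rw [mem_fe]; tauto
          refine ⟨s(d b0, d (bE 0)), ?_⟩
          rw [Finset.mem_inter]
          refine ⟨hself, ?_⟩
          obtain ⟨_, ⟨π, rfl⟩ | ⟨i, rfl⟩ | hag⟩ := hstep
          · rcases perm_cases π with rfl | rfl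
            · exact hself
            · rw [fe_swap]; exact hself
          · fin_cases i
            · show _ ∈ fe (flipL d 0)
              rw [fe_flip0]; exact hself
            · show _ ∈ fe (flipL d 1)
              rw [fe_flip1]; exact hself
          · obtain ⟨h1, h2⟩ := of_agree d d' hag
            rw [mem_fe, h1, h2]; tauto
      exact gen c' hsim hc'
    · intro e he v hv hvX
      change e ∈ fe c' at he
      rw [mem_fe] at he
      rcases he with rfl | rfl | rfl | rfl <;> rw [Sym2.mem_iff] at hv <;>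
        rcases hv with rfl | rfl <;> exact hfree _ hvX

end Pool.Agent.CubLBC
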