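import Pool.Agent.CubLBC.SPinned

set_option autoImplicit false

namespace Pool.Agent.CubLBC

open Finset

/-- The zero-tuples of the link of `w`: one if `w` is a vertex, none otherwise. -/
theorem tup_zero_card {W : Type} [Fintype W] {m : ℕ} (S : SimpCx W m) (hne : S.T.Nonempty) :
    (S.tup 0).card = 1 := by
  classical
  obtain ⟨b, hb⟩ := hne
  have : S.tup 0 = Finset.univ := by
    apply Finset.eq_univ_iff_forall.2
    intro p
    simp only [SimpCx.tup, Finset.mem_filter, Finset.mem_univ, true_and]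
    exact ⟨b, hb, fun i => i.elim0⟩
  rw [this]
  simp

theorem tup_card_empty {W : Type} [Fintype W] {m : ℕ} (S : SimpCx W m) (hne : ¬ S.T.Nonempty)
    (k : ℕ) : (S.tup k).card = 0 := by
  classical
  rw [Finset.card_eq_zero]
  apply Finset.eq_empty_of_forall_notMem
  intro p hp
  simp only [SimpCx.tup, Finset.mem_filter, Finset.mem_univ, true_and] at hp
  obtain ⟨b, hb, _⟩ := hp
  exact hne ⟨b, hb⟩

/-- `S.tup 1` counted through the zero tuples of the links. -/
theorem tup_one_sum {W : Type} [Fintype W] {m : ℕ} (hm : 1 ≤ m) (S : SimpCx W (m + 1)) :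
    ((S.tup 1).card : ℝ) = ∑ w : W, (((S.link hm w).tup 0).card : ℝ) := by
  have h := tup_succ 0 hm (Nat.zero_le m) S
  rw [show (0 + 1 : ℕ) = 1 from rfl] at h
  rw [h]
  push_cast
  rfl

theorem tup_two_sum {W : Type} [Fintype W] {m : ℕ} (hm : 1 ≤ m) (S : SimpCx W (m + 1)) :
    ((S.tup 2).card : ℝ) = ∑ w : W, (((S.link hm w).tup 1).card : ℝ) := by
  have h := tup_succ 1 hm hm S
  rw [show (1 + 1 : ℕ) = 2 from rfl] at h
  rw [h]
  push_cast
  rfl

/-- Summation of a linear inequality over all links. -/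
theorem link_sum {W : Type} [Fintype W] {m : ℕ} (hm : 1 ≤ m) (S : SimpCx W (m + 1)) (k : ℕ)
    (hk : k ≤ m) (A B : ℝ)
    (h : ∀ w : W, (S.link hm w).T.Nonempty →
      A * (((S.link hm w).tup 1).card : ℝ) - B ≤ (((S.link hm w).tup k).card : ℝ)) :
    A * ((S.tup 2).card : ℝ) - B * ((S.tup 1).card : ℝ) ≤ ((S.tup (k + 1)).card : ℝ) := by
  have h1 : ((S.tup (k + 1)).card : ℝ) = ∑ w : W, (((S.link hm w).tup k).card : ℝ) := by
    rw [tup_succ k hm hk S]
    push_cast
    rfl
  rw [h1, tup_two_sum hm S, tup_one_sum hm S, Finset.mul_sum, Finset.mul_sum,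
    ← Finset.sum_sub_distrib]
  apply Finset.sum_le_sum
  intro w _
  by_cases hw : (S.link hm w).T.Nonempty
  · rw [tup_zero_card _ hw]
    have := h w hw
    push_cast
    linarith
  · rw [tup_card_empty _ hw, tup_card_empty _ hw, tup_card_empty _ hw]
    simp

/-- Lower bound theorem for general faces, `1 ≤ k ≤ m - 1`. -/
theorem lbt_faces {W : Type} [Fintype W] (m k : ℕ) (hk : 1 ≤ k) (hkm : k + 1 ≤ m) (S : SimpCx W m)
    (hne : S.T.Nonempty) :
    (k.factorial : ℝ) * ((Nat.choose m (k - 1) : ℝ) * ((S.tup 1).card : ℝ)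
      - ((k : ℝ) - 1) * (Nat.choose (m + 1) k : ℝ)) ≤ ((S.tup k).card : ℝ) := by
  induction k, hk using Nat.le_induction generalizing m with
  | base => simp
  | succ k hk ih =>
    obtain ⟨m, rfl⟩ : ∃ m', m = m' + 1 := ⟨m - 1, by omega⟩
    have hm1 : 1 ≤ m := by omega
    obtain ⟨j, rfl⟩ : ∃ j, k = j + 1 := ⟨k - 1, by omega⟩
    have hkey := link_sum hm1 S (j + 1) (by omega)
      (((j + 1).factorial : ℝ) * (Nat.choose m j : ℝ))
      (((j + 1).factorial : ℝ) * ((j : ℝ) * (Nat.choose (m + 1) (j + 1) : ℝ))) (by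
        intro w hw
        have := ih m (by omega) (S.link hm1 w) hw
        simp only [Nat.add_sub_cancel] at this
        push_cast at this ⊢
        linarith)
    have hedge := lbt_edges (m + 1) (by omega) S hne
    have hA : (0 : ℝ) ≤ ((j + 1).factorial : ℝ) * (Nat.choose m j : ℝ) := by positivity
    have h2 := mul_le_mul_of_nonneg_left hedge hA
    refine le_trans ?_ hkey
    have e1 : ((m : ℝ) + 1) * (Nat.choose m j : ℝ)
        = ((j : ℝ) + 1) * (Nat.choose (m + 1) (j + 1) : ℝ) := by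
      have := Nat.add_one_mul_choose_eq m j
      have h' : (((m + 1) * m.choose j : ℕ) : ℝ) = (((m + 1).choose (j + 1) * (j + 1) : ℕ) : ℝ) := by
        rw [this]
      push_cast at h'
      linarith
    have e2 : ((m : ℝ) + 1 + 1) * (Nat.choose (m + 1) (j + 1) : ℝ)
        = ((j : ℝ) + 1 + 1) * (Nat.choose (m + 1 + 1) (j + 1 + 1) : ℝ) := by
      have := Nat.add_one_mul_choose_eq (m + 1) (j + 1)
      have h' : (((m + 1 + 1) * (m + 1).choose (j + 1) : ℕ) : ℝ)
          = (((m + 1 + 1).choose (j + 1 + 1) * (j + 1 + 1) : ℕ) : ℝ) := by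
        rw [this]
      push_cast at h'
      linarith
    have e3 : (((j + 1 + 1).factorial : ℕ) : ℝ) = ((j : ℝ) + 1 + 1) * ((j + 1).factorial : ℝ) := by
      rw [Nat.factorial_succ (j + 1)]
      push_cast
      ring
    have hs : j + 1 + 1 - 1 = j + 1 := by omega
    rw [hs, e3]
    set F : ℝ := ((j + 1).factorial : ℝ) with hF
    set c0 : ℝ := (Nat.choose m j : ℝ) with hc0
    set c1 : ℝ := (Nat.choose (m + 1) (j + 1) : ℝ) with hc1
    set c2 : ℝ := (Nat.choose (m + 1 + 1) (j + 1 + 1) : ℝ) with hc2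
    set f1 : ℝ := ((S.tup 1).card : ℝ) with hf1
    set f2 : ℝ := ((S.tup 2).card : ℝ) with hf2
    push_cast at h2 ⊢
    have step : F * c0 * (2 * ((m : ℝ) + 1) * f1 - (m + 1) * (m + 1 + 1)) - F * (j * c1) * f1
        = ((j : ℝ) + 1 + 1) * F * (c1 * f1 - ((j : ℝ) + 1) * c2) := by
      have : F * c0 * (2 * ((m : ℝ) + 1) * f1 - (m + 1) * (m + 1 + 1))
          = F * (2 * (((m : ℝ) + 1) * c0) * f1 - (((m : ℝ) + 1) * c0) * (m + 1 + 1)) := by ring
      rw [this, e1]
      have h3 : F * (2 * (((j : ℝ) + 1) * c1) * f1 - (((j : ℝ) + 1) * c1) * (m + 1 + 1))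
          = F * (2 * (((j : ℝ) + 1) * c1) * f1 - ((j : ℝ) + 1) * (((m : ℝ) + 1 + 1) * c1)) := by
        ring
      rw [h3, e2]
      ring
    have e4 : ((j : ℝ) + 1 + 1) * F * (c1 * f1 - ((j : ℝ) + 1 + 1 - 1) * c2)
        = ((j : ℝ) + 1 + 1) * F * (c1 * f1 - ((j : ℝ) + 1) * c2) := by ring
    rw [e4, ← step]
    linarith

/-- In a one-dimensional link there are at least two vertices. -/
theorem tup_one_two_le {W : Type} [Fintype W] (S : SimpCx W 1) (hne : S.T.Nonempty) :
    2 ≤ (S.tup 1).card := by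
  classical
  obtain ⟨b, hb⟩ := hne
  obtain ⟨b', hb', hne', _, _⟩ := S.ridge b hb
  have h1 : b ∈ S.tup 1 := by
    simp only [SimpCx.tup, Finset.mem_filter, Finset.mem_univ, true_and]
    exact ⟨b, hb, fun i h => rfl⟩
  have h2 : b' ∈ S.tup 1 := by
    simp only [SimpCx.tup, Finset.mem_filter, Finset.mem_univ, true_and]
    exact ⟨b', hb', fun i h => rfl⟩
  have : ({b, b'} : Finset (Fin 1 → W)) ⊆ S.tup 1 := by
    intro x hx
    simp only [Finset.mem_insert, Finset.mem_singleton] at hx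
    rcases hx with rfl | rfl
    · exact h1
    · exact h2
  calc 2 = ({b, b'} : Finset (Fin 1 → W)).card := (Finset.card_pair (Ne.symm hne')).symm
    _ ≤ _ := Finset.card_le_card this

/-- Lower bound theorem for the facets. -/
theorem lbt_facets {W : Type} [Fintype W] (m : ℕ) (hm : 2 ≤ m) (S : SimpCx W m)
    (hne : S.T.Nonempty) :
    (m.factorial : ℝ) * (((m : ℝ) - 1) * ((S.tup 1).card : ℝ)
      - ((m : ℝ) + 1) * ((m : ℝ) - 2)) ≤ ((S.tup m).card : ℝ) := by
  induction m, hm using Nat.le_induction with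
  | base =>
    have h := link_sum (le_refl 1) S 1 (le_refl 1) 0 (-2) (by
      intro w hw
      have := tup_one_two_le _ hw
      have h2 : (2 : ℝ) ≤ (((S.link (le_refl 1) w).tup 1).card : ℝ) := by exact_mod_cast this
      linarith)
    simp only [Nat.factorial] at *
    push_cast
    norm_num at *
    linarith
  | succ m hm ih =>
    have hm1 : 1 ≤ m := by omega
    have hkey := link_sum hm1 S m (le_refl m)
      ((m.factorial : ℝ) * ((m : ℝ) - 1))
      ((m.factorial : ℝ) * (((m : ℝ) + 1) * ((m : ℝ) - 2))) (by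
        intro w hw
        have := ih (S.link hm1 w) hw
        linarith)
    have hedge := lbt_edges (m + 1) (by omega) S hne
    have hmr : (2 : ℝ) ≤ (m : ℝ) := by exact_mod_cast hm
    have hA : (0 : ℝ) ≤ (m.factorial : ℝ) * ((m : ℝ) - 1) :=
      mul_nonneg (by positivity) (by linarith)
    have h2 := mul_le_mul_of_nonneg_left hedge hA
    refine le_trans ?_ hkey
    rw [Nat.factorial_succ]
    push_cast at h2 ⊢
    set F : ℝ := (m.factorial : ℝ) with hF
    set f1 : ℝ := ((S.tup 1).card : ℝ) with hf1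
    set f2 : ℝ := ((S.tup 2).card : ℝ) with hf2
    nlinarith

end Pool.Agent.CubLBC
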