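import Pool.Agent.CubLBC.Der
import Pool.Agent.CubLBC.Moves

set_option autoImplicit false

namespace Pool.Agent.CubLBC

open Finset

/-- The cubical pinned inequality in dimension `n`. -/
def PIneq (n : ℕ) : Prop :=
  ∀ (V : Type) [Fintype V] (K : CubCx V n) (X : Finset V), (∀ x ∈ X, K.IsVert x) → K.Free X →
    (n + 2) * X.card ≤ (K.inc X).card

section layer

open Classical in
/-- Layer cake: from sets to weights. -/
lemma layer_cake {U : Type} [Fintype U] (R : U → U → Prop) (c M : ℕ) (μ : U → ℕ)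
    (hM : ∀ p, μ p ≤ M)
    (h : ∀ t, 1 ≤ t → c * (univ.filter (fun p => t ≤ μ p)).card ≤
      ((univ : Finset (U × U)).filter (fun p => R p.1 p.2 ∧
        (p.1 ∈ univ.filter (fun p => t ≤ μ p) ∨ p.2 ∈ univ.filter (fun p => t ≤ μ p)))).card) :
    c * ∑ p, μ p ≤ ∑ p : U × U, if R p.1 p.2 then max (μ p.1) (μ p.2) else 0 := by
  have h1 : ∀ p, μ p = ∑ t ∈ Finset.Icc 1 M, if t ≤ μ p then 1 else 0 := by
    intro p
    rw [← Finset.card_filter]
    have : (Finset.Icc 1 M).filter (fun t => t ≤ μ p) = Finset.Icc 1 (μ p) := by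
      ext t
      simp only [mem_filter, mem_Icc]
      have := hM p
      omega
    rw [this]
    simp
  have h2 : ∀ p : U × U, (if R p.1 p.2 then max (μ p.1) (μ p.2) else 0) =
      ∑ t ∈ Finset.Icc 1 M, if (R p.1 p.2 ∧ (t ≤ μ p.1 ∨ t ≤ μ p.2)) then 1 else 0 := by
    intro p
    by_cases hR : R p.1 p.2
    · simp only [hR, if_true, true_and]
      rw [← Finset.card_filter]
      have : (Finset.Icc 1 M).filter (fun t => t ≤ μ p.1 ∨ t ≤ μ p.2) =
          Finset.Icc 1 (max (μ p.1) (μ p.2)) := by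
        ext t
        simp only [mem_filter, mem_Icc]
        have h3 := hM p.1
        have h4 := hM p.2
        omega
      rw [this]
      simp
    · simp [hR]
  rw [Finset.sum_congr rfl (fun p _ => h1 p), Finset.sum_congr rfl (fun p _ => h2 p),
    Finset.sum_comm, Finset.sum_comm (s := (univ : Finset (U × U))), Finset.mul_sum]
  apply Finset.sum_le_sum
  intro t ht
  have ht1 : 1 ≤ t := (mem_Icc.mp ht).1
  have h5 := h t ht1
  rw [Finset.card_filter, Finset.card_filter] at h5
  simpa using h5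

end layer

section cons

variable {n : ℕ}

lemma cons_false_b0' : (Fin.cons false (b0 : Fin n → Bool) : Fin (n + 1) → Bool) = b0 := by
  funext i
  refine Fin.cases ?_ (fun j => ?_) i <;> simp [b0]

lemma cons_true_b0' : (Fin.cons true (b0 : Fin n → Bool) : Fin (n + 1) → Bool) = bE 0 := by
  funext i
  refine Fin.cases ?_ (fun j => ?_) i
  · simp [bE]
  · simp [b0, bE, Fin.succ_ne_zero]

lemma cons_false_bE' (i : Fin n) :
    (Fin.cons false (bE i : Fin n → Bool) : Fin (n + 1) → Bool) = bE i.succ := by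
  funext j
  refine Fin.cases ?_ (fun j => ?_) j
  · simp [bE, (Fin.succ_ne_zero i).symm]
  · simp [bE]

end cons

section step

variable {V : Type} {n : ℕ} (K : CubCx V (n + 1)) (hn : 1 ≤ n)

lemma der_mem {c : Lab V (n + 1)} (hc : c ∈ K.F) : derL c ∈ (K.der hn).F := ⟨c, hc, rfl⟩

lemma derL_b0 (c : Lab V (n + 1)) : derL c b0 = (c b0, c (bE 0)) := by
  simp only [derL, cons_false_b0', cons_true_b0']

lemma der_isVert_iff (p : V × V) : (K.der hn).IsVert p ↔ K.Adj p.1 p.2 := by
  constructor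
  · rintro ⟨_, ⟨c, hc, rfl⟩, h⟩
    rw [derL_b0] at h
    rw [← h]
    exact ⟨c, hc, 0, rfl, rfl⟩
  · intro h
    obtain ⟨c, hc, h1, h2⟩ := K.adj_dir h 0
    refine ⟨derL c, der_mem K hn hc, ?_⟩
    rw [derL_b0, h1, h2]

/-- Consequences of an adjacency in the derived complex. -/
lemma der_adj {x a y b : V} (h : (K.der hn).Adj (x, a) (y, b)) :
    K.Adj x y ∧ a ≠ y ∧ b ≠ x := by
  obtain ⟨_, ⟨c, hc, rfl⟩, i, h1, h2⟩ := h
  rw [derL_b0] at h1
  simp only [derL, cons_false_bE', Prod.mk.injEq] at h1 h2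
  obtain ⟨h1, h3⟩ := h1
  obtain ⟨h2, h4⟩ := h2
  subst h1 h2 h3 h4
  refine ⟨⟨c, hc, i.succ, rfl, rfl⟩, ?_, ?_⟩
  · intro h
    have := congrFun (K.inj c hc h) 0
    simp [bE, (Fin.succ_ne_zero i).symm] at this
  · intro h
    have := congrFun (K.inj c hc h) 0
    simp [b0] at this

/-- Determinacy of squares. -/
lemma der_adj_unique {x a y b b' : V} (h : (K.der hn).Adj (x, a) (y, b))
    (h' : (K.der hn).Adj (x, a) (y, b')) : b = b' := by
  obtain ⟨_, ⟨c, hc, rfl⟩, h1, h2⟩ := (K.der hn).adj_dir h ⟨0, hn⟩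
  obtain ⟨_, ⟨c', hc', rfl⟩, h1', h2'⟩ := (K.der hn).adj_dir h' ⟨0, hn⟩
  rw [derL_b0] at h1 h1'
  simp only [derL, cons_false_bE', Prod.mk.injEq] at h1 h2 h1' h2'
  rw [← h2.2, ← h2'.2]
  apply K.det c hc c' hc' 2
  · rw [h1.1, h1'.1]
  · intro i hi
    rcases Nat.lt_or_ge (i : ℕ) 1 with hi0 | hi1
    · have : i = 0 := by
        apply Fin.ext
        rw [Fin.val_zero]
        omega
      rw [this, h1.2, h1'.2]
    · have : i = (⟨0, hn⟩ : Fin n).succ := by
        apply Fin.ext
        rw [Fin.val_succ]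
        simp only
        omega
      rw [this, h2.1, h2'.1]
  · intro i hi
    refine Fin.cases ?_ (fun j hj => ?_) i hi
    · intro h
      simp at h
    · simp only [Fin.cons_succ, bE, decide_eq_false_iff_not]
      intro h
      subst h
      simp at hj

/-- Goodness of a derived facet: its zone passes through a facet avoiding `X`. -/
def goodD (X : Finset V) (d : Lab (V × V) n) : Prop :=
  ∃ d' ∈ (K.der hn).F, (K.der hn).Sim d d' ∧ ∀ ε, (d' ε).1 ∉ X ∧ (d' ε).2 ∉ X

/-- Goodness of a dart. -/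
def goodP (X : Finset V) (p : V × V) : Prop :=
  ∃ d ∈ (K.der hn).F, d b0 = p ∧ goodD K hn X d

variable {K hn}

lemma goodD_of_sim {X : Finset V} {d d' : Lab (V × V) n} (h : (K.der hn).Sim d d')
    (hg : goodD K hn X d') : goodD K hn X d := by
  obtain ⟨e, he, h1, h2⟩ := hg
  exact ⟨e, he, (K.der hn).sim_trans h h1, h2⟩

lemma goodD_of_goodP {X : Finset V} {d : Lab (V × V) n} (hd : d ∈ (K.der hn).F)
    (h : goodP K hn X (d b0)) : goodD K hn X d := by
  obtain ⟨e, he, h1, h2⟩ := h
  exact goodD_of_sim ((K.der hn).sim_of_base hd he h1.symm) h2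

lemma goodP_of_goodD {X : Finset V} {d : Lab (V × V) n} (hd : d ∈ (K.der hn).F)
    (h : goodD K hn X d) (ε : Fin n → Bool) : goodP K hn X (d ε) := by
  refine ⟨trL d ε, (K.der hn).trL_mem hd ε, trL_b0 d ε, ?_⟩
  exact goodD_of_sim ((K.der hn).sim_symm hd ((K.der hn).trL_sim hd ε)) h

lemma goodP_adj {X : Finset V} {p q : V × V} (h : (K.der hn).Adj p q)
    (hg : goodP K hn X p) : goodP K hn X q := by
  obtain ⟨d, hd, i, rfl, rfl⟩ := h
  exact goodP_of_goodD hd (goodD_of_goodP hd hg) _

lemma goodP_isVert {X : Finset V} {p : V × V} (h : goodP K hn X p) : (K.der hn).IsVert p := by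
  obtain ⟨d, hd, h1, _⟩ := h
  exact ⟨d, hd, h1⟩

lemma goodP_adjK {X : Finset V} {p : V × V} (h : goodP K hn X p) : K.Adj p.1 p.2 :=
  (der_isVert_iff K hn p).mp (goodP_isVert h)

lemma derL_flip_zero (c : Lab V (n + 1)) : derL (flipL c 0) = fun ε => (derL c ε).swap := by
  funext ε
  simp [derL, flipL]

lemma swap_mem {d : Lab (V × V) n} (hd : d ∈ (K.der hn).F) :
    (fun ε => (d ε).swap) ∈ (K.der hn).F := by
  obtain ⟨c, hc, rfl⟩ := hd
  exact ⟨flipL c 0, K.flip c hc 0, derL_flip_zero c⟩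

lemma goodP_swap {X : Finset V} {p : V × V} (h : goodP K hn X p) : goodP K hn X p.swap := by
  obtain ⟨d, hd, h1, d', hd', h2, h3⟩ := h
  refine ⟨fun ε => (d ε).swap, swap_mem hd, by simp only [h1], fun ε => (d' ε).swap, swap_mem hd',
    ?_, fun ε => ⟨(h3 ε).2, (h3 ε).1⟩⟩
  refine Relation.ReflTransGen.lift (fun (d : Lab (V × V) n) => fun ε => (d ε).swap) ?_ _ _ h2
  rintro a b ⟨hb, hab⟩
  refine ⟨swap_mem hb, ?_⟩
  rcases hab with ⟨π, rfl⟩ | ⟨i, rfl⟩ | hab
  · exact Or.inl ⟨π, rfl⟩
  · exact Or.inr (Or.inl ⟨i, rfl⟩)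
  · exact Or.inr (Or.inr (fun ε hε => by
      change (a ε).swap = (b ε).swap
      rw [hab ε hε]))

lemma agree_der {c c' : Lab V (n + 1)} (hn : 1 ≤ n) (h : Agree c c') :
    Agree (derL c) (derL c') := by
  intro ε hε
  have key : ∀ s : Bool, c (Fin.cons s ε) = c' (Fin.cons s ε) := by
    intro s
    apply h
    intro i
    refine Fin.cases ?_ (fun j => ?_) i
    · intro h0
      simp at h0
      omega
    · intro hj
      simp only [Fin.val_succ] at hj
      simpa using hε j (by omega)
  simp only [derL, key]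

/-- There is a good dart at some vertex of `X`. -/
lemma exists_good {X : Finset V} (hn : 1 ≤ n) (hX : ∀ x ∈ X, K.IsVert x) (hF : K.Free X)
    (hne : X.Nonempty) : ∃ x ∈ X, ∃ a, goodP K hn X (x, a) := by
  obtain ⟨x, hx⟩ := hne
  obtain ⟨c, hc, hcx⟩ := hX x hx
  obtain ⟨c', hc', hs, hc'X⟩ := hF c hc
  have key : ∀ c', K.Sim c c' → ((∃ ε, c' ε ∈ X) ∨ ∃ c1 ∈ K.F, ∃ c2, GStep K.F c1 c2 ∧
      (∃ ε, c1 ε ∈ X) ∧ ¬ (∃ ε, c2 ε ∈ X)) := by
    intro c' h
    induction h with
    | refl => exact Or.inl ⟨b0, by rw [hcx]; exact hx⟩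
    | @tail b e hb he ih =>
      rcases ih with ih | ih
      · by_cases h : ∃ ε, e ε ∈ X
        · exact Or.inl h
        · exact Or.inr ⟨b, K.sim_mem hc hb, e, he, ih, h⟩
      · exact Or.inr ih
  rcases key c' hs with h | ⟨c1, hc1, c2, h12, ⟨ε, h1⟩, h2⟩
  · obtain ⟨ε, h⟩ := h
    exact absurd h (hc'X ε)
  · push Not at h2
    obtain ⟨hc2, h12⟩ := h12
    rcases h12 with ⟨π, rfl⟩ | ⟨i, rfl⟩ | h12
    · exfalso
      apply h2 (fun i => ε (π.symm i))
      simpa [permL] using h1
    · exfalso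
      have := congrFun (flipL_flipL c1 i) ε
      rw [← this] at h1
      exact h2 _ h1
    · have hg : goodD K hn X (derL c1) := by
        refine ⟨derL c2, der_mem K hn hc2, Relation.ReflTransGen.single
          ⟨der_mem K hn hc2, Or.inr (Or.inr (agree_der hn h12))⟩, fun η => ⟨h2 _, h2 _⟩⟩
      have hg' := goodP_of_goodD (der_mem K hn hc1) hg (Fin.tail ε)
      cases hε : ε 0 with
      | false =>
        refine ⟨c1 ε, h1, c1 (Fin.cons true (Fin.tail ε)), ?_⟩
        convert hg' using 1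
        simp only [derL, Prod.mk.injEq, and_true]
        rw [← hε, Fin.cons_self_tail]
      | true =>
        refine ⟨c1 ε, h1, c1 (Fin.cons false (Fin.tail ε)), ?_⟩
        convert goodP_swap hg' using 1
        simp only [derL, Prod.swap_prod_mk, Prod.mk.injEq, and_true]
        rw [← hε, Fin.cons_self_tail]

end step

section count

open Classical in
/-- The good darts at `x`. -/
noncomputable def goodA {V : Type} {n : ℕ} [Fintype V] (K : CubCx V (n + 1)) (hn : 1 ≤ n)
    (X : Finset V) (x : V) : Finset V :=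
  univ.filter (fun a => goodP K hn X (x, a))

open Classical in
/-- The (scaled) weights of the good darts. -/
noncomputable def mu {V : Type} {n : ℕ} [Fintype V] (K : CubCx V (n + 1)) (hn : 1 ≤ n)
    (X : Finset V) (p : V × V) : ℕ :=
  if p.1 ∈ X ∧ p.2 ∈ goodA K hn X p.1 then (Fintype.card V).factorial / (goodA K hn X p.1).card
  else 0

variable {V : Type} {n : ℕ} [Fintype V] {K : CubCx V (n + 1)} {hn : 1 ≤ n} {X : Finset V}

lemma mem_goodA {x a : V} : a ∈ goodA K hn X x ↔ goodP K hn X (x, a) := by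
  simp [goodA]

lemma goodP_of_mu {p : V × V} (h : mu K hn X p ≠ 0) : goodP K hn X p := by
  unfold mu at h
  split_ifs at h with h1
  · exact mem_goodA.mp h1.2
  · exact absurd rfl h

lemma memX_of_mu {p : V × V} (h : mu K hn X p ≠ 0) : p.1 ∈ X := by
  unfold mu at h
  split_ifs at h with h1
  · exact h1.1
  · exact absurd rfl h

lemma mu_le (p : V × V) : mu K hn X p ≤ (Fintype.card V).factorial := by
  unfold mu
  split_ifs
  · exact Nat.div_le_self _ _
  · exact Nat.zero_le _

lemma card_mul_mu {p : V × V} :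
    (goodA K hn X p.1).card * mu K hn X p ≤ (Fintype.card V).factorial := by
  unfold mu
  split_ifs
  · exact Nat.mul_div_le _ _
  · simp

lemma sum_mu (x : V) (hx : x ∈ X) (hne : (goodA K hn X x).Nonempty) :
    ∑ a, mu K hn X (x, a) = (Fintype.card V).factorial := by
  classical
  have h1 : ∀ a, mu K hn X (x, a) = if a ∈ goodA K hn X x then
      (Fintype.card V).factorial / (goodA K hn X x).card else 0 := by
    intro a
    simp [mu, hx]
  rw [Finset.sum_congr rfl (fun a _ => h1 a), Finset.sum_ite_mem, Finset.univ_inter,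
    Finset.sum_const, smul_eq_mul]
  apply Nat.mul_div_cancel'
  exact Nat.dvd_factorial (Finset.card_pos.mpr hne) (Finset.card_le_univ _)

open Classical in
/-- Claim 2: the cost of a dart. -/
lemma cost_le (x y : V) :
    2 * (∑ q : V × V, if (K.der hn).Adj (x, q.1) (y, q.2) then
      max (mu K hn X (x, q.1)) (mu K hn X (y, q.2)) else 0) + mu K hn X (x, y) + mu K hn X (y, x) ≤
      2 * (Fintype.card V).factorial := by
  set L := (Fintype.card V).factorial with hL
  set T : Finset (V × V) := univ.filter (fun q : V × V => (K.der hn).Adj (x, q.1) (y, q.2) ∧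
    max (mu K hn X (x, q.1)) (mu K hn X (y, q.2)) ≠ 0) with hT
  -- the value
  set vx : ℕ := if x ∈ X then L / (goodA K hn X x).card else 0 with hvx
  set vy : ℕ := if y ∈ X then L / (goodA K hn X y).card else 0 with hvy
  have hgood : ∀ q ∈ T, goodP K hn X (x, q.1) ∧ goodP K hn X (y, q.2) := by
    intro q hq
    rw [hT, mem_filter] at hq
    obtain ⟨_, hadj, hne⟩ := hq
    by_cases h1 : mu K hn X (x, q.1) = 0
    · have h2 : mu K hn X (y, q.2) ≠ 0 := by
        intro h2
        rw [h1, h2] at hne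
        exact hne rfl
      have h3 := goodP_of_mu h2
      exact ⟨goodP_adj ((K.der hn).adj_symm hadj) h3, h3⟩
    · have h3 := goodP_of_mu h1
      exact ⟨h3, goodP_adj hadj h3⟩
  have hval : ∀ q ∈ T, max (mu K hn X (x, q.1)) (mu K hn X (y, q.2)) = max vx vy := by
    intro q hq
    obtain ⟨h1, h2⟩ := hgood q hq
    have h3 : mu K hn X (x, q.1) = vx := by
      simp only [mu, hvx, mem_goodA.mpr h1, and_true, hL]
    have h4 : mu K hn X (y, q.2) = vy := by
      simp only [mu, hvy, mem_goodA.mpr h2, and_true, hL]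
    rw [h3, h4]
  have hsum : (∑ q : V × V, if (K.der hn).Adj (x, q.1) (y, q.2) then
      max (mu K hn X (x, q.1)) (mu K hn X (y, q.2)) else 0) = T.card * max vx vy := by
    rw [← Finset.sum_filter, ← smul_eq_mul, ← Finset.sum_const, ← Finset.sum_congr rfl hval]
    symm
    apply Finset.sum_subset
    · intro q hq
      rw [hT, mem_filter] at hq
      exact mem_filter.mpr ⟨mem_univ _, hq.2.1⟩
    · intro q hq hqT
      rw [mem_filter] at hq
      by_contra hne
      exact hqT (by rw [hT, mem_filter]; exact ⟨mem_univ _, hq.2, hne⟩)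
  have hinj1 : Set.InjOn Prod.fst (T : Set (V × V)) := by
    rintro ⟨a, b⟩ hq ⟨a', b'⟩ hq' (h : a = a')
    subst h
    have h1 := (mem_filter.mp (Finset.mem_coe.mp hq)).2.1
    have h2 := (mem_filter.mp (Finset.mem_coe.mp hq')).2.1
    exact Prod.ext rfl (der_adj_unique K hn h1 h2)
  have hinj2 : Set.InjOn Prod.snd (T : Set (V × V)) := by
    rintro ⟨a, b⟩ hq ⟨a', b'⟩ hq' (h : b = b')
    subst h
    have h1 := (mem_filter.mp (Finset.mem_coe.mp hq)).2.1
    have h2 := (mem_filter.mp (Finset.mem_coe.mp hq')).2.1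
    exact Prod.ext (der_adj_unique K hn ((K.der hn).adj_symm h1) ((K.der hn).adj_symm h2)) rfl
  have hcx : T.card ≤ ((goodA K hn X x).erase y).card := by
    rw [← Finset.card_image_of_injOn hinj1]
    apply Finset.card_le_card
    intro a ha
    obtain ⟨q, hq, rfl⟩ := mem_image.mp ha
    refine mem_erase.mpr ⟨?_, mem_goodA.mpr (hgood q hq).1⟩
    exact (der_adj K hn (mem_filter.mp hq).2.1).2.1
  have hcy : T.card ≤ ((goodA K hn X y).erase x).card := by
    rw [← Finset.card_image_of_injOn hinj2]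
    apply Finset.card_le_card
    intro a ha
    obtain ⟨q, hq, rfl⟩ := mem_image.mp ha
    refine mem_erase.mpr ⟨?_, mem_goodA.mpr (hgood q hq).2⟩
    exact (der_adj K hn (mem_filter.mp hq).2.1).2.2
  have hvxL : (goodA K hn X x).card * vx ≤ L := by
    rw [hvx]
    split_ifs
    · exact Nat.mul_div_le _ _
    · simp
  have hvyL : (goodA K hn X y).card * vy ≤ L := by
    rw [hvy]
    split_ifs
    · exact Nat.mul_div_le _ _
    · simp
  rw [hsum]
  by_cases hw : goodP K hn X (x, y)
  · have hw' : goodP K hn X (y, x) := goodP_swap hw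
    have hx1 := Finset.card_erase_of_mem (mem_goodA.mpr hw)
    have hy1 := Finset.card_erase_of_mem (mem_goodA.mpr hw')
    have hx2 := Finset.card_pos.mpr ⟨y, mem_goodA.mpr hw⟩
    have hy2 := Finset.card_pos.mpr ⟨x, mem_goodA.mpr hw'⟩
    have h3 : mu K hn X (x, y) = vx := by
      simp only [mu, hvx, mem_goodA.mpr hw, and_true, hL]
    have h4 : mu K hn X (y, x) = vy := by
      simp only [mu, hvy, mem_goodA.mpr hw', and_true, hL]
    rw [h3, h4]
    have h5 : (T.card + 1) * max vx vy ≤ L := by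
      rcases le_total vx vy with h | h
      · rw [max_eq_right h]
        exact le_trans (Nat.mul_le_mul_right _ (by omega)) hvyL
      · rw [max_eq_left h]
        exact le_trans (Nat.mul_le_mul_right _ (by omega)) hvxL
    have h6 : vx ≤ max vx vy := le_max_left _ _
    have h7 : vy ≤ max vx vy := le_max_right _ _
    nlinarith
  · have hw' : ¬ goodP K hn X (y, x) := fun h => hw (goodP_swap h)
    have h3 : mu K hn X (x, y) = 0 := by
      by_contra h
      exact hw (goodP_of_mu h)
    have h4 : mu K hn X (y, x) = 0 := by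
      by_contra h
      exact hw' (goodP_of_mu h)
    rw [h3, h4]
    have hx1 : ((goodA K hn X x).erase y).card ≤ (goodA K hn X x).card := Finset.card_erase_le
    have hy1 : ((goodA K hn X y).erase x).card ≤ (goodA K hn X y).card := Finset.card_erase_le
    have h5 : T.card * max vx vy ≤ L := by
      rcases le_total vx vy with h | h
      · rw [max_eq_right h]
        exact le_trans (Nat.mul_le_mul_right _ (by omega)) hvyL
      · rw [max_eq_left h]
        exact le_trans (Nat.mul_le_mul_right _ (by omega)) hvxL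
    omega

open Classical in
lemma cost_zero (x y : V) (h : ¬ (K.Adj x y ∧ (x ∈ X ∨ y ∈ X) ∧
      (x ∈ X → (goodA K hn X x).Nonempty) ∧ (y ∈ X → (goodA K hn X y).Nonempty))) :
    (∑ q : V × V, if (K.der hn).Adj (x, q.1) (y, q.2) then
      max (mu K hn X (x, q.1)) (mu K hn X (y, q.2)) else 0) = 0 ∧
      mu K hn X (x, y) = 0 ∧ mu K hn X (y, x) = 0 := by
  have key : ∀ a b : V, (K.der hn).Adj (x, a) (y, b) → mu K hn X (x, a) = 0 ∧ mu K hn X (y, b) = 0 := by
    intro a b hadj
    by_contra hcon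
    apply h
    have hg : goodP K hn X (x, a) ∧ goodP K hn X (y, b) := by
      by_cases h1 : mu K hn X (x, a) = 0
      · have h2 : mu K hn X (y, b) ≠ 0 := fun h2 => hcon ⟨h1, h2⟩
        have h3 := goodP_of_mu h2
        exact ⟨goodP_adj ((K.der hn).adj_symm hadj) h3, h3⟩
      · have h3 := goodP_of_mu h1
        exact ⟨h3, goodP_adj hadj h3⟩
    refine ⟨(der_adj K hn hadj).1, ?_, fun _ => ⟨a, mem_goodA.mpr hg.1⟩,
      fun _ => ⟨b, mem_goodA.mpr hg.2⟩⟩
    by_cases h1 : mu K hn X (x, a) = 0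
    · exact Or.inr (memX_of_mu (fun h2 => hcon ⟨h1, h2⟩))
    · exact Or.inl (memX_of_mu h1)
  have key2 : ∀ z w : V, mu K hn X (z, w) ≠ 0 → K.Adj z w ∧ z ∈ X ∧
      (goodA K hn X z).Nonempty ∧ (goodA K hn X w).Nonempty := by
    intro z w hne
    have hg := goodP_of_mu hne
    exact ⟨goodP_adjK hg, memX_of_mu hne, ⟨w, mem_goodA.mpr hg⟩, ⟨z, mem_goodA.mpr (goodP_swap hg)⟩⟩
  refine ⟨?_, ?_, ?_⟩
  · apply Finset.sum_eq_zero
    rintro ⟨a, b⟩ _
    split_ifs with hadj
    · obtain ⟨h1, h2⟩ := key a b hadj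
      simp only [h1, h2, max_self]
    · rfl
  · by_contra hne
    obtain ⟨h1, h2, h3, h4⟩ := key2 x y hne
    exact h ⟨h1, Or.inl h2, fun _ => h3, fun _ => h4⟩
  · by_contra hne
    obtain ⟨h1, h2, h3, h4⟩ := key2 y x hne
    exact h ⟨K.adj_symm h1, Or.inr h2, fun _ => h4, fun _ => h3⟩

open Classical in
/-- The counting step. -/
lemma count_step (ih : PIneq n) :
    (n + 3) * (X.filter (fun x => (goodA K hn X x).Nonempty)).card ≤
      ((univ : Finset (V × V)).filter (fun p => K.Adj p.1 p.2 ∧ (p.1 ∈ X ∨ p.2 ∈ X) ∧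
      (p.1 ∈ X → (goodA K hn X p.1).Nonempty) ∧ (p.2 ∈ X → (goodA K hn X p.2).Nonempty))).card := by
  set L := (Fintype.card V).factorial with hL
  have hLpos : 0 < L := Nat.factorial_pos _
  set D0 := (univ : Finset (V × V)).filter (fun p => K.Adj p.1 p.2 ∧ (p.1 ∈ X ∨ p.2 ∈ X) ∧
      (p.1 ∈ X → (goodA K hn X p.1).Nonempty) ∧ (p.2 ∈ X → (goodA K hn X p.2).Nonempty)) with hD0
  -- total weight
  have hmu : ∑ p, mu K hn X p = L * (X.filter (fun x => (goodA K hn X x).Nonempty)).card := by
    rw [Fintype.sum_prod_type]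
    have h1 : ∀ x, ∑ a, mu K hn X (x, a) =
        if x ∈ X.filter (fun x => (goodA K hn X x).Nonempty) then L else 0 := by
      intro x
      split_ifs with hx
      · rw [mem_filter] at hx
        exact sum_mu x hx.1 hx.2
      · apply Finset.sum_eq_zero
        intro a _
        by_contra hne
        exact hx (mem_filter.mpr ⟨memX_of_mu hne, ⟨a, mem_goodA.mpr (goodP_of_mu hne)⟩⟩)
    rw [Finset.sum_congr rfl (fun x _ => h1 x), Finset.sum_ite_mem, Finset.univ_inter,
      Finset.sum_const, smul_eq_mul, mul_comm]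
  -- layer cake
  have hlayer := layer_cake (K.der hn).Adj (n + 2) L (mu K hn X) mu_le (by
    intro t ht
    have h1 := ih (V × V) (K.der hn) (univ.filter (fun p => t ≤ mu K hn X p)) (by
      intro p hp
      rw [mem_filter] at hp
      exact goodP_isVert (goodP_of_mu (X := X) (by omega))) (by
      intro d hd
      by_cases hg : goodD K hn X d
      · obtain ⟨d', hd', h1, h2⟩ := hg
        refine ⟨d', hd', h1, fun ε hε => ?_⟩
        rw [mem_filter] at hε
        exact (h2 ε).1 (memX_of_mu (K := K) (hn := hn) (by omega))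
      · refine ⟨d, hd, Relation.ReflTransGen.refl, fun ε hε => ?_⟩
        rw [mem_filter] at hε
        have h3 : goodP K hn X (d ε) := goodP_of_mu (by omega)
        apply hg
        have h4 := (K.der hn).trL_mem hd ε
        have h5 : goodD K hn X (trL d ε) := goodD_of_goodP h4 (by rw [trL_b0]; exact h3)
        exact goodD_of_sim ((K.der hn).trL_sim hd ε) h5)
    convert h1 using 2
    unfold CubCx.inc
    congr 1)
  rw [hmu] at hlayer
  -- regrouping
  have hregroup : (∑ p : (V × V) × (V × V), if (K.der hn).Adj p.1 p.2 then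
      max (mu K hn X p.1) (mu K hn X p.2) else 0) =
      ∑ w : V × V, ∑ q : V × V, if (K.der hn).Adj (w.1, q.1) (w.2, q.2) then
      max (mu K hn X (w.1, q.1)) (mu K hn X (w.2, q.2)) else 0 := by
    rw [← Fintype.sum_prod_type']
    apply Fintype.sum_equiv (Equiv.prodProdProdComm V V V V)
    rintro ⟨⟨a, b⟩, ⟨c, d⟩⟩
    rfl
  rw [hregroup] at hlayer
  have hswap : ∑ w : V × V, mu K hn X (w.2, w.1) = ∑ w, mu K hn X w := by
    apply Fintype.sum_equiv (Equiv.prodComm V V)
    rintro ⟨a, b⟩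
    rfl
  have htot : ∑ w : V × V, (2 * (∑ q : V × V, if (K.der hn).Adj (w.1, q.1) (w.2, q.2) then
      max (mu K hn X (w.1, q.1)) (mu K hn X (w.2, q.2)) else 0) + mu K hn X w +
      mu K hn X (w.2, w.1)) ≤ ∑ w : V × V, if w ∈ D0 then 2 * L else 0 := by
    apply Finset.sum_le_sum
    rintro ⟨x, y⟩ _
    split_ifs with hw
    · exact cost_le x y
    · have h1 := cost_zero (K := K) (hn := hn) (X := X) x y (by
        intro h
        exact hw (by rw [hD0, mem_filter]; exact ⟨mem_univ _, h⟩))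
      simp only [h1.1, h1.2.1, h1.2.2]
      simp
  rw [Finset.sum_add_distrib, Finset.sum_add_distrib, ← Finset.mul_sum, hswap, hmu,
    Finset.sum_ite_mem, Finset.univ_inter, Finset.sum_const, smul_eq_mul] at htot
  have h2 : L * ((n + 3) * (X.filter (fun x => (goodA K hn X x).Nonempty)).card) ≤ L * D0.card := by
    nlinarith
  exact Nat.le_of_mul_le_mul_left h2 hLpos

end count

/-- Induction step (zones with fractional weights). -/
theorem PIneq_step (n : ℕ) (hn : 2 ≤ n) (ih : PIneq n) : PIneq (n + 1) := by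
  classical
  intro V _ K X hX hF
  have hn1 : 1 ≤ n := by omega
  induction hcard : X.card using Nat.strong_induction_on generalizing X with
  | _ m IH =>
    subst hcard
    rcases X.eq_empty_or_nonempty with rfl | hne
    · simp
    set X0 := X.filter (fun x => (goodA K hn1 X x).Nonempty) with hX0
    set X1 := X.filter (fun x => ¬ (goodA K hn1 X x).Nonempty) with hX1
    have hX0ne : X0.Nonempty := by
      obtain ⟨x, hx, a, hg⟩ := exists_good hn1 hX hF hne
      exact ⟨x, mem_filter.mpr ⟨hx, ⟨a, mem_goodA.mpr hg⟩⟩⟩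
    have hsum : X0.card + X1.card = X.card := Finset.card_filter_add_card_filter_not _
    have hX1sub : X1 ⊆ X := Finset.filter_subset _ _
    have h1 := IH X1.card (by have := hX0ne.card_pos; omega) X1 (fun x hx => hX x (hX1sub hx))
      (by
        intro c hc
        obtain ⟨c', hc', h1, h2⟩ := hF c hc
        exact ⟨c', hc', h1, fun ε h => h2 ε (hX1sub h)⟩) rfl
    have h2 := count_step (K := K) (hn := hn1) (X := X) ih
    set D0 := (univ : Finset (V × V)).filter (fun p => K.Adj p.1 p.2 ∧ (p.1 ∈ X ∨ p.2 ∈ X) ∧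
      (p.1 ∈ X → (goodA K hn1 X p.1).Nonempty) ∧ (p.2 ∈ X → (goodA K hn1 X p.2).Nonempty)) with hD0
    have hdisj : Disjoint D0 (K.inc X1) := by
      rw [Finset.disjoint_left]
      intro p hp hp'
      rw [hD0, mem_filter] at hp
      unfold CubCx.inc at hp'
      rw [mem_filter] at hp'
      rcases hp'.2.2 with h | h
      · rw [hX1, mem_filter] at h
        exact h.2 (hp.2.2.2.1 h.1)
      · rw [hX1, mem_filter] at h
        exact h.2 (hp.2.2.2.2 h.1)
    have hsub : D0 ∪ K.inc X1 ⊆ K.inc X := by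
      intro p hp
      unfold CubCx.inc
      rw [mem_filter]
      rcases mem_union.mp hp with h | h
      · rw [hD0, mem_filter] at h
        exact ⟨mem_univ _, h.2.1, h.2.2.1⟩
      · unfold CubCx.inc at h
        rw [mem_filter] at h
        exact ⟨mem_univ _, h.2.1, h.2.2.imp (fun h => hX1sub h) (fun h => hX1sub h)⟩
    have h3 := Finset.card_le_card hsub
    rw [Finset.card_union_of_disjoint hdisj] at h3
    rw [← hsum, mul_add]
    have e : n + 1 + 2 = n + 3 := by ring
    rw [e] at h1 ⊢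
    rw [← hX0] at h2
    omega

end Pool.Agent.CubLBC
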