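import Pool.Agent.CubLBC.CLink
import Pool.Agent.CubLBC.Step
import Pool.Agent.CubLBC.PTwo
import Pool.Agent.CubLBC.SLbt
import Pool.Agent.CubLBC.Moves

set_option autoImplicit false

namespace Pool.Agent.CubLBC

open Finset

variable {V : Type} {n : ℕ}

theorem PIneq_all (n : ℕ) (hn : 2 ≤ n) : PIneq n := by
  induction n, hn using Nat.le_induction with
  | base =>
    intro V _ K X hX hF
    exact P2 K X hX hF
  | succ n hn ih => exact PIneq_step n hn ih

open Classical in
/-- Darts inject into the `1`-frames. -/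
lemma darts_le_frames [Fintype V] (hn : 1 ≤ n) (K : CubCx V n) :
    (Finset.univ.filter (fun p : V × V => K.Adj p.1 p.2)).card ≤ (K.frames 1).card := by
  apply Finset.card_le_card_of_injOn (fun p : V × V => ((p.1, fun _ => p.2) : V × (Fin 1 → V)))
  · intro p hp
    simp only [Finset.coe_filter, Finset.mem_univ, true_and, Set.mem_ofPred_eq] at hp
    simp only [CubCx.frames, Finset.coe_filter, Finset.mem_univ, true_and, Set.mem_ofPred_eq]
    obtain ⟨c, hc, h1, h2⟩ := K.adj_dir hp ⟨0, hn⟩
    refine ⟨c, hc, h1, fun i h => ?_⟩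
    have hi : i = 0 := Subsingleton.elim _ _
    subst hi
    exact h2.symm
  · intro p _ q _ h
    simp only [Prod.mk.injEq] at h
    exact Prod.ext h.1 (congrFun h.2 0)

open Classical in
/-- The number of darts inside a facet is `n 2^n`. -/
lemma facet_darts [Fintype V] (K : CubCx V n) {c : Lab V n} (hc : c ∈ K.F) :
    n * 2 ^ n ≤ (Finset.univ.filter (fun p : V × V => K.Adj p.1 p.2 ∧
      p.1 ∈ Finset.univ.image c ∧ p.2 ∈ Finset.univ.image c)).card := by
  have hcard : (Finset.univ : Finset ((Fin n → Bool) × Fin n)).card = n * 2 ^ n := by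
    simp [mul_comm]
  rw [← hcard]
  apply Finset.card_le_card_of_injOn
    (fun q : (Fin n → Bool) × Fin n => (c q.1, c (Function.update q.1 q.2 (!(q.1 q.2)))))
  · intro q _
    simp only [Finset.coe_filter, Finset.mem_univ, true_and, Set.mem_ofPred_eq, Finset.mem_image]
    exact ⟨K.adj_of hc q.1 q.2, ⟨q.1, rfl⟩, ⟨_, rfl⟩⟩
  · rintro ⟨ε, i⟩ _ ⟨η, j⟩ _ h
    simp only [Prod.mk.injEq] at h
    have h1 : ε = η := K.inj c hc h.1
    subst h1
    have h2 := K.inj c hc h.2
    have h3 : i = j := by
      by_contra hij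
      have := congrFun h2 i
      rw [Function.update_self, Function.update_of_ne hij] at this
      cases hε : ε i <;> simp [hε] at this
    rw [h3]

/-- The edge case of the cubical lower bound conjecture (in terms of darts). -/
theorem cub_edges [Fintype V] (hn : 2 ≤ n) (K : CubCx V n) (hv : ∀ x, K.IsVert x)
    (hconn : ∀ c ∈ K.F, ∀ c' ∈ K.F, K.Sim c c') (hne : K.F.Nonempty) :
    ((n : ℝ) + 2) * (Fintype.card V : ℝ) - 2 ^ (n + 1) ≤ ((K.frames 1).card : ℝ) := by
  classical
  obtain ⟨c, hc⟩ := hne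
  set C : Finset V := Finset.univ.image c with hC
  have hCcard : C.card = 2 ^ n := by
    rw [hC, Finset.card_image_of_injective _ (K.inj c hc)]
    simp
  set X : Finset V := Cᶜ with hX
  have hXcard : X.card + 2 ^ n = Fintype.card V := by
    rw [hX, ← hCcard, add_comm]
    exact Finset.card_add_card_compl C
  have h1 : (n + 2) * X.card ≤ (K.inc X).card := by
    refine PIneq_all n hn V K X (fun x _ => hv x) ?_
    intro c' hc'
    refine ⟨c, hc, hconn c' hc' c hc, fun ε => ?_⟩
    simp [hX, hC]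
  have h2 : (K.inc X).card + n * 2 ^ n ≤
      (Finset.univ.filter (fun p : V × V => K.Adj p.1 p.2)).card := by
    have hd : Disjoint (K.inc X) (Finset.univ.filter (fun p : V × V => K.Adj p.1 p.2 ∧
        p.1 ∈ Finset.univ.image c ∧ p.2 ∈ Finset.univ.image c)) := by
      rw [Finset.disjoint_left]
      intro p hp hq
      simp only [CubCx.inc, Finset.mem_filter, Finset.mem_univ, true_and] at hp
      simp only [Finset.mem_filter, Finset.mem_univ, true_and] at hq
      rcases hp.2 with h | h
      · rw [hX, Finset.mem_compl] at h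
        exact h hq.2.1
      · rw [hX, Finset.mem_compl] at h
        exact h hq.2.2
    calc (K.inc X).card + n * 2 ^ n ≤ (K.inc X).card +
          (Finset.univ.filter (fun p : V × V => K.Adj p.1 p.2 ∧
            p.1 ∈ Finset.univ.image c ∧ p.2 ∈ Finset.univ.image c)).card :=
          Nat.add_le_add_left (facet_darts K hc) _
      _ = ((K.inc X) ∪ (Finset.univ.filter (fun p : V × V => K.Adj p.1 p.2 ∧
            p.1 ∈ Finset.univ.image c ∧ p.2 ∈ Finset.univ.image c))).card :=
          (Finset.card_union_of_disjoint hd).symm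
      _ ≤ _ := by
          apply Finset.card_le_card
          intro p hp
          rw [Finset.mem_union] at hp
          simp only [Finset.mem_filter, Finset.mem_univ, true_and]
          rcases hp with hp | hp
          · simp only [CubCx.inc, Finset.mem_filter, Finset.mem_univ, true_and] at hp
            exact hp.1
          · simp only [Finset.mem_filter, Finset.mem_univ, true_and] at hp
            exact hp.1
  have h3 := darts_le_frames (by omega : 1 ≤ n) K
  have h4 : (n + 2) * X.card + n * 2 ^ n ≤ (K.frames 1).card := by omega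
  have h5 : ((n : ℝ) + 2) * (X.card : ℝ) + n * 2 ^ n ≤ ((K.frames 1).card : ℝ) := by
    exact_mod_cast h4
  have h6 : (X.card : ℝ) = (Fintype.card V : ℝ) - 2 ^ n := by
    have : ((X.card + 2 ^ n : ℕ) : ℝ) = (Fintype.card V : ℝ) := by exact_mod_cast hXcard
    push_cast at this
    linarith
  rw [h6] at h5
  have h7 : (2 : ℝ) ^ (n + 1) = 2 * 2 ^ n := by ring
  rw [h7]
  nlinarith [h5]

lemma link_nonempty (K : CubCx V n) {x : V} (hx : K.IsVert x) : (K.link x).T.Nonempty := by
  obtain ⟨c, hc, h⟩ := hx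
  exact ⟨fun i => c (bE i), c, hc, h, fun _ => rfl⟩

/-- The face case, `1 ≤ k ≤ n - 1`. -/
theorem cub_faces [Fintype V] (hn : 2 ≤ n) (K : CubCx V n) (hv : ∀ x, K.IsVert x)
    (hconn : ∀ c ∈ K.F, ∀ c' ∈ K.F, K.Sim c c') (hne : K.F.Nonempty) (k : ℕ) (hk : 1 ≤ k)
    (hkn : k + 1 ≤ n) :
    (k.factorial : ℝ) * (((Nat.choose (n + 1) k : ℝ) + (Nat.choose n (k - 1) : ℝ)) *
      (Fintype.card V : ℝ) - (Nat.choose n (k - 1) : ℝ) * 2 ^ (n + 1)) ≤
      ((K.frames k).card : ℝ) := by
  have hE := cub_edges hn K hv hconn hne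
  have e1 : ((K.frames 1).card : ℝ) = ∑ x : V, (((K.link x).tup 1).card : ℝ) := by
    rw [frames_eq K 1 (by omega)]
    push_cast
    rfl
  have ek : ((K.frames k).card : ℝ) = ∑ x : V, (((K.link x).tup k).card : ℝ) := by
    rw [frames_eq K k (by omega)]
    push_cast
    rfl
  have hsum : ∑ x : V, ((k.factorial : ℝ) * ((Nat.choose n (k - 1) : ℝ) *
      (((K.link x).tup 1).card : ℝ) - ((k : ℝ) - 1) * (Nat.choose (n + 1) k : ℝ))) ≤
      ∑ x : V, (((K.link x).tup k).card : ℝ) :=
    Finset.sum_le_sum fun x _ => lbt_faces n k hk hkn (K.link x) (link_nonempty K (hv x))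
  rw [← ek, ← Finset.mul_sum, Finset.sum_sub_distrib, ← Finset.mul_sum, ← e1, Finset.sum_const,
    nsmul_eq_mul] at hsum
  refine le_trans ?_ hsum
  apply mul_le_mul_of_nonneg_left _ (Nat.cast_nonneg _)
  have hch : ((n : ℝ) + 1) * (Nat.choose n (k - 1) : ℝ) = (k : ℝ) * (Nat.choose (n + 1) k : ℝ) := by
    obtain ⟨j, rfl⟩ : ∃ j, k = j + 1 := ⟨k - 1, by omega⟩
    have := Nat.add_one_mul_choose_eq n j
    simp only [Nat.add_sub_cancel]
    have h2 : ((n + 1 : ℕ) : ℝ) * (Nat.choose n j : ℝ) =
        (Nat.choose (n + 1) (j + 1) : ℝ) * ((j + 1 : ℕ) : ℝ) := by exact_mod_cast this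
    push_cast at h2 ⊢
    linarith
  have hcc : (0 : ℝ) ≤ (Nat.choose n (k - 1) : ℝ) := Nat.cast_nonneg _
  have h3 := mul_le_mul_of_nonneg_left hE hcc
  have hcard : ((Finset.univ : Finset V).card : ℝ) = (Fintype.card V : ℝ) := by
    simp
  rw [hcard]
  have h4 : ((n : ℝ) + 1) * (Nat.choose n (k - 1) : ℝ) * (Fintype.card V : ℝ) =
      (k : ℝ) * (Nat.choose (n + 1) k : ℝ) * (Fintype.card V : ℝ) := by rw [hch]
  linarith [h3, h4]

open Classical in
/-- In dimension one every vertex has two neighbours. -/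
lemma frames_one_ge [Fintype V] (K : CubCx V 1) (hv : ∀ x, K.IsVert x) :
    2 * Fintype.card V ≤ (K.frames 1).card := by
  choose c hc hx using hv
  have hr := fun x => K.ridge (c x) (hc x)
  choose c' hc' hne hag _ using hr
  have hx' : ∀ x, c' x b0 = x := by
    intro x
    rw [← hag x b0 (fun _ _ => rfl), hx x]
  have hd : ∀ x, c x (bE 0) ≠ c' x (bE 0) := by
    intro x h
    apply hne x
    funext ε
    rcases Bool.eq_false_or_eq_true (ε 0) with h1 | h1
    · have : ε = bE 0 := by
        funext i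
        have hi : i = 0 := Subsingleton.elim _ _
        subst hi
        simp [bE, h1]
      rw [this, h]
    · have : ε = b0 := by
        funext i
        have hi : i = 0 := Subsingleton.elim _ _
        subst hi
        simp [b0, h1]
      rw [this, hx, hx']
  have hcard : (Finset.univ : Finset (V × Bool)).card = 2 * Fintype.card V := by
    simp [mul_comm]
  rw [← hcard]
  apply Finset.card_le_card_of_injOn (fun q : V × Bool =>
    ((q.1, fun _ => if q.2 then c q.1 (bE 0) else c' q.1 (bE 0)) : V × (Fin 1 → V)))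
  · rintro ⟨x, b⟩ _
    simp only [CubCx.frames, Finset.coe_filter, Finset.mem_univ, true_and, Set.mem_ofPred_eq]
    cases b
    · refine ⟨c' x, hc' x, hx' x, fun i h => ?_⟩
      have hi : i = 0 := Subsingleton.elim _ _
      subst hi
      simp
    · refine ⟨c x, hc x, hx x, fun i h => ?_⟩
      have hi : i = 0 := Subsingleton.elim _ _
      subst hi
      simp
  · rintro ⟨x, b⟩ _ ⟨y, b'⟩ _ h
    simp only [Prod.mk.injEq] at h
    obtain ⟨h1, h2⟩ := h
    subst h1
    have h3 := congrFun h2 0
    cases b <;> cases b' <;> simp at h3 ⊢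
    · exact hd x h3.symm
    · exact hd x h3

/-- The facet case. -/
theorem cub_facets [Fintype V] (hn : 1 ≤ n) (K : CubCx V n) (hv : ∀ x, K.IsVert x)
    (hconn : ∀ c ∈ K.F, ∀ c' ∈ K.F, K.Sim c c') (hne : K.F.Nonempty) :
    (n.factorial : ℝ) * (2 * (n : ℝ) * (Fintype.card V : ℝ) - ((n : ℝ) - 1) * 2 ^ (n + 1)) ≤
      ((K.frames n).card : ℝ) := by
  rcases Nat.lt_or_ge 1 n with hn2 | hn1
  · have hn2' : 2 ≤ n := hn2
    have hE := cub_edges hn2' K hv hconn hne
    have e1 : ((K.frames 1).card : ℝ) = ∑ x : V, (((K.link x).tup 1).card : ℝ) := by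
      rw [frames_eq K 1 (by omega)]
      push_cast
      rfl
    have ek : ((K.frames n).card : ℝ) = ∑ x : V, (((K.link x).tup n).card : ℝ) := by
      rw [frames_eq K n le_rfl]
      push_cast
      rfl
    have hsum : ∑ x : V, ((n.factorial : ℝ) * (((n : ℝ) - 1) *
        (((K.link x).tup 1).card : ℝ) - ((n : ℝ) + 1) * ((n : ℝ) - 2))) ≤
        ∑ x : V, (((K.link x).tup n).card : ℝ) :=
      Finset.sum_le_sum fun x _ => lbt_facets n hn2' (K.link x) (link_nonempty K (hv x))
    rw [← ek, ← Finset.mul_sum, Finset.sum_sub_distrib, ← Finset.mul_sum, ← e1, Finset.sum_const,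
      nsmul_eq_mul] at hsum
    refine le_trans ?_ hsum
    apply mul_le_mul_of_nonneg_left _ (Nat.cast_nonneg _)
    have hn0 : (0 : ℝ) ≤ (n : ℝ) - 1 := by
      have : (1 : ℝ) ≤ (n : ℝ) := by exact_mod_cast hn
      linarith
    have h3 := mul_le_mul_of_nonneg_left hE hn0
    have hcard : ((Finset.univ : Finset V).card : ℝ) = (Fintype.card V : ℝ) := by
      simp
    rw [hcard]
    nlinarith [h3]
  · have : n = 1 := by omega
    subst this
    have := frames_one_ge K hv
    have h2 : (2 : ℝ) * (Fintype.card V : ℝ) ≤ ((K.frames 1).card : ℝ) := by exact_mod_cast this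
    simp
    linarith

end Pool.Agent.CubLBC
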