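import Pool.Agent.CubLBC.Defs

set_option autoImplicit false

namespace Pool.Agent.CubLBC

open Finset

variable {V : Type} {n : ℕ}

/-- The neighbours of the base vertex of a labelled cube. -/
def nbL (c : Lab V n) : Fin n → V := fun i => c (bE i)

lemma bE_inj {i j : Fin n} (h : bE i = bE j) : i = j := by
  have := congrFun h i
  simp only [bE, decide_true] at this
  exact (decide_eq_true_eq.mp this.symm)

lemma nbL_permL (c : Lab V n) (π : Equiv.Perm (Fin n)) :
    nbL (permL c π) = nbL c ∘ (π.symm : Equiv.Perm (Fin n)) := by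
  funext i
  simp only [nbL, permL, Function.comp]
  congr 1
  funext j
  simp only [bE, decide_eq_decide]
  constructor
  · intro h
    rw [← h]
    simp
  · rintro rfl
    simp

lemma permL_b0 (c : Lab V n) (π : Equiv.Perm (Fin n)) : permL c π b0 = c b0 := rfl

lemma agree_b0 {c c' : Lab V n} (h : Agree c c') : c b0 = c' b0 := h b0 (fun _ _ => rfl)

lemma agreeS_nbL {c c' : Lab V n} (h : Agree c c') : AgreeS (nbL c) (nbL c') := by
  intro i hi
  apply h
  intro j hj
  simp only [bE, decide_eq_false_iff_not]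
  rintro rfl
  exact hi hj

lemma nbL_inj (K : CubCx V n) {c c' : Lab V n} (hc : c ∈ K.F) (hc' : c' ∈ K.F)
    (h0 : c b0 = c' b0) (h : nbL c = nbL c') : c = c' := by
  funext ε
  refine K.det c hc c' hc' n h0 (fun i _ => congrFun h i) ε ?_
  intro i hi
  exact absurd i.2 (by omega)

lemma agree_of_agreeS (K : CubCx V n) {c c' : Lab V n} (hc : c ∈ K.F) (hc' : c' ∈ K.F)
    (h0 : c b0 = c' b0) (h : AgreeS (nbL c) (nbL c')) : Agree c c' := by
  intro ε hε
  refine K.det c hc c' hc' (n - 1) h0 (fun i hi => h i (by omega)) ε ?_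
  intro i hi
  apply hε
  have := i.2
  omega

lemma link_steps (K : CubCx V n) (x : V) (k : ℕ) {c c' : Lab V n} (hc : c b0 = x)
    (h : Relation.ReflTransGen (LStep K.F k) c c') :
    c' b0 = x ∧ Relation.ReflTransGen
      (SStep {b : Fin n → V | ∃ c ∈ K.F, c b0 = x ∧ ∀ i, b i = c (bE i)} k) (nbL c) (nbL c') := by
  induction h with
  | refl => exact ⟨hc, Relation.ReflTransGen.refl⟩
  | @tail d e _ hde ih =>
    obtain ⟨hd0, hd⟩ := ih
    obtain ⟨heF, hor⟩ := hde
    have he0 : e b0 = x := by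
      rcases hor with ⟨π, _, rfl⟩ | hag
      · exact hd0
      · rw [← agree_b0 hag, hd0]
    refine ⟨he0, hd.tail ⟨⟨e, heF, he0, fun _ => rfl⟩, ?_⟩⟩
    rcases hor with ⟨π, hπ, rfl⟩ | hag
    · left
      refine ⟨π.symm, ?_, nbL_permL d π⟩
      intro i hi
      rw [Equiv.symm_apply_eq]
      exact (hπ i hi).symm
    · right
      exact agreeS_nbL hag

/-- The link of a vertex of a cubical complex. -/
def CubCx.link (K : CubCx V n) (x : V) : SimpCx V n where
  T := {b | ∃ c ∈ K.F, c b0 = x ∧ ∀ i, b i = c (bE i)}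
  perm := by
    rintro b ⟨c, hc, hx, hb⟩ π
    refine ⟨permL c π.symm, K.perm c hc _, hx, fun i => ?_⟩
    have h := congrFun (nbL_permL c π.symm) i
    simp only [nbL, Function.comp, Equiv.symm_symm] at h
    rw [h]
    exact hb _
  inj := by
    rintro b ⟨c, hc, hx, hb⟩ i j hij
    rw [hb, hb] at hij
    exact bE_inj (K.inj c hc hij)
  ridge := by
    rintro b ⟨c, hc, hx, hb⟩
    have hbc : b = nbL c := funext hb
    subst hbc
    obtain ⟨c', hc', hne, hag, huniq⟩ := K.ridge c hc
    refine ⟨nbL c', ⟨c', hc', by rw [← agree_b0 hag, hx], fun _ => rfl⟩, ?_, agreeS_nbL hag, ?_⟩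
    · intro h
      exact hne (nbL_inj K hc' hc (agree_b0 hag).symm h)
    · rintro b'' ⟨c'', hc'', hx'', hb''⟩ hag''
      have hbc'' : b'' = nbL c'' := funext hb''
      subst hbc''
      rcases huniq c'' hc'' (agree_of_agreeS K hc hc'' (by rw [hx, hx'']) hag'') with h | h
      · left; rw [h]
      · right; rw [h]
  conn := by
    rintro k b ⟨c, hc, hx, hb⟩ b' ⟨c', hc', hx', hb'⟩ h
    have hbc : b = nbL c := funext hb
    have hbc' : b' = nbL c' := funext hb'
    subst hbc
    subst hbc'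
    exact (link_steps K x k hx (K.conn k c hc c' hc' (by rw [hx, hx']) h)).2

theorem frames_eq [Fintype V] (K : CubCx V n) (k : ℕ) (hk : k ≤ n) :
    (K.frames k).card = ∑ x : V, ((K.link x).tup k).card := by
  classical
  rw [Finset.card_eq_sum_card_fiberwise (f := fun p : V × (Fin k → V) => p.1) (t := Finset.univ)
    (by intro p _; simp)]
  refine Finset.sum_congr rfl (fun x _ => ?_)
  refine Finset.card_bij (fun p _ => p.2) ?_ ?_ ?_
  · intro p hp
    simp only [CubCx.frames, SimpCx.tup, Finset.mem_filter, Finset.mem_univ, true_and] at hp ⊢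
    obtain ⟨⟨c, hc, h0, h⟩, rfl⟩ := hp
    exact ⟨nbL c, ⟨c, hc, h0, fun _ => rfl⟩, h⟩
  · intro p hp q hq hpq
    simp only [Finset.mem_filter] at hp hq
    exact Prod.ext (hp.2.trans hq.2.symm) hpq
  · intro q hq
    simp only [SimpCx.tup, Finset.mem_filter, Finset.mem_univ, true_and] at hq
    obtain ⟨b, ⟨c, hc, hx, hb⟩, hqb⟩ := hq
    refine ⟨(x, q), ?_, rfl⟩
    simp only [CubCx.frames, Finset.mem_filter, Finset.mem_univ, true_and, and_true]
    refine ⟨c, hc, hx, fun i h => ?_⟩
    rw [hqb i h, hb]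

end Pool.Agent.CubLBC
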