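import Mathlib

set_option autoImplicit false

/-!
Abstract cubical and simplicial complexes given by their labelled facets
(for the cubical lower bound conjecture).
-/

namespace Pool.Agent.CubLBC

open Finset

/-- A labelled `n`-cube in `V`. -/
abbrev Lab (V : Type) (n : ℕ) := (Fin n → Bool) → V

/-- The origin of the cube. -/
def b0 {n : ℕ} : Fin n → Bool := fun _ => false

/-- The `i`-th unit vector of the cube. -/
def bE {n : ℕ} (i : Fin n) : Fin n → Bool := fun j => decide (j = i)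

/-- Permuting the coordinates of a labelled cube. -/
def permL {V : Type} {n : ℕ} (c : Lab V n) (π : Equiv.Perm (Fin n)) : Lab V n :=
  fun ε => c (fun i => ε (π i))

/-- Flipping the `i`-th coordinate of a labelled cube. -/
def flipL {V : Type} {n : ℕ} (c : Lab V n) (i : Fin n) : Lab V n :=
  fun ε => c (Function.update ε i (!(ε i)))

/-- Two labelled cubes agree on the ridge where the last coordinate is 0. -/
def Agree {V : Type} {n : ℕ} (c c' : Lab V n) : Prop :=
  ∀ ε : Fin n → Bool, (∀ i : Fin n, (i : ℕ) + 1 = n → ε i = false) → c ε = c' ε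

/-- A link step fixing the first `k` directions: a permutation fixing them, or a ridge move. -/
def LStep {V : Type} {n : ℕ} (F : Set (Lab V n)) (k : ℕ) (c c' : Lab V n) : Prop :=
  c' ∈ F ∧ ((∃ π : Equiv.Perm (Fin n), (∀ i : Fin n, (i : ℕ) < k → π i = i) ∧ c' = permL c π) ∨
    Agree c c')

/-- A general step: a permutation, a flip, or a ridge move. -/
def GStep {V : Type} {n : ℕ} (F : Set (Lab V n)) (c c' : Lab V n) : Prop :=
  c' ∈ F ∧ ((∃ π : Equiv.Perm (Fin n), c' = permL c π) ∨ (∃ i, c' = flipL c i) ∨ Agree c c')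

/-- A (normal) cubical `n`-dimensional pseudomanifold on the vertex type `V`, given by the set of
its labelled facets. -/
structure CubCx (V : Type) (n : ℕ) where
  F : Set (Lab V n)
  perm : ∀ c ∈ F, ∀ π : Equiv.Perm (Fin n), permL c π ∈ F
  flip : ∀ c ∈ F, ∀ i, flipL c i ∈ F
  inj : ∀ c ∈ F, Function.Injective c
  det : ∀ c ∈ F, ∀ c' ∈ F, ∀ k : ℕ, c b0 = c' b0 →
    (∀ i : Fin n, (i : ℕ) < k → c (bE i) = c' (bE i)) →
    ∀ ε : Fin n → Bool, (∀ i : Fin n, k ≤ (i : ℕ) → ε i = false) → c ε = c' ε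
  ridge : ∀ c ∈ F, ∃ c' ∈ F, c' ≠ c ∧ Agree c c' ∧ ∀ c'' ∈ F, Agree c c'' → c'' = c ∨ c'' = c'
  conn : ∀ k : ℕ, ∀ c ∈ F, ∀ c' ∈ F, c b0 = c' b0 →
    (∀ i : Fin n, (i : ℕ) < k → c (bE i) = c' (bE i)) →
    Relation.ReflTransGen (LStep F k) c c'

namespace CubCx

variable {V : Type} {n : ℕ}

/-- `x` is a vertex of the complex. -/
def IsVert (K : CubCx V n) (x : V) : Prop := ∃ c ∈ K.F, c b0 = x

/-- `x` and `y` are joined by an edge of the complex. -/
def Adj (K : CubCx V n) (x y : V) : Prop := ∃ c ∈ K.F, ∃ i, c b0 = x ∧ c (bE i) = y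

/-- Strong connectivity of facets. -/
def Sim (K : CubCx V n) (c c' : Lab V n) : Prop := Relation.ReflTransGen (GStep K.F) c c'

/-- Every strong component has a facet disjoint from `X`. -/
def Free (K : CubCx V n) (X : Finset V) : Prop :=
  ∀ c ∈ K.F, ∃ c' ∈ K.F, K.Sim c c' ∧ ∀ ε, c' ε ∉ X

open Classical in
/-- The darts (oriented edges) which meet `X`. -/
noncomputable def inc [Fintype V] (K : CubCx V n) (X : Finset V) : Finset (V × V) :=
  Finset.univ.filter (fun p => K.Adj p.1 p.2 ∧ (p.1 ∈ X ∨ p.2 ∈ X))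

open Classical in
/-- The `k`-frames: a vertex together with an ordered `k`-tuple of neighbours spanning a `k`-face. -/
noncomputable def frames [Fintype V] (K : CubCx V n) (k : ℕ) : Finset (V × (Fin k → V)) :=
  Finset.univ.filter (fun p => ∃ c ∈ K.F, c b0 = p.1 ∧
    ∀ i : Fin k, ∀ h : (i : ℕ) < n, p.2 i = c (bE ⟨i, h⟩))

end CubCx

/-! ### Simplicial complexes -/

/-- Two labelled simplices agree except possibly at the last entry. -/
def AgreeS {W : Type} {m : ℕ} (b b' : Fin m → W) : Prop :=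
  ∀ i : Fin m, (i : ℕ) + 1 ≠ m → b i = b' i

/-- Step fixing the first `k` entries. -/
def SStep {W : Type} {m : ℕ} (T : Set (Fin m → W)) (k : ℕ) (b b' : Fin m → W) : Prop :=
  b' ∈ T ∧ ((∃ π : Equiv.Perm (Fin m), (∀ i : Fin m, (i : ℕ) < k → π i = i) ∧ b' = b ∘ π) ∨
    AgreeS b b')

/-- A strongly connected normal simplicial pseudomanifold of dimension `m - 1` given by its labelled
facets. -/
structure SimpCx (W : Type) (m : ℕ) where
  T : Set (Fin m → W)
  perm : ∀ b ∈ T, ∀ π : Equiv.Perm (Fin m), b ∘ π ∈ T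
  inj : ∀ b ∈ T, Function.Injective b
  ridge : ∀ b ∈ T, ∃ b' ∈ T, b' ≠ b ∧ AgreeS b b' ∧ ∀ b'' ∈ T, AgreeS b b'' → b'' = b ∨ b'' = b'
  conn : ∀ k : ℕ, ∀ b ∈ T, ∀ b' ∈ T, (∀ i : Fin m, (i : ℕ) < k → b i = b' i) →
    Relation.ReflTransGen (SStep T k) b b'

namespace SimpCx

variable {W : Type} {m : ℕ}

open Classical in
/-- The ordered `k`-tuples forming a face. -/
noncomputable def tup [Fintype W] (S : SimpCx W m) (k : ℕ) : Finset (Fin k → W) :=
  Finset.univ.filter (fun p => ∃ b ∈ S.T, ∀ i : Fin k, ∀ h : (i : ℕ) < m, p i = b ⟨i, h⟩)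

/-- `x` is a vertex. -/
def IsVert (S : SimpCx W m) (x : W) : Prop := ∃ b ∈ S.T, ∃ i, b i = x

/-- `x` and `y` are different vertices of a common facet. -/
def Adj (S : SimpCx W m) (x y : W) : Prop := x ≠ y ∧ ∃ b ∈ S.T, (∃ i, b i = x) ∧ ∃ j, b j = y

open Classical in
/-- The darts (oriented edges) which meet `X`. -/
noncomputable def inc [Fintype W] (S : SimpCx W m) (X : Finset W) : Finset (W × W) :=
  Finset.univ.filter (fun p => S.Adj p.1 p.2 ∧ (p.1 ∈ X ∨ p.2 ∈ X))

end SimpCx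

end Pool.Agent.CubLBC
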