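import Pool.Agent.CubLBC.Defs

set_option autoImplicit false

namespace Pool.Agent.CubLBC

open Finset

variable {V : Type} {n : ℕ}

/-- The derived labelled cube: its vertices are the edges of `c` in direction `0`. -/
def derL (c : Lab V (n + 1)) : Lab (V × V) n :=
  fun ε => (c (Fin.cons false ε), c (Fin.cons true ε))

/-- Extension of a permutation of `Fin n` to `Fin (n + 1)` fixing `0`. -/
def extP (π : Equiv.Perm (Fin n)) : Equiv.Perm (Fin (n + 1)) :=
  Equiv.Perm.decomposeFin.symm (0, π)

lemma extP_zero (π : Equiv.Perm (Fin n)) : extP π 0 = 0 := by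
  simp [extP]

lemma extP_succ (π : Equiv.Perm (Fin n)) (i : Fin n) : extP π i.succ = (π i).succ := by
  simp [extP, Equiv.Perm.decomposeFin_symm_apply_succ]

lemma permL_derL (c : Lab V (n + 1)) (π : Equiv.Perm (Fin n)) :
    permL (derL c) π = derL (permL c (extP π)) := by
  have key : ∀ (b : Bool) (ε : Fin n → Bool),
      (Fin.cons b (fun i => ε (π i)) : Fin (n + 1) → Bool) =
        fun i => (Fin.cons b ε : Fin (n + 1) → Bool) (extP π i) := by
    intro b ε
    funext i
    refine Fin.cases ?_ (fun j => ?_) i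
    · rw [extP_zero]; simp
    · rw [extP_succ]; simp
  funext ε
  simp only [permL, derL, key]

lemma flipL_derL (c : Lab V (n + 1)) (i : Fin n) :
    flipL (derL c) i = derL (flipL c i.succ) := by
  have key : ∀ (b : Bool) (ε : Fin n → Bool),
      (Fin.cons b (Function.update ε i (!(ε i))) : Fin (n + 1) → Bool) =
        Function.update (Fin.cons b ε : Fin (n + 1) → Bool) i.succ
          (!((Fin.cons b ε : Fin (n + 1) → Bool) i.succ)) := by
    intro b ε
    rw [Fin.cons_succ, Fin.cons_update]
  funext ε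
  simp only [flipL, derL, key]

lemma derL_apply_cons {c c' : Lab V (n + 1)} {ε : Fin n → Bool} (h : derL c ε = derL c' ε)
    (b : Bool) : c (Fin.cons b ε) = c' (Fin.cons b ε) := by
  cases b
  · exact congrArg Prod.fst h
  · exact congrArg Prod.snd h

lemma derL_injective : Function.Injective (derL : Lab V (n + 1) → Lab (V × V) n) := by
  intro c c' h
  funext ε
  have := derL_apply_cons (congrFun h (Fin.tail ε)) (ε 0)
  rwa [Fin.cons_self_tail] at this

lemma cons_false_b0 : (Fin.cons false (b0 : Fin n → Bool) : Fin (n + 1) → Bool) = b0 := by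
  funext i
  refine Fin.cases ?_ (fun j => ?_) i <;> simp [b0]

lemma cons_true_b0 : (Fin.cons true (b0 : Fin n → Bool) : Fin (n + 1) → Bool) = bE 0 := by
  funext i
  refine Fin.cases ?_ (fun j => ?_) i <;> simp [b0, bE]

lemma cons_false_bE (i : Fin n) :
    (Fin.cons false (bE i) : Fin (n + 1) → Bool) = bE i.succ := by
  funext j
  refine Fin.cases ?_ (fun l => ?_) j
  · simp [bE, Fin.ext_iff]
  · simp [bE]

lemma derL_hyp {c c' : Lab V (n + 1)} {k : ℕ} (h0 : derL c b0 = derL c' b0)
    (h1 : ∀ i : Fin n, (i : ℕ) < k → derL c (bE i) = derL c' (bE i)) :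
    c b0 = c' b0 ∧ ∀ i : Fin (n + 1), (i : ℕ) < k + 1 → c (bE i) = c' (bE i) := by
  refine ⟨?_, fun i => ?_⟩
  · have := derL_apply_cons h0 false
    rwa [cons_false_b0] at this
  · refine Fin.cases (fun _ => ?_) (fun j hj => ?_) i
    · have := derL_apply_cons h0 true
      rwa [cons_true_b0] at this
    · have := derL_apply_cons (h1 j (by simpa using hj)) false
      rwa [cons_false_bE] at this

lemma agree_derL (hn : 1 ≤ n) {c c' : Lab V (n + 1)} :
    Agree (derL c) (derL c') ↔ Agree c c' := by
  constructor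
  · intro h ε hε
    have h1 := h (Fin.tail ε) (fun i hi => by
      refine hε i.succ ?_
      simp; omega)
    have := derL_apply_cons h1 (ε 0)
    rwa [Fin.cons_self_tail] at this
  · intro h ε hε
    have key : ∀ b : Bool, c (Fin.cons b ε) = c' (Fin.cons b ε) := by
      intro b
      refine h _ (fun i => ?_)
      refine Fin.cases (fun h0 => ?_) (fun j hj => ?_) i
      · simp at h0; omega
      · rw [Fin.cons_succ]
        refine hε j ?_
        simp at hj; omega
    simp only [derL, key]

lemma lstep_derL (hn : 1 ≤ n) {F : Set (Lab V (n + 1))} {k : ℕ} {c c' : Lab V (n + 1)}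
    (h : LStep F (k + 1) c c') : LStep (derL '' F) k (derL c) (derL c') := by
  obtain ⟨hc', h⟩ := h
  refine ⟨⟨c', hc', rfl⟩, ?_⟩
  rcases h with ⟨π, hπ, rfl⟩ | h
  · left
    have h0 : π 0 = 0 := hπ 0 (by simp)
    obtain ⟨⟨p, σ⟩, rfl⟩ := Equiv.Perm.decomposeFin.symm.surjective π
    have hp : p = 0 := by simpa using h0
    subst hp
    refine ⟨σ, fun i hi => ?_, (permL_derL c σ).symm⟩
    have := hπ i.succ (by simpa using hi)
    have h2 := extP_succ σ i
    rw [extP] at h2
    rw [h2] at this
    exact Fin.succ_injective _ this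
  · right
    exact (agree_derL hn).2 h

/-- The derived complex (all zones, both sides). -/
def CubCx.der (K : CubCx V (n + 1)) (hn : 1 ≤ n) : CubCx (V × V) n where
  F := derL '' K.F
  perm := by
    rintro _ ⟨c, hc, rfl⟩ π
    rw [permL_derL]
    exact ⟨_, K.perm c hc _, rfl⟩
  flip := by
    rintro _ ⟨c, hc, rfl⟩ i
    rw [flipL_derL]
    exact ⟨_, K.flip c hc _, rfl⟩
  inj := by
    rintro _ ⟨c, hc, rfl⟩ ε ε' h
    have h1 : c (Fin.cons false ε) = c (Fin.cons false ε') := congrArg Prod.fst h
    exact (Fin.cons_injective2 (K.inj c hc h1)).2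
  det := by
    rintro _ ⟨c, hc, rfl⟩ _ ⟨c', hc', rfl⟩ k h0 h1 ε hε
    obtain ⟨g0, g1⟩ := derL_hyp h0 h1
    have key : ∀ b : Bool, c (Fin.cons b ε) = c' (Fin.cons b ε) := by
      intro b
      refine K.det c hc c' hc' (k + 1) g0 g1 _ (fun i => ?_)
      refine Fin.cases (fun h => ?_) (fun j hj => ?_) i
      · simp at h
      · rw [Fin.cons_succ]
        exact hε j (by simpa using hj)
    simp only [derL, key]
  ridge := by
    rintro _ ⟨c, hc, rfl⟩
    obtain ⟨c', hc', hne, hag, huniq⟩ := K.ridge c hc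
    refine ⟨derL c', ⟨c', hc', rfl⟩, fun h => hne (derL_injective h), (agree_derL hn).2 hag, ?_⟩
    rintro _ ⟨c'', hc'', rfl⟩ h
    rcases huniq c'' hc'' ((agree_derL hn).1 h) with h | h
    · exact Or.inl (by rw [h])
    · exact Or.inr (by rw [h])
  conn := by
    rintro k _ ⟨c, hc, rfl⟩ _ ⟨c', hc', rfl⟩ h0 h1
    obtain ⟨g0, g1⟩ := derL_hyp h0 h1
    have := K.conn (k + 1) c hc c' hc' g0 g1
    exact Relation.ReflTransGen.lift derL (fun a b h => lstep_derL hn h) _ _ this

end Pool.Agent.CubLBC
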