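import Pool.Agent.Cubical.ExposedConn

set_option autoImplicit false

namespace Pool.Agent.CubLBC

open Finset

/-- The exposure graph of a finite set of functionals, each of which is uniquely exposed, is
connected. -/
theorem exposed_conn {E : Type} [NormedAddCommGroup E] [NormedSpace ℝ E] [FiniteDimensional ℝ E]
    {ι : Type} (g : ι → E →ₗ[ℝ] ℝ) (S : Finset ι)
    (hexp : ∀ i ∈ S, ∃ z, ∀ j ∈ S, j ≠ i → g j z < g i z) (i j : ι) (hi : i ∈ S) (hj : j ∈ S) :
    Relation.ReflTransGen (fun p q => q ∈ S ∧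
      ∃ z, g p z = g q z ∧ ∀ l ∈ S, l ≠ p → l ≠ q → g l z < g p z) i j := by
  refine Relation.ReflTransGen.mono ?_ _ _
    (Pool.Agent.Cubical.exposed_connected g S hexp i j hi hj)
  rintro p q ⟨_, hq, _, z, h1, h2⟩
  exact ⟨hq, z, h1, h2⟩

end Pool.Agent.CubLBC
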