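import Pool.Agent.CubLBC.FaceDefs

set_option autoImplicit false

namespace Pool.Agent.CubLBC

open Finset

variable {V : Type} {n : ℕ} {Face : Set (Set V)} {B B' : Set V} {c c' : Lab V n}

theorem IsLab.perm (h : IsLab Face n B c) (π : Equiv.Perm (Fin n)) :
    IsLab Face n B (permL c π) := by
  obtain ⟨h1, h2, h3, h4⟩ := h
  have hfun : ∀ (S : Finset (Fin n)) (a : Fin n → Bool) (ε : Fin n → Bool),
      (∀ s ∈ S, ε (π s) = a s) ↔ ∀ s ∈ S.map π.toEmbedding, ε s = a (π.symm s) := by
    intro S a ε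
    constructor
    · intro h s hs
      obtain ⟨t, ht, rfl⟩ := Finset.mem_map.mp hs
      simpa using h t ht
    · intro h s hs
      have := h (π s) (Finset.mem_map.mpr ⟨s, hs, rfl⟩)
      simpa using this
  refine ⟨?_, ?_, ?_, ?_⟩
  · intro ε η hεη
    have := h1 hεη
    funext i
    have h5 := congrFun this (π.symm i)
    simpa using h5
  · rw [← h2]
    ext v
    constructor
    · rintro ⟨ε, rfl⟩
      exact ⟨_, rfl⟩
    · rintro ⟨ε, rfl⟩
      refine ⟨fun i => ε (π.symm i), ?_⟩
      simp [permL]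
  · intro A hA hAB
    obtain ⟨S, a, hS⟩ := h3 A hA hAB
    refine ⟨S.map π.toEmbedding, fun s => a (π.symm s), fun ε => ?_⟩
    rw [← hfun]
    exact hS _
  · intro S a
    obtain ⟨A, hA, hAB, hS⟩ := h4 (S.map π.symm.toEmbedding) (fun s => a (π s))
    refine ⟨A, hA, hAB, fun ε => ?_⟩
    have h5 := hS (fun i => ε (π i))
    rw [hfun] at h5
    change c (fun i => ε (π i)) ∈ A ↔ _
    rw [h5]
    constructor
    · intro h s hs
      have := h s (by
        rw [Finset.mem_map]
        exact ⟨π.symm s, Finset.mem_map.mpr ⟨s, hs, rfl⟩, by simp⟩)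
      simpa using this
    · intro h s hs
      obtain ⟨t, ht, rfl⟩ := Finset.mem_map.mp hs
      obtain ⟨u, hu, rfl⟩ := Finset.mem_map.mp ht
      simpa using h u hu

theorem IsLab.flip (h : IsLab Face n B c) (i : Fin n) : IsLab Face n B (flipL c i) := by
  obtain ⟨h1, h2, h3, h4⟩ := h
  have hinv : ∀ ε : Fin n → Bool, Function.update (Function.update ε i (!(ε i))) i
      (!((Function.update ε i (!(ε i))) i)) = ε := by
    intro ε
    simp
  have hfun : ∀ (S : Finset (Fin n)) (a : Fin n → Bool) (ε : Fin n → Bool),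
      (∀ s ∈ S, (Function.update ε i (!(ε i))) s = a s) ↔
      ∀ s ∈ S, ε s = (Function.update a i (!(a i))) s := by
    intro S a ε
    refine forall₂_congr (fun s _ => ?_)
    by_cases hs : s = i
    · subst hs
      simp only [Function.update_self]
      cases ε s <;> cases a s <;> simp
    · simp only [Function.update_of_ne hs]
  refine ⟨?_, ?_, ?_, ?_⟩
  · intro ε η hεη
    have := h1 hεη
    rw [← hinv ε, ← hinv η, this]
  · rw [← h2]
    ext v
    constructor
    · rintro ⟨ε, rfl⟩
      exact ⟨_, rfl⟩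
    · rintro ⟨ε, rfl⟩
      refine ⟨Function.update ε i (!(ε i)), ?_⟩
      simp only [flipL]
      rw [hinv]
  · intro A hA hAB
    obtain ⟨S, a, hS⟩ := h3 A hA hAB
    refine ⟨S, Function.update a i (!(a i)), fun ε => ?_⟩
    rw [← hfun]
    exact hS _
  · intro S a
    obtain ⟨A, hA, hAB, hS⟩ := h4 S (Function.update a i (!(a i)))
    refine ⟨A, hA, hAB, fun ε => ?_⟩
    change c (Function.update ε i (!(ε i))) ∈ A ↔ _
    rw [hS, hfun]
    simp

/-- The vertex set of the subcube spanned by `S` at the corner. -/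
def span0 (c : Lab V n) (S : Finset (Fin n)) : Set V := {v | ∃ ε : Fin n → Bool, (∀ i, i ∉ S → ε i = false) ∧ c ε = v}

/-- `span0 c S` is the smallest face containing the corner and its neighbours in the directions of `S`. -/
lemma span0_subset (hinter : ∀ A ∈ Face, ∀ B ∈ Face, (A ∩ B).Nonempty → A ∩ B ∈ Face)
    (hB : B ∈ Face) (h : IsLab Face n B c) (S : Finset (Fin n)) (A : Set V) (hA : A ∈ Face)
    (h0 : c b0 ∈ A) (hE : ∀ i ∈ S, c (bE i) ∈ A) : span0 c S ⊆ A := by
  obtain ⟨h1, h2, h3, h4⟩ := h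
  have hcB : ∀ ε, c ε ∈ B := fun ε => h2 ▸ ⟨ε, rfl⟩
  have hAB : A ∩ B ∈ Face := hinter A hA B hB ⟨c b0, h0, hcB _⟩
  obtain ⟨T, a, hT⟩ := h3 _ hAB Set.inter_subset_right
  have ha : ∀ s ∈ T, a s = false := by
    intro s hs
    have := (hT b0).mp ⟨h0, hcB _⟩ s hs
    exact this.symm
  have hTS : ∀ s ∈ T, s ∉ S := by
    intro s hs hsS
    have := (hT (bE s)).mp ⟨hE s hsS, hcB _⟩ s hs
    rw [ha s hs] at this
    simp [bE] at this
  rintro v ⟨ε, hε, rfl⟩
  have : c ε ∈ A ∩ B := by
    rw [hT]
    intro s hs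
    rw [ha s hs]
    exact hε s (hTS s hs)
  exact this.1

lemma span0_face (h : IsLab Face n B c) (S : Finset (Fin n)) : span0 c S ∈ Face := by
  obtain ⟨h1, h2, h3, h4⟩ := h
  obtain ⟨A, hA, hAB, hS⟩ := h4 Sᶜ (fun _ => false)
  have : span0 c S = A := by
    ext v
    constructor
    · rintro ⟨ε, hε, rfl⟩
      rw [hS]
      intro s hs
      exact hε s (Finset.mem_compl.mp hs)
    · intro hv
      have : v ∈ B := hAB hv
      rw [← h2] at this
      obtain ⟨ε, rfl⟩ := this
      exact ⟨ε, fun i hi => (hS ε).mp hv i (Finset.mem_compl.mpr hi), rfl⟩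
  rw [this]
  exact hA

/-- Determinacy: a labelled face is determined by its corner and the neighbours of the corner. -/
theorem IsLab.det (hinter : ∀ A ∈ Face, ∀ B ∈ Face, (A ∩ B).Nonempty → A ∩ B ∈ Face)
    (hB : B ∈ Face) (hB' : B' ∈ Face)
    (h : IsLab Face n B c) (h' : IsLab Face n B' c') (k : ℕ) (h0 : c b0 = c' b0)
    (hE : ∀ i : Fin n, (i : ℕ) < k → c (bE i) = c' (bE i)) :
    ∀ ε : Fin n → Bool, (∀ i : Fin n, k ≤ (i : ℕ) → ε i = false) → c ε = c' ε := by
  -- equality of spans
  have hbase : ∀ (d : Lab V n) (S : Finset (Fin n)), d b0 ∈ span0 d S := fun d S =>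
    ⟨b0, fun _ _ => rfl, rfl⟩
  have hnb : ∀ (d : Lab V n) (S : Finset (Fin n)), ∀ i ∈ S, d (bE i) ∈ span0 d S := by
    intro d S i hi
    refine ⟨bE i, fun j hj => ?_, rfl⟩
    simp only [bE, decide_eq_false_iff_not]
    rintro rfl
    exact hj hi
  have key : ∀ S : Finset (Fin n), (∀ i ∈ S, (i : ℕ) < k) → span0 c S = span0 c' S := by
    intro S hS
    apply Set.Subset.antisymm
    · apply span0_subset hinter hB h S _ (span0_face h' S)
      · rw [h0]; exact hbase c' S
      · intro i hi
        rw [hE i (hS i hi)]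
        exact hnb c' S i hi
    · apply span0_subset hinter hB' h' S _ (span0_face h S)
      · rw [← h0]; exact hbase c S
      · intro i hi
        rw [← hE i (hS i hi)]
        exact hnb c S i hi
  intro ε hε
  set S : Finset (Fin n) := univ.filter (fun i => ε i = true) with hSdef
  have hS : ∀ i ∈ S, (i : ℕ) < k := by
    intro i hi
    rw [hSdef, mem_filter] at hi
    by_contra hcon
    have := hε i (by omega)
    rw [this] at hi
    simp at hi
  have h1 : c ε ∈ span0 c' S := by
    rw [← key S hS]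
    refine ⟨ε, fun i hi => ?_, rfl⟩
    rw [hSdef, mem_filter] at hi
    simpa using hi
  obtain ⟨η, hη, hηε⟩ := h1
  have h2 : η = ε := by
    funext i
    by_cases hi : i ∈ S
    · have hεi : ε i = true := by
        rw [hSdef, mem_filter] at hi
        exact hi.2
      rw [hεi]
      by_contra hcon
      have hηi : η i = false := by simpa using hcon
      -- then c ε lies in the smaller span
      have h3 : c ε ∈ span0 c' (S.erase i) := by
        refine ⟨η, fun j hj => ?_, hηε⟩
        by_cases hji : j = i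
        · rw [hji]; exact hηi
        · exact hη j (fun h => hj (Finset.mem_erase.mpr ⟨hji, h⟩))
      rw [← key (S.erase i) (fun j hj => hS j (Finset.mem_of_mem_erase hj))] at h3
      obtain ⟨θ, hθ, hθε⟩ := h3
      have h4 := h.1 hθε
      have h5 := hθ i (Finset.notMem_erase i S)
      rw [h4, hεi] at h5
      exact absurd h5 (by simp)
    · rw [hη i hi]
      rw [hSdef, mem_filter] at hi
      have : ¬ ε i = true := fun h => hi ⟨mem_univ _, h⟩
      simpa using this
  rw [← hηε, h2]

end Pool.Agent.CubLBC
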