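import Pool.Agent.CubLBC.FaceA

set_option autoImplicit false

namespace Pool.Agent.CubLBC

open Finset

variable {V ι : Type} {n : ℕ}

/-! ### Elementary facts on the cube -/

theorem card_subcube (S : Finset (Fin n)) (a : Fin n → Bool) :
    Set.ncard {ε : Fin n → Bool | ∀ s ∈ S, ε s = a s} = 2 ^ (n - S.card) := by
  classical
  have h : {ε : Fin n → Bool | ∀ s ∈ S, ε s = a s} =
      ((Fintype.piFinset (fun s => if s ∈ S then {a s} else (univ : Finset Bool)) :
        Finset (Fin n → Bool)) : Set (Fin n → Bool)) := by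
    ext ε
    simp only [Set.mem_ofPred_eq, mem_coe, Fintype.mem_piFinset]
    constructor
    · intro h s
      by_cases hs : s ∈ S
      · simp [hs, h s hs]
      · simp [hs]
    · intro h s hs
      have := h s
      simpa [hs] using this
  rw [h, Set.ncard_coe_finset, Fintype.card_piFinset]
  have h2 : ∀ s : Fin n, (if s ∈ S then ({a s} : Finset Bool) else univ).card =
      if s ∈ S then 1 else 2 := by
    intro s
    split_ifs <;> simp
  simp only [h2]
  rw [Finset.prod_ite, Finset.prod_const_one, one_mul, Finset.prod_const]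
  congr 1
  rw [Finset.filter_not, Finset.card_sdiff_of_subset (Finset.filter_subset _ _)]
  simp

theorem ncard_face {c : Lab V n} (hc : Function.Injective c) {A : Set V}
    (hA : A ⊆ Set.range c) (S : Finset (Fin n)) (a : Fin n → Bool)
    (h : ∀ ε, c ε ∈ A ↔ ∀ s ∈ S, ε s = a s) : A.ncard = 2 ^ (n - S.card) := by
  have h1 : A = c '' {ε : Fin n → Bool | ∀ s ∈ S, ε s = a s} := by
    ext x
    constructor
    · intro hx
      obtain ⟨ε, rfl⟩ := hA hx
      exact ⟨ε, (h ε).1 hx, rfl⟩
    · rintro ⟨ε, hε, rfl⟩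
      exact (h ε).2 hε
  rw [h1, Set.ncard_image_of_injective _ hc, card_subcube]

theorem permL_b0 (c : Lab V n) (π : Equiv.Perm (Fin n)) : permL c π b0 = c b0 := rfl

theorem permL_bE (c : Lab V n) (π : Equiv.Perm (Fin n)) (i : Fin n) :
    permL c π (bE i) = c (bE (π.symm i)) := by
  unfold permL
  congr 1
  funext j
  unfold bE
  congr 1
  apply propext
  constructor
  · intro h
    rw [← h]
    simp
  · intro h
    rw [h]
    simp

theorem bE_self (i : Fin n) : bE i i = true := by simp [bE]

theorem bE_ne {i j : Fin n} (h : j ≠ i) : bE i j = false := by simp [bE, h]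

theorem bE_inj {i j : Fin n} (h : (bE i : Fin n → Bool) = bE j) : i = j := by
  have := congrFun h i
  rw [bE_self] at this
  by_contra hne
  rw [bE_ne hne] at this
  exact Bool.noConfusion this

theorem card_le_fin (S : Finset (Fin n)) : S.card ≤ n := by
  simpa using Finset.card_le_univ S

/-- Two coordinates outside `S` are equal if `S` has at least `n - 1` elements. -/
theorem eq_of_notMem {S : Finset (Fin n)} (hS : n ≤ S.card + 1) {i j : Fin n} (hi : i ∉ S)
    (hj : j ∉ S) : i = j := by
  classical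
  by_contra hne
  have h1 : ({i, j} : Finset (Fin n)) ⊆ Sᶜ := by
    intro x hx
    simp only [mem_insert, mem_singleton] at hx
    rw [mem_compl]
    rcases hx with rfl | rfl
    · exact hi
    · exact hj
  have h2 := Finset.card_le_card h1
  rw [Finset.card_pair hne, Finset.card_compl, Fintype.card_fin] at h2
  omega

theorem two_pow_eq_two {m : ℕ} (h : 2 ^ m = 2) : m = 1 :=
  Nat.pow_right_injective (le_refl 2) (by simpa using h)

section Lab

variable {Face : Set (Set V)} {B B' : Set V} {c c' : Lab V n}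

theorem IsLab.mem (h : IsLab Face n B c) (ε : Fin n → Bool) : c ε ∈ B := by
  rw [← h.2.1]
  exact ⟨ε, rfl⟩

theorem IsLab.ncard (h : IsLab Face n B c) : B.ncard = 2 ^ n := by
  have := ncard_face h.1 (A := B) (by rw [h.2.1]) ∅ b0 (by
    intro ε
    simp [h.mem ε])
  simpa using this

/-- The edge from the corner in direction `i` of a labelled facet is an edge of any other labelled
facet with the same corner which contains it. -/
theorem IsLab.nbr (h : IsLab Face n B c) (h' : IsLab Face n B' c') (h0 : c b0 = c' b0)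
    (i : Fin n) (hi : c (bE i) ∈ B') : ∃ i', c (bE i) = c' (bE i') := by
  classical
  obtain ⟨A, hAF, hAB, hA⟩ := h.2.2.2 (univ.erase i) b0
  have hAr : A ⊆ Set.range c := by rw [h.2.1]; exact hAB
  have hcard : A.ncard = 2 := by
    rw [ncard_face h.1 hAr _ _ hA, Finset.card_erase_of_mem (mem_univ i), Finset.card_univ,
      Fintype.card_fin]
    have : 1 ≤ n := by
      have := i.2
      omega
    have h2 : n - (n - 1) = 1 := by omega
    rw [h2]
    rfl
  have hb0 : c b0 ∈ A := (hA b0).2 (fun s _ => rfl)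
  have hbi : c (bE i) ∈ A := by
    refine (hA _).2 (fun s hs => ?_)
    rw [bE_ne (Finset.ne_of_mem_erase hs)]
    rfl
  have hcase : ∀ ε, c ε ∈ A → ε = b0 ∨ ε = bE i := by
    intro ε hε
    rw [hA] at hε
    cases hεi : ε i with
    | false =>
      left
      funext s
      by_cases hs : s = i
      · rw [hs, hεi]; rfl
      · exact hε s (Finset.mem_erase.2 ⟨hs, mem_univ s⟩)
    | true =>
      right
      funext s
      by_cases hs : s = i
      · rw [hs, hεi, bE_self]
      · rw [bE_ne hs]
        exact hε s (Finset.mem_erase.2 ⟨hs, mem_univ s⟩)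
  have hAB' : A ⊆ B' := by
    intro x hx
    obtain ⟨ε, rfl⟩ := hAr hx
    rcases hcase ε hx with rfl | rfl
    · rw [h0]; exact h'.mem _
    · exact hi
  obtain ⟨S, a, hS⟩ := h'.2.2.1 A hAF hAB'
  have hAr' : A ⊆ Set.range c' := by rw [h'.2.1]; exact hAB'
  have hcard' := ncard_face h'.1 hAr' _ _ hS
  rw [hcard] at hcard'
  have hSc : n - S.card = 1 := two_pow_eq_two hcard'.symm
  have hb0' : c' b0 ∈ A := by rw [← h0]; exact hb0
  have ha : ∀ s ∈ S, a s = false := fun s hs => ((hS b0).1 hb0' s hs).symm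
  obtain ⟨ε', hε'⟩ := hAr' hbi
  have hε'A : c' ε' ∈ A := by rw [hε']; exact hbi
  have hne : ε' ≠ b0 := by
    intro he
    rw [he, ← h0] at hε'
    have := h.1 hε'
    have := congrFun this i
    rw [bE_self] at this
    exact Bool.noConfusion this
  have hex : ∃ i', ε' i' = true := by
    by_contra hcon
    push Not at hcon
    apply hne
    funext s
    have := hcon s
    simpa [b0] using this
  obtain ⟨i', hi'⟩ := hex
  refine ⟨i', ?_⟩
  have hi'S : i' ∉ S := by
    intro hmem
    have := (hS ε').1 hε'A i' hmem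
    rw [ha i' hmem, hi'] at this
    exact Bool.noConfusion this
  have : ε' = bE i' := by
    funext s
    by_cases hs : s = i'
    · rw [hs, hi', bE_self]
    · rw [bE_ne hs]
      have hsS : s ∈ S := by
        by_contra hsS
        exact hs (eq_of_notMem (by omega) hsS hi'S)
      rw [(hS ε').1 hε'A s hsS, ha s hsS]
  rw [← hε', this]

/-- Two labellings of the same facet with the same corner differ by a permutation. -/
theorem IsLab.exists_perm (hinter : ∀ A ∈ Face, ∀ B ∈ Face, (A ∩ B).Nonempty → A ∩ B ∈ Face)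
    (hB : B ∈ Face) (h : IsLab Face n B c) (h' : IsLab Face n B c') (h0 : c b0 = c' b0) :
    ∃ π : Equiv.Perm (Fin n), c' = permL c π ∧ ∀ i, c (bE i) = c' (bE i) → π i = i := by
  classical
  have hex : ∀ i, ∃ i', c' (bE i) = c (bE i') := fun i => h'.nbr h h0.symm i (h'.mem _)
  choose g hg using hex
  have hginj : Function.Injective g := by
    intro i j hij
    have : c' (bE i) = c' (bE j) := by rw [hg i, hg j, hij]
    exact bE_inj (h'.1 this)
  let σ : Equiv.Perm (Fin n) := Equiv.ofBijective g (Finite.injective_iff_bijective.1 hginj)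
  have hσ : ∀ i, σ i = g i := fun i => rfl
  refine ⟨σ.symm, ?_, ?_⟩
  · have hdet := IsLab.det hinter hB hB h' (h.perm σ.symm) n (by rw [permL_b0, h0]) (by
      intro i _
      rw [permL_bE, hg i, Equiv.symm_symm, hσ])
    funext ε
    exact hdet ε (fun i hi => absurd i.2 (by omega))
  · intro i hi
    have h1 : c (bE i) = c (bE (g i)) := by rw [hi, hg i]
    have h2 : i = g i := bE_inj (h.1 h1)
    rw [Equiv.symm_apply_eq, hσ]
    exact h2

/-- Flipping a set of coordinates. -/
def flipT (c : Lab V n) (T : Finset (Fin n)) : Lab V n :=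
  fun ε => c (fun i => if i ∈ T then !(ε i) else ε i)

theorem flipT_empty (c : Lab V n) : flipT c ∅ = c := by
  funext ε
  simp [flipT]

theorem flipT_insert (c : Lab V n) (T : Finset (Fin n)) (a : Fin n) (ha : a ∉ T) :
    flipT c (insert a T) = flipL (flipT c T) a := by
  funext ε
  unfold flipT flipL
  congr 1
  funext i
  by_cases hi : i = a
  · subst hi
    simp [ha]
  · simp [hi, Finset.mem_insert]

theorem IsLab.flipT (h : IsLab Face n B c) (T : Finset (Fin n)) :
    IsLab Face n B (flipT c T) := by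
  classical
  induction T using Finset.induction_on with
  | empty => rw [flipT_empty]; exact h
  | insert a T ha ih => rw [flipT_insert c T a ha]; exact ih.flip a

/-- Normalisation of a facet of the cube: if `s` is a coordinate, a permutation moves it to the last
place and fixes all coordinates `< k`, for `k ≤ s`. -/
theorem IsLab.toLast (hn : 1 ≤ n) (h : IsLab Face n B c) (s : Fin n) (R : Set V)
    (hR : ∀ ε, c ε ∈ R ↔ ε s = false) (k : ℕ) (hk : k ≤ (s : ℕ)) :
    ∃ π : Equiv.Perm (Fin n), (∀ i : Fin n, (i : ℕ) < k → π i = i) ∧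
      IsLab Face n B (permL c π) ∧
      ∀ ε, permL c π ε ∈ R ↔ ∀ i : Fin n, (i : ℕ) + 1 = n → ε i = false := by
  classical
  let l : Fin n := ⟨n - 1, by omega⟩
  refine ⟨Equiv.swap s l, ?_, h.perm _, ?_⟩
  · intro i hi
    apply Equiv.swap_apply_of_ne_of_ne
    · intro he
      rw [he] at hi
      omega
    · intro he
      have : (i : ℕ) = n - 1 := by rw [he]
      have := s.2
      omega
  · intro ε
    unfold permL
    rw [hR]
    rw [Equiv.swap_apply_left]
    constructor
    · intro h i hi
      have : i = l := by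
        apply Fin.ext
        show (i : ℕ) = n - 1
        omega
      rw [this]
      exact h
    · intro h
      exact h l (by show n - 1 + 1 = n; omega)

end Lab

/-- The ridge `last = 0` of a labelled facet is a face. -/
theorem FaceData.ridgeFace (D : FaceData V ι n) (hn : 1 ≤ n) {B : Set V} {c : Lab V n}
    (h : IsLab D.Face n B c) :
    ∃ R ∈ D.Face, R ⊆ B ∧ R.ncard = 2 ^ (n - 1) ∧
      ∀ ε, c ε ∈ R ↔ ∀ i : Fin n, (i : ℕ) + 1 = n → ε i = false := by
  classical
  let l : Fin n := ⟨n - 1, by omega⟩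
  obtain ⟨R, hRF, hRB, hR⟩ := h.2.2.2 {l} b0
  refine ⟨R, hRF, hRB, ?_, ?_⟩
  · have := ncard_face h.1 (by rw [h.2.1]; exact hRB) _ _ hR
    simpa using this
  · intro ε
    rw [hR]
    constructor
    · intro h i hi
      have : i = l := by
        apply Fin.ext
        show (i : ℕ) = n - 1
        omega
      rw [this]
      exact h l (Finset.mem_singleton_self l)
    · intro h s hs
      rw [Finset.mem_singleton] at hs
      rw [hs]
      exact h l (by show n - 1 + 1 = n; omega)

/-- Relabelling a neighbouring facet: if the vertices of the ridge `last = 0` of `c` lie in the facet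
`j`, then `j` has a labelling which agrees with `c` on the ridge. -/
theorem FaceData.relabel [Finite V] (D : FaceData V ι n) (hn : 1 ≤ n) (i : ι) (c : Lab V n)
    (h : IsLab D.Face n (D.fac i) c) (j : ι)
    (hj : ∀ ε : Fin n → Bool, (∀ i : Fin n, (i : ℕ) + 1 = n → ε i = false) → c ε ∈ D.fac j) :
    ∃ c', IsLab D.Face n (D.fac j) c' ∧ Agree c c' := by
  classical
  obtain ⟨R, hRF, hRB, hRc, hR⟩ := D.ridgeFace hn h
  have hRj : R ⊆ D.fac j := by
    intro x hx
    have := hRB hx
    rw [← h.2.1] at this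
    obtain ⟨ε, rfl⟩ := this
    exact hj ε ((hR ε).1 hx)
  obtain ⟨c0, h0⟩ := D.lab j
  obtain ⟨S, a, hS⟩ := h0.2.2.1 R hRF hRj
  have hcard := ncard_face h0.1 (by rw [h0.2.1]; exact hRj) _ _ hS
  rw [hRc] at hcard
  have hcS : n - 1 = n - S.card := Nat.pow_right_injective (le_refl 2) hcard
  have hS1 : S.card = 1 := by
    have := card_le_fin S
    omega
  obtain ⟨s, rfl⟩ := Finset.card_eq_one.1 hS1
  -- the corner of `c`
  have hcb : c b0 ∈ R := (hR b0).2 (fun _ _ => rfl)
  obtain ⟨ε0, hε0⟩ : ∃ ε0, c0 ε0 = c b0 := by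
    have := hRj hcb
    rw [← h0.2.1] at this
    exact this
  -- flip the coordinates of `ε0`
  set T : Finset (Fin n) := univ.filter (fun i => ε0 i = true) with hT
  have h1 : IsLab D.Face n (D.fac j) (flipT c0 T) := h0.flipT T
  have h1b : flipT c0 T b0 = c b0 := by
    rw [← hε0]
    unfold flipT
    congr 1
    funext i
    by_cases hi : ε0 i = true
    · simp [hT, hi, b0]
    · simp [hT, hi, b0]
  have h1R : ∀ ε, flipT c0 T ε ∈ R ↔ ε s = false := by
    intro ε
    have hs0 : ε0 s = a s := (hS ε0).1 (by rw [hε0]; exact hcb) s (Finset.mem_singleton_self s)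
    unfold flipT
    rw [hS]
    constructor
    · intro hh
      have h2 := hh s (Finset.mem_singleton_self s)
      rw [← hs0] at h2
      by_cases hi : ε0 s = true
      · simpa [hT, hi] using h2
      · simpa [hT, hi] using h2
    · intro hh t ht
      rw [Finset.mem_singleton] at ht
      subst ht
      rw [← hs0]
      by_cases hi : ε0 t = true
      · simp [hT, hi, hh]
      · simp [hT, hi, hh]
  -- move `s` to the last place
  obtain ⟨π, -, h2, h2R⟩ := h1.toLast hn s R h1R 0 (Nat.zero_le _)
  set c2 := permL (flipT c0 T) π with hc2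
  have h2b : c2 b0 = c b0 := by rw [hc2, permL_b0, h1b]
  -- match the neighbours of the corner
  have hex : ∀ i : Fin n, ∃ i' : Fin n, ((i : ℕ) + 1 ≠ n → (i' : ℕ) + 1 ≠ n ∧
      c (bE i) = c2 (bE i')) ∧ ((i : ℕ) + 1 = n → i' = i) := by
    intro i
    by_cases hi : (i : ℕ) + 1 = n
    · exact ⟨i, fun h => absurd hi h, fun _ => rfl⟩
    · have hiR : c (bE i) ∈ R := by
        rw [hR]
        intro t ht
        apply bE_ne
        rintro rfl
        exact hi ht
      obtain ⟨i', hi'⟩ := h.nbr h2 h2b.symm i (hRj hiR)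
      refine ⟨i', fun _ => ⟨?_, hi'⟩, fun h => absurd h hi⟩
      intro hlast
      rw [hi', h2R] at hiR
      have := hiR i' hlast
      rw [bE_self] at this
      exact Bool.noConfusion this
  choose g hg using hex
  have hginj : Function.Injective g := by
    intro x y hxy
    by_cases hx : (x : ℕ) + 1 = n
    · by_cases hy : (y : ℕ) + 1 = n
      · apply Fin.ext; omega
      · exfalso
        apply ((hg y).1 hy).1
        rw [← hxy, (hg x).2 hx]
        exact hx
    · by_cases hy : (y : ℕ) + 1 = n
      · exfalso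
        apply ((hg x).1 hx).1
        rw [hxy, (hg y).2 hy]
        exact hy
      · have : c (bE x) = c (bE y) := by
          rw [((hg x).1 hx).2, ((hg y).1 hy).2, hxy]
        exact bE_inj (h.1 this)
  let σ : Equiv.Perm (Fin n) := Equiv.ofBijective g (Finite.injective_iff_bijective.1 hginj)
  refine ⟨permL c2 σ.symm, h2.perm _, ?_⟩
  intro ε hε
  refine IsLab.det D.inter (D.fac_mem i) (D.fac_mem j) h (h2.perm σ.symm) (n - 1) ?_ ?_ ε ?_
  · rw [permL_b0, h2b]
  · intro t ht
    rw [permL_bE, Equiv.symm_symm]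
    exact ((hg t).1 (by omega)).2
  · intro t ht
    exact hε t (by have := t.2; omega)

theorem FaceData.fac_injective (D : FaceData V ι n) (hn : 1 ≤ n) (i j : ι)
    (hij : D.fac i = D.fac j) : i = j := by
  classical
  by_contra hne
  have key : ∀ l, Relation.ReflTransGen
      (fun p q => p ≠ q → (D.fac p ∩ D.fac q).ncard = 2 ^ (n - 1)) i l → l = i := by
    intro l hl
    induction hl with
    | refl => rfl
    | @tail p q _ hstep ih =>
      by_contra hq
      rw [ih] at hstep
      have hcard := hstep (Ne.symm hq)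
      have hpos : 0 < (D.fac i ∩ D.fac q).ncard := by rw [hcard]; positivity
      have hmem := D.inter _ (D.fac_mem i) _ (D.fac_mem q) (Set.nonempty_of_ncard_ne_zero hpos.ne')
      obtain ⟨j', hj', -, hall⟩ := D.two i _ hmem Set.inter_subset_left hcard
      have h1 := hall j (by rw [← hij]; exact Set.inter_subset_left)
      have h2 := hall q Set.inter_subset_right
      have hq' : q = j := by
        rcases h2 with h2 | h2
        · exact absurd h2 hq
        · rcases h1 with h1 | h1
          · exact absurd h1.symm hne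
          · rw [h1, h2]
      obtain ⟨c, hc⟩ := D.lab i
      rw [hq', ← hij, Set.inter_self, hc.ncard] at hcard
      have := Nat.pow_right_injective (le_refl 2) hcard
      omega
  exact hne (key j (D.gchain i j)).symm

theorem FaceData.ridge' [Finite V] (D : FaceData V ι n) (hn : 1 ≤ n) :
    ∀ c ∈ D.LF, ∃ c' ∈ D.LF, c' ≠ c ∧ Agree c c' ∧ ∀ c'' ∈ D.LF, Agree c c'' → c'' = c ∨ c'' = c' := by
  classical
  rintro c ⟨i, h⟩
  obtain ⟨R, hRF, hRB, hRc, hR⟩ := D.ridgeFace hn h
  obtain ⟨j, hji, hRj, hall⟩ := D.two i R hRF hRB hRc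
  obtain ⟨c', h', hag⟩ := D.relabel hn i c h j (fun ε hε => hRj ((hR ε).2 hε))
  -- uniqueness
  have uniq : ∀ (B : Set V) (hB : B ∈ D.Face) (c1 c2 : Lab V n), IsLab D.Face n B c1 →
      IsLab D.Face n B c2 → Agree c1 c2 → c2 = c1 := by
    intro B hB c1 c2 h1 h2 hag
    have hb : c1 b0 = c2 b0 := hag b0 (fun _ _ => rfl)
    have hE : ∀ t : Fin n, (t : ℕ) + 1 ≠ n → c1 (bE t) = c2 (bE t) := by
      intro t ht
      apply hag
      intro s hs
      apply bE_ne
      rintro rfl
      exact ht hs
    have hE' : ∀ t : Fin n, c1 (bE t) = c2 (bE t) := by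
      intro t
      by_cases ht : (t : ℕ) + 1 = n
      · obtain ⟨t', ht'⟩ := h1.nbr h2 hb t (h1.mem (bE t))
        by_cases hl : (t' : ℕ) + 1 = n
        · have : t' = t := by apply Fin.ext; omega
          rw [ht', this]
        · exfalso
          rw [← hE t' hl] at ht'
          have := bE_inj (h1.1 ht')
          rw [this] at ht
          exact hl ht
      · exact hE t ht
    funext ε
    exact (IsLab.det D.inter hB hB h1 h2 n hb (fun t _ => hE' t) ε
      (fun t ht => absurd t.2 (by omega))).symm
  refine ⟨c', ⟨j, h'⟩, ?_, hag, ?_⟩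
  · intro hcc
    apply hji
    apply D.fac_injective hn
    rw [← h.2.1, ← h'.2.1, hcc]
  · rintro c'' ⟨l, h''⟩ hag'
    have hRl : R ⊆ D.fac l := by
      intro x hx
      have := hRB hx
      rw [← h.2.1] at this
      obtain ⟨ε, rfl⟩ := this
      rw [hag' ε ((hR ε).1 hx)]
      exact h''.mem ε
    rcases hall l hRl with rfl | rfl
    · left
      exact uniq _ (D.fac_mem _) _ _ h h'' hag'
    · right
      refine uniq _ (D.fac_mem _) _ _ h' h'' ?_
      intro ε hε
      rw [← hag ε hε, hag' ε hε]

theorem FaceData.conn' [Finite V] (D : FaceData V ι n) (hn : 1 ≤ n) :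
    ∀ k : ℕ, ∀ c ∈ D.LF, ∀ c' ∈ D.LF, c b0 = c' b0 →
    (∀ i : Fin n, (i : ℕ) < k → c (bE i) = c' (bE i)) →
    Relation.ReflTransGen (LStep D.LF k) c c' := by
  classical
  rintro k c ⟨i, h⟩ c' ⟨i', h'⟩ hb hE
  -- the face `A` spanned by the first `k` directions
  obtain ⟨A, hAF, hAB, hA⟩ := h.2.2.2 (univ.filter (fun s : Fin n => k ≤ (s : ℕ))) b0
  have hA' : ∀ ε : Fin n → Bool, (∀ s : Fin n, k ≤ (s : ℕ) → ε s = false) → c ε ∈ A := by
    intro ε hε
    rw [hA]
    intro s hs
    rw [hε s (Finset.mem_filter.1 hs).2]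
    rfl
  have hAi' : A ⊆ D.fac i' := by
    intro x hx
    have hx2 := hAB hx
    rw [← h.2.1] at hx2
    obtain ⟨ε, rfl⟩ := hx2
    rw [hA] at hx
    rw [IsLab.det D.inter (D.fac_mem i) (D.fac_mem i') h h' k hb hE ε
      (fun s hs => hx s (Finset.mem_filter.2 ⟨mem_univ s, hs⟩))]
    exact h'.mem ε
  have key : ∀ q, Relation.ReflTransGen (fun p q => A ⊆ D.fac q ∧
      (p ≠ q → (D.fac p ∩ D.fac q).ncard = 2 ^ (n - 1))) i q →
      A ⊆ D.fac q ∧ ∃ cq, IsLab D.Face n (D.fac q) cq ∧ c b0 = cq b0 ∧
        (∀ t : Fin n, (t : ℕ) < k → c (bE t) = cq (bE t)) ∧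
        Relation.ReflTransGen (LStep D.LF k) c cq := by
    intro q hq
    induction hq with
    | refl => exact ⟨hAB, c, h, rfl, fun _ _ => rfl, Relation.ReflTransGen.refl⟩
    | @tail p q _ hstep ih =>
      obtain ⟨hAp, cp, hcp, hbp, hEp, hreach⟩ := ih
      obtain ⟨hAq, hpq⟩ := hstep
      by_cases hpq' : p = q
      · subst hpq'
        exact ⟨hAp, cp, hcp, hbp, hEp, hreach⟩
      refine ⟨hAq, ?_⟩
      have hcard := hpq hpq'
      have hpos : 0 < (D.fac p ∩ D.fac q).ncard := by rw [hcard]; positivity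
      have hmem := D.inter _ (D.fac_mem p) _ (D.fac_mem q) (Set.nonempty_of_ncard_ne_zero hpos.ne')
      obtain ⟨S, a, hS⟩ := hcp.2.2.1 _ hmem Set.inter_subset_left
      have hcard' := ncard_face hcp.1 (by rw [hcp.2.1]; exact Set.inter_subset_left) _ _ hS
      rw [hcard] at hcard'
      have hcS : n - 1 = n - S.card := Nat.pow_right_injective (le_refl 2) hcard'
      have hS1 : S.card = 1 := by
        have := card_le_fin S
        omega
      obtain ⟨s, rfl⟩ := Finset.card_eq_one.1 hS1
      have hAR : A ⊆ D.fac p ∩ D.fac q := fun x hx => ⟨hAp hx, hAq hx⟩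
      have has : a s = false := by
        have h1 : cp b0 ∈ D.fac p ∩ D.fac q := by
          rw [← hbp]
          exact hAR (hA' b0 (fun _ _ => rfl))
        exact ((hS b0).1 h1 s (Finset.mem_singleton_self s)).symm
      have hks : k ≤ (s : ℕ) := by
        by_contra hlt
        push Not at hlt
        have h1 : cp (bE s) ∈ D.fac p ∩ D.fac q := by
          rw [← hEp s hlt]
          refine hAR (hA' _ (fun t ht => bE_ne ?_))
          rintro rfl
          omega
        have h2 := (hS _).1 h1 s (Finset.mem_singleton_self s)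
        rw [has, bE_self] at h2
        exact Bool.noConfusion h2
      have hR1 : ∀ ε, cp ε ∈ D.fac p ∩ D.fac q ↔ ε s = false := by
        intro ε
        rw [hS]
        constructor
        · intro hh
          rw [hh s (Finset.mem_singleton_self s), has]
        · intro hh t ht
          rw [Finset.mem_singleton] at ht
          rw [ht, hh, has]
      obtain ⟨π, hπ, hlab, hRπ⟩ := hcp.toLast hn s _ hR1 k hks
      obtain ⟨cq, hcq, hag⟩ := D.relabel hn p _ hlab q (fun ε hε => ((hRπ ε).2 hε).2)
      have hπs : ∀ t : Fin n, (t : ℕ) < k → π.symm t = t := by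
        intro t ht
        rw [Equiv.symm_apply_eq, hπ t ht]
      refine ⟨cq, hcq, ?_, ?_, ?_⟩
      · rw [hbp, ← hag b0 (fun _ _ => rfl), permL_b0]
      · intro t ht
        rw [hEp t ht, ← hag (bE t), permL_bE, hπs t ht]
        intro u hu
        apply bE_ne
        rintro rfl
        have := s.2
        omega
      · refine (hreach.tail ⟨⟨p, hlab⟩, Or.inl ⟨π, hπ, rfl⟩⟩).tail ⟨⟨q, hcq⟩, Or.inr hag⟩
  obtain ⟨-, ce, hce, hbe, hEe, hreach⟩ := key i' (D.chain A hAF i i' hAB hAi')
  obtain ⟨π, hπ, hfix⟩ := hce.exists_perm D.inter (D.fac_mem i') h' (by rw [← hbe, hb])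
  refine hreach.tail ⟨⟨i', h'⟩, Or.inl ⟨π, fun t ht => hfix t ?_, hπ⟩⟩
  rw [← hEe t ht, hE t ht]

theorem gstep_flipT {F : Set (Lab V n)} (c : Lab V n) (hF : ∀ T, flipT c T ∈ F)
    (T : Finset (Fin n)) : Relation.ReflTransGen (GStep F) c (flipT c T) := by
  classical
  induction T using Finset.induction_on with
  | empty => rw [flipT_empty]
  | insert a T ha ih =>
    refine ih.tail ⟨hF _, Or.inr (Or.inl ⟨a, flipT_insert c T a ha⟩)⟩

theorem FaceData.sim' [Finite V] (D : FaceData V ι n) (hn : 1 ≤ n) :
    ∀ c ∈ D.LF, ∀ c' ∈ D.LF, Relation.ReflTransGen (GStep D.LF) c c' := by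
  classical
  rintro c ⟨i, h⟩ c' ⟨i', h'⟩
  have key : ∀ q, Relation.ReflTransGen (fun p q =>
      p ≠ q → (D.fac p ∩ D.fac q).ncard = 2 ^ (n - 1)) i q →
      ∃ cq, IsLab D.Face n (D.fac q) cq ∧ Relation.ReflTransGen (GStep D.LF) c cq := by
    intro q hq
    induction hq with
    | refl => exact ⟨c, h, Relation.ReflTransGen.refl⟩
    | @tail p q _ hpq ih =>
      obtain ⟨cp, hcp, hreach⟩ := ih
      by_cases hpq' : p = q
      · subst hpq'
        exact ⟨cp, hcp, hreach⟩
      have hcard := hpq hpq'
      have hpos : 0 < (D.fac p ∩ D.fac q).ncard := by rw [hcard]; positivity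
      have hmem := D.inter _ (D.fac_mem p) _ (D.fac_mem q) (Set.nonempty_of_ncard_ne_zero hpos.ne')
      obtain ⟨S, a, hS⟩ := hcp.2.2.1 _ hmem Set.inter_subset_left
      have hcard' := ncard_face hcp.1 (by rw [hcp.2.1]; exact Set.inter_subset_left) _ _ hS
      rw [hcard] at hcard'
      have hcS : n - 1 = n - S.card := Nat.pow_right_injective (le_refl 2) hcard'
      have hS1 : S.card = 1 := by
        have := card_le_fin S
        omega
      obtain ⟨s, rfl⟩ := Finset.card_eq_one.1 hS1
      set T : Finset (Fin n) := if a s = true then {s} else ∅ with hT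
      have hR1 : ∀ ε, flipT cp T ε ∈ D.fac p ∩ D.fac q ↔ ε s = false := by
        intro ε
        unfold flipT
        rw [hS]
        constructor
        · intro hh
          have h2 := hh s (Finset.mem_singleton_self s)
          by_cases hi : a s = true
          · simpa [hT, hi] using h2
          · simpa [hT, hi] using h2
        · intro hh t ht
          rw [Finset.mem_singleton] at ht
          subst ht
          by_cases hi : a t = true
          · simp [hT, hi, hh]
          · simp [hT, hi, hh]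
      have hlabT := hcp.flipT T
      obtain ⟨π, -, hlab, hRπ⟩ := hlabT.toLast hn s _ hR1 0 (Nat.zero_le _)
      obtain ⟨cq, hcq, hag⟩ := D.relabel hn p _ hlab q (fun ε hε => ((hRπ ε).2 hε).2)
      refine ⟨cq, hcq, ?_⟩
      have hF : ∀ T, flipT cp T ∈ D.LF := fun T => ⟨p, hcp.flipT T⟩
      have h1 := hreach.trans (gstep_flipT cp hF T)
      exact (h1.tail ⟨⟨p, hlab⟩, Or.inl ⟨π, rfl⟩⟩).tail ⟨⟨q, hcq⟩, Or.inr (Or.inr hag)⟩
  obtain ⟨ce, hce, hreach⟩ := key i' (D.gchain i i')
  -- flip to the same corner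
  obtain ⟨ε0, hε0⟩ : ∃ ε0, ce ε0 = c' b0 := by
    have := h'.mem b0
    rw [← hce.2.1] at this
    exact this
  set T : Finset (Fin n) := univ.filter (fun i => ε0 i = true) with hT
  have hb : flipT ce T b0 = c' b0 := by
    rw [← hε0]
    unfold flipT
    congr 1
    funext i
    by_cases hi : ε0 i = true
    · simp [hT, hi, b0]
    · simp [hT, hi, b0]
  obtain ⟨π, hπ, -⟩ := (hce.flipT T).exists_perm D.inter (D.fac_mem i') h' hb
  have hF : ∀ T, flipT ce T ∈ D.LF := fun T => ⟨i', hce.flipT T⟩
  have h1 := hreach.trans (gstep_flipT ce hF T)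
  exact h1.tail ⟨⟨i', h'⟩, Or.inl ⟨π, hπ⟩⟩

end Pool.Agent.CubLBC
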