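import Pool.Agent.CubLBC.FaceB

set_option autoImplicit false

namespace Pool.Agent.CubLBC

open Finset

variable {V ι : Type} {n : ℕ}

/-- The cubical complex of all labelled facets. -/
def FaceData.cx [Finite V] (D : FaceData V ι n) (hn : 1 ≤ n) : CubCx V n where
  F := D.LF
  perm := by rintro c ⟨i, h⟩ π; exact ⟨i, h.perm π⟩
  flip := by rintro c ⟨i, h⟩ j; exact ⟨i, h.flip j⟩
  inj := by rintro c ⟨i, h⟩; exact h.1
  det := by
    rintro c ⟨i, h⟩ c' ⟨i', h'⟩ k h0 hE
    exact IsLab.det D.inter (D.fac_mem i) (D.fac_mem i') h h' k h0 hE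
  ridge := D.ridge' hn
  conn := D.conn' hn

theorem FaceData.cx_isVert [Finite V] (D : FaceData V ι n) (hn : 1 ≤ n) (x : V) :
    (D.cx hn).IsVert x := by
  classical
  obtain ⟨i, hi⟩ := D.cover x
  obtain ⟨c, hc⟩ := D.lab i
  obtain ⟨ε0, hε0⟩ : ∃ ε0, c ε0 = x := by
    rw [← hc.2.1] at hi
    exact hi
  refine ⟨flipT c (univ.filter (fun i => ε0 i = true)), ⟨i, hc.flipT _⟩, ?_⟩
  rw [← hε0]
  unfold flipT
  congr 1
  funext i
  by_cases hi : ε0 i = true
  · simp [hi, b0]
  · simp [hi, b0]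

theorem FaceData.cx_sim [Finite V] (D : FaceData V ι n) (hn : 1 ≤ n) :
    ∀ c ∈ (D.cx hn).F, ∀ c' ∈ (D.cx hn).F, (D.cx hn).Sim c c' := D.sim' hn

/-- The vertices of the subcube spanned by the first `k` directions at the corner. -/
def cubeSet (c : Lab V n) (k : ℕ) : Set V :=
  {x | ∃ ε : Fin n → Bool, (∀ s : Fin n, k ≤ (s : ℕ) → ε s = false) ∧ c ε = x}

theorem mem_cubeSet_iff {c : Lab V n} (hc : Function.Injective c) (k : ℕ) (ε : Fin n → Bool) :
    c ε ∈ cubeSet c k ↔ ∀ s : Fin n, k ≤ (s : ℕ) → ε s = false := by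
  constructor
  · rintro ⟨ε', h, he⟩
    rw [← hc he]
    exact h
  · intro h
    exact ⟨ε, h, rfl⟩

theorem IsLab.cubeSet_mem {Face : Set (Set V)} {B : Set V} {c : Lab V n} (h : IsLab Face n B c)
    (k : ℕ) (hk : k ≤ n) :
    cubeSet c k ∈ Face ∧ cubeSet c k ⊆ B ∧ (cubeSet c k).ncard = 2 ^ k := by
  classical
  obtain ⟨A, hAF, hAB, hA⟩ := h.2.2.2 (univ.filter (fun s : Fin n => k ≤ (s : ℕ))) b0
  have hAr : A ⊆ Set.range c := by rw [h.2.1]; exact hAB
  have hAeq : A = cubeSet c k := by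
    ext x
    constructor
    · intro hx
      obtain ⟨ε, rfl⟩ := hAr hx
      rw [hA] at hx
      exact ⟨ε, fun s hs => hx s (Finset.mem_filter.2 ⟨mem_univ s, hs⟩), rfl⟩
    · rintro ⟨ε, hε, rfl⟩
      rw [hA]
      intro s hs
      rw [hε s (Finset.mem_filter.1 hs).2]
      rfl
  refine ⟨hAeq ▸ hAF, hAeq ▸ hAB, ?_⟩
  rw [← hAeq, ncard_face h.1 hAr _ _ hA]
  congr 1
  have h1 : (univ.filter (fun s : Fin n => k ≤ (s : ℕ))).card = n - k := by
    have h2 := Finset.card_filter_add_card_filter_not (s := (univ : Finset (Fin n)))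
      (fun s : Fin n => (s : ℕ) < k)
    have h3 : (univ.filter (fun s : Fin n => (s : ℕ) < k)).card = k := by
      rw [Fin.card_filter_val_lt]
      exact min_eq_right hk
    simp only [not_lt] at h2
    rw [h3, Finset.card_univ, Fintype.card_fin] at h2
    omega
  rw [h1]
  omega

/-- Every `k`-face has at most `2^k k!` frames. -/
theorem FaceData.frames_le [Fintype V] (D : FaceData V ι n) (hn : 1 ≤ n)
    (k : ℕ) (hk : k ≤ n) :
    ((D.cx hn).frames k).card ≤ 2 ^ k * k.factorial *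
      Set.ncard {A : Set V | A ∈ D.Face ∧ (∃ i, A ⊆ D.fac i) ∧ A.ncard = 2 ^ k} := by
  classical
  -- representatives
  have hrep : ∀ f : V × (Fin k → V), f ∈ (D.cx hn).frames k → ∃ c : Lab V n, ∃ i,
      IsLab D.Face n (D.fac i) c ∧ c b0 = f.1 ∧
      ∀ t : Fin k, f.2 t = c (bE ⟨t, lt_of_lt_of_le t.2 hk⟩) := by
    intro f hf
    obtain ⟨-, c, ⟨i, hc⟩, h0, hE⟩ := Finset.mem_filter.1 hf
    exact ⟨c, i, hc, h0, fun t => hE t _⟩
  let Φ : V × (Fin k → V) → Set V := fun f =>
    if hf : f ∈ (D.cx hn).frames k then cubeSet (hrep f hf).choose k else ∅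
  have hΦ : ∀ f (hf : f ∈ (D.cx hn).frames k), Φ f = cubeSet (hrep f hf).choose k := by
    intro f hf
    exact dif_pos hf
  set 𝒜 : Set (Set V) := {A : Set V | A ∈ D.Face ∧ (∃ i, A ⊆ D.fac i) ∧ A.ncard = 2 ^ k} with h𝒜
  have hfin : 𝒜.Finite := Set.toFinite _
  have hmap : ∀ f ∈ (D.cx hn).frames k, Φ f ∈ hfin.toFinset := by
    intro f hf
    rw [Set.Finite.mem_toFinset, hΦ f hf]
    obtain ⟨i, hc, -, -⟩ := (hrep f hf).choose_spec
    obtain ⟨h1, h2, h3⟩ := hc.cubeSet_mem k hk
    exact ⟨h1, ⟨i, h2⟩, h3⟩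
  rw [Set.ncard_eq_toFinset_card 𝒜 hfin]
  refine Finset.card_le_mul_card_image_of_maps_to hmap _ ?_
  intro A hA
  rw [Set.Finite.mem_toFinset] at hA
  -- the fibre over `A`
  have hAcard : A.toFinset.card = 2 ^ k := by
    rw [← Set.ncard_eq_toFinset_card', hA.2.2]
  have hmap2 : ∀ f ∈ ((D.cx hn).frames k).filter (fun f => Φ f = A), f.1 ∈ A.toFinset := by
    intro f hf
    obtain ⟨hf1, hf2⟩ := Finset.mem_filter.1 hf
    rw [Set.mem_toFinset, ← hf2, hΦ f hf1]
    obtain ⟨i, hc, h0, -⟩ := (hrep f hf1).choose_spec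
    exact ⟨b0, fun _ _ => rfl, h0⟩
  have key := Finset.card_le_mul_card_image_of_maps_to hmap2 k.factorial (by
    intro x hx
    set G := (((D.cx hn).frames k).filter (fun f => Φ f = A)).filter (fun f => f.1 = x) with hG
    rcases G.eq_empty_or_nonempty with he | ⟨f0, hf0⟩
    · rw [he]
      simp
    obtain ⟨hf0', hf0x⟩ := Finset.mem_filter.1 hf0
    obtain ⟨hf0F, hf0A⟩ := Finset.mem_filter.1 hf0'
    obtain ⟨i0, hc0, h00, hE0⟩ := (hrep f0 hf0F).choose_spec
    set c0 := (hrep f0 hf0F).choose with hc0def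
    set N : Finset V := univ.image f0.2 with hN
    have hNcard : N.card ≤ k := by
      have := Finset.card_image_le (s := (univ : Finset (Fin k))) (f := f0.2)
      simpa using this
    have hinjmem : ∀ f ∈ G, Function.Injective f.2 ∧ ∀ t, f.2 t ∈ N := by
      intro f hf
      obtain ⟨hf', hfx⟩ := Finset.mem_filter.1 hf
      obtain ⟨hfF, hfA⟩ := Finset.mem_filter.1 hf'
      obtain ⟨i, hc, h0, hE⟩ := (hrep f hfF).choose_spec
      set c := (hrep f hfF).choose with hcdef
      constructor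
      · intro s t hst
        rw [hE s, hE t] at hst
        have := bE_inj (hc.1 hst)
        apply Fin.ext
        have := congrArg Fin.val this
        exact this
      · intro t
        have hAA : cubeSet c k = cubeSet c0 k := by
          rw [← hΦ f hfF, hfA, ← hf0A, hΦ f0 hf0F]
        have hmem : c (bE ⟨t, lt_of_lt_of_le t.2 hk⟩) ∈ cubeSet c0 k := by
          rw [← hAA, mem_cubeSet_iff hc.1]
          intro s hs
          apply bE_ne
          rintro rfl
          have := t.2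
          simp only at hs
          omega
        obtain ⟨t', ht'⟩ := hc.nbr hc0 (by rw [h0, h00, hfx, hf0x]) ⟨t, lt_of_lt_of_le t.2 hk⟩
          ((hc0.cubeSet_mem k hk).2.1 hmem)
        have ht'k : (t' : ℕ) < k := by
          by_contra hcon
          push Not at hcon
          rw [ht', mem_cubeSet_iff hc0.1] at hmem
          have := hmem t' hcon
          rw [bE_self] at this
          exact Bool.noConfusion this
        rw [hN, Finset.mem_image]
        refine ⟨⟨t', ht'k⟩, mem_univ _, ?_⟩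
        rw [hE0, hE t, ht']
    have hle : G.card ≤ Fintype.card (Fin k ↪ N) := by
      rw [← Fintype.card_coe G]
      apply Fintype.card_le_of_injective
        (fun f : G => (⟨fun t => ⟨f.1.2 t, (hinjmem f.1 f.2).2 t⟩, fun s t hst =>
          (hinjmem f.1 f.2).1 (congrArg Subtype.val hst)⟩ : Fin k ↪ N))
      rintro ⟨f, hf⟩ ⟨g, hg⟩ hfg
      apply Subtype.ext
      apply Prod.ext
      · show f.1 = g.1
        rw [(Finset.mem_filter.1 hf).2, (Finset.mem_filter.1 hg).2]
      · show f.2 = g.2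
        funext t
        have := congrArg (fun e : Fin k ↪ N => ((e t : N) : V)) hfg
        exact this
    refine hle.trans ?_
    rw [Fintype.card_embedding_eq, Fintype.card_coe, Fintype.card_fin]
    calc N.card.descFactorial k ≤ k.descFactorial k := Nat.descFactorial_le _ hNcard
      _ = k.factorial := Nat.descFactorial_self k)
  rw [hAcard] at key
  rw [mul_comm (2 ^ k)]
  exact key

end Pool.Agent.CubLBC
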