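import Pool.Agent.CubLBC.Defs

set_option autoImplicit false

namespace Pool.Agent.CubLBC

open Finset

/-- `c` is a labelling of the vertex set `B` (of a facet) by the `n`-cube for which the members of
`Face` inside `B` are exactly the subcubes. -/
def IsLab {V : Type} (Face : Set (Set V)) (n : ℕ) (B : Set V) (c : Lab V n) : Prop :=
  Function.Injective c ∧ Set.range c = B ∧
  (∀ A ∈ Face, A ⊆ B → ∃ (S : Finset (Fin n)) (a : Fin n → Bool),
    ∀ ε, c ε ∈ A ↔ ∀ s ∈ S, ε s = a s) ∧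
  (∀ (S : Finset (Fin n)) (a : Fin n → Bool), ∃ A ∈ Face, A ⊆ B ∧
    ∀ ε, c ε ∈ A ↔ ∀ s ∈ S, ε s = a s)

/-- Combinatorial data of the faces of a cubical polytope of dimension `n + 1`: `V` = vertices,
`ι` = facets, `Face` = vertex sets of the nonempty faces. -/
structure FaceData (V ι : Type) (n : ℕ) where
  fac : ι → Set V
  Face : Set (Set V)
  inter : ∀ A ∈ Face, ∀ B ∈ Face, (A ∩ B).Nonempty → A ∩ B ∈ Face
  fac_mem : ∀ i, fac i ∈ Face
  lab : ∀ i, ∃ c : Lab V n, IsLab Face n (fac i) c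
  /-- every ridge is in exactly two facets -/
  two : ∀ i, ∀ R ∈ Face, R ⊆ fac i → R.ncard = 2 ^ (n - 1) →
    ∃ j, j ≠ i ∧ R ⊆ fac j ∧ ∀ l, R ⊆ fac l → l = i ∨ l = j
  /-- the facets containing a face are strongly connected -/
  chain : ∀ A ∈ Face, ∀ i j, A ⊆ fac i → A ⊆ fac j →
    Relation.ReflTransGen (fun p q => A ⊆ fac q ∧ (p ≠ q → (fac p ∩ fac q).ncard = 2 ^ (n - 1))) i j
  gchain : ∀ i j,
    Relation.ReflTransGen (fun p q => p ≠ q → (fac p ∩ fac q).ncard = 2 ^ (n - 1)) i j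
  cover : ∀ v : V, ∃ i, v ∈ fac i

/-- The set of labelled facets. -/
def FaceData.LF {V ι : Type} {n : ℕ} (D : FaceData V ι n) : Set (Lab V n) :=
  {c | ∃ i, IsLab D.Face n (D.fac i) c}

end Pool.Agent.CubLBC
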