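import Mathlib

set_option autoImplicit false

/-!
# Faces of polytopes: definitions and basic facts
-/

namespace Pool.Agent.CubOwn

open Module

/-- The (nonempty) faces of a convex set `P`: the nonempty sets of all points of `P` at which some
linear functional is largest on `P`. -/
def Faces {E : Type*} [NormedAddCommGroup E] [NormedSpace ℝ E] (P : Set E) : Set (Set E) :=
  {F | F.Nonempty ∧ ∃ l : E →L[ℝ] ℝ, F = {x | x ∈ P ∧ ∀ y ∈ P, l y ≤ l x}}

/-- The dimension of a set. -/
noncomputable def dim {E : Type*} [NormedAddCommGroup E] [NormedSpace ℝ E] (F : Set E) : ℕ :=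
  finrank ℝ (vectorSpan ℝ F)

/-- `f_k(P)`: the number of `k`-dimensional faces. -/
noncomputable def faceNumber {E : Type*} [NormedAddCommGroup E] [NormedSpace ℝ E] (k : ℕ)
    (P : Set E) : ℕ :=
  {F | F ∈ Faces P ∧ dim F = k}.ncard

/-- `P` is a `d`-polytope: the convex hull of a finite set, of dimension `d`. -/
def IsPolytope {E : Type*} [NormedAddCommGroup E] [NormedSpace ℝ E] (d : ℕ) (P : Set E) : Prop :=
  P.Nonempty ∧ dim P = d ∧ ∃ V : Set E, V.Finite ∧ P = convexHull ℝ V

/-- The unit cube. -/
def cube (m : ℕ) : Set (EuclideanSpace ℝ (Fin m)) := {x | ∀ i, 0 ≤ x i ∧ x i ≤ 1}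

/-- Combinatorial equivalence: the faces, ordered by inclusion, correspond to each other. -/
def CombEquiv {E E' : Type*} [NormedAddCommGroup E] [NormedSpace ℝ E] [NormedAddCommGroup E']
    [NormedSpace ℝ E'] (P : Set E) (Q : Set E') : Prop :=
  Nonempty ({F // F ∈ Faces P} ≃o {G // G ∈ Faces Q})

section basic

variable {E : Type*} [NormedAddCommGroup E] [NormedSpace ℝ E]

theorem mem_Faces_iff {P F : Set E} : F ∈ Faces P ↔ F.Nonempty ∧ IsExposed ℝ P F := by
  constructor
  · rintro ⟨h1, h2⟩
    exact ⟨h1, fun _ => h2⟩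
  · rintro ⟨h1, h2⟩
    exact ⟨h1, h2 h1⟩

theorem convex_or {G : Set E} (hG : Convex ℝ G) (l : E →L[ℝ] ℝ) (a : ℝ) (h : ∀ x ∈ G, l x ≤ a) :
    Convex ℝ (G ∪ {x | l x < a}) := by
  intro x hx y hy s t hs ht hst
  rcases hx with hx | hx <;> rcases hy with hy | hy
  · exact Or.inl (hG hx hy hs ht hst)
  · rcases eq_or_lt_of_le ht with h0 | h0
    · left
      rw [← h0] at hst ⊢
      rw [add_zero] at hst
      rw [hst, one_smul, zero_smul, add_zero]
      exact hx
    · right
      show l (s • x + t • y) < a
      rw [map_add, map_smul, map_smul, smul_eq_mul, smul_eq_mul]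
      have h1 := h x hx
      have h2 : l y < a := hy
      have h3 : a = s * a + t * a := by rw [← add_mul, hst, one_mul]
      nlinarith
  · rcases eq_or_lt_of_le hs with h0 | h0
    · left
      rw [← h0] at hst ⊢
      rw [zero_add] at hst
      rw [hst, one_smul, zero_smul, zero_add]
      exact hy
    · right
      show l (s • x + t • y) < a
      rw [map_add, map_smul, map_smul, smul_eq_mul, smul_eq_mul]
      have h1 := h y hy
      have h2 : l x < a := hx
      have h3 : a = s * a + t * a := by rw [← add_mul, hst, one_mul]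
      nlinarith
  · right
    show l (s • x + t • y) < a
    rw [map_add, map_smul, map_smul, smul_eq_mul, smul_eq_mul]
    have h1 : l x < a := hx
    have h2 : l y < a := hy
    have h3 : a = s * a + t * a := by rw [← add_mul, hst, one_mul]
    rcases eq_or_lt_of_le hs with h0 | h0
    · rw [← h0] at hst h3 ⊢
      nlinarith
    · nlinarith

theorem face_convex {P F : Set E} (hP : Convex ℝ P) (hF : F ∈ Faces P) : Convex ℝ F :=
  (mem_Faces_iff.1 hF).2.convex hP

theorem face_subset {P F : Set E} (hF : F ∈ Faces P) : F ⊆ P :=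
  (mem_Faces_iff.1 hF).2.subset

/-- a set which contains the vertices and satisfies the inequality of `l` strictly outside `G` -/
theorem faces_of_strict {V G : Set E} (hG : Convex ℝ G) (hne : G.Nonempty)
    (hGP : G ⊆ convexHull ℝ V) (l : E →L[ℝ] ℝ) (a : ℝ) (h1 : ∀ x ∈ G, l x = a)
    (h2 : ∀ v ∈ V, v ∈ G ∨ l v < a) : G ∈ Faces (convexHull ℝ V) := by
  have h3 : convexHull ℝ V ⊆ G ∪ {x | l x < a} :=
    convexHull_min (fun v hv => h2 v hv) (convex_or hG l a fun x hx => (h1 x hx).le)
  have h4 : ∀ y ∈ convexHull ℝ V, l y ≤ a := by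
    intro y hy
    rcases h3 hy with h | h
    · exact (h1 y h).le
    · exact le_of_lt h
  refine ⟨hne, l, ?_⟩
  ext x
  constructor
  · intro hx
    refine ⟨hGP hx, fun y hy => ?_⟩
    rw [h1 x hx]
    exact h4 y hy
  · rintro ⟨hx, hx2⟩
    rcases h3 hx with h | h
    · exact h
    · exfalso
      obtain ⟨g, hg⟩ := hne
      have h5 := hx2 g (hGP hg)
      rw [h1 g hg] at h5
      exact absurd h (not_lt.2 h5)

/-- a face of a polytope contains one of the given points -/
theorem face_has_vertex {V F : Set E} (hV : V.Finite) (hF : F ∈ Faces (convexHull ℝ V)) :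
    ∃ v ∈ V, v ∈ F := by
  obtain ⟨⟨x, hx⟩, l, hl⟩ := hF
  have hxP : x ∈ convexHull ℝ V := by
    rw [hl] at hx
    exact hx.1
  have hVne : V.Nonempty := by
    rw [← convexHull_nonempty_iff (𝕜 := ℝ)]
    exact ⟨x, hxP⟩
  obtain ⟨v, hv, hmax⟩ := hV.exists_maximalFor l V hVne
  have h1 : ∀ w ∈ V, l w ≤ l v := by
    intro w hw
    rcases le_total (l w) (l v) with h | h
    · exact h
    · exact hmax hw h
  have h2 : convexHull ℝ V ⊆ {y | l y ≤ l v} :=
    convexHull_min (fun w hw => h1 w hw) (convex_halfSpace_le l.isLinear _)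
  refine ⟨v, hv, ?_⟩
  rw [hl]
  exact ⟨subset_convexHull ℝ V hv, fun y hy => h2 hy⟩

/-- the faces of a face are the faces contained in it -/
theorem Faces_face {V F : Set E} (hV : V.Finite) (hF : F ∈ Faces (convexHull ℝ V)) :
    Faces F = {G | G ∈ Faces (convexHull ℝ V) ∧ G ⊆ F} := by
  ext G
  constructor
  · intro hG
    have hGF : G ⊆ F := face_subset hG
    refine ⟨?_, hGF⟩
    have hFc := face_convex (convex_convexHull ℝ V) hF
    have hGc := face_convex hFc hG
    have hFP := face_subset hF
    obtain ⟨hGne, m, hm⟩ := hG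
    obtain ⟨hFne, l, hl⟩ := hF
    obtain ⟨g, hg⟩ := id hGne
    -- values
    have hlF : ∀ x ∈ F, l x = l g := by
      intro x hx
      have h1 := hx
      have h2 := hGF hg
      rw [hl] at h1 h2
      exact le_antisymm (h2.2 x h1.1) (h1.2 g h2.1)
    have hlP : ∀ v ∈ V, v ∉ F → l v < l g := by
      intro v hv hvF
      have h2 := hGF hg
      rw [hl] at h2
      rcases lt_or_eq_of_le (h2.2 v (subset_convexHull ℝ V hv)) with h | h
      · exact h
      · exfalso
        apply hvF
        rw [hl]
        refine ⟨subset_convexHull ℝ V hv, fun y hy => ?_⟩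
        rw [h]
        exact h2.2 y hy
    have hmG : ∀ x ∈ G, m x = m g := by
      intro x hx
      have h1 := hx
      have h2 := hg
      rw [hm] at h1 h2
      exact le_antisymm (h2.2 x h1.1) (h1.2 g h2.1)
    have hmF : ∀ x ∈ F, x ∉ G → m x < m g := by
      intro x hx hxG
      have h2 := hg
      rw [hm] at h2
      rcases lt_or_eq_of_le (h2.2 x hx) with h | h
      · exact h
      · exfalso
        apply hxG
        rw [hm]
        refine ⟨hx, fun y hy => ?_⟩
        rw [h]
        exact h2.2 y hy
    -- a large multiple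
    obtain ⟨N, hN⟩ : ∃ N : ℝ, ∀ v ∈ V, v ∉ F → m v - m g < N * (l g - l v) := by
      have h1 : ∀ v : E, ∃ n : ℝ, 0 ≤ n ∧ (v ∈ V → v ∉ F → m v - m g < n * (l g - l v)) := by
        intro v
        by_cases hv : v ∈ V ∧ v ∉ F
        · have h2 := hlP v hv.1 hv.2
          refine ⟨(|m v - m g| + 1) / (l g - l v), by
            have : 0 < l g - l v := by linarith
            positivity, fun _ _ => ?_⟩
          rw [div_mul_cancel₀ _ (by linarith)]
          have := le_abs_self (m v - m g)
          linarith
        · exact ⟨0, le_rfl, fun h3 h4 => absurd ⟨h3, h4⟩ hv⟩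
      choose n hn0 hn using h1
      refine ⟨∑ w ∈ hV.toFinset, n w, fun v hv hvF => (hn v hv hvF).trans_le ?_⟩
      have h3 : n v ≤ ∑ w ∈ hV.toFinset, n w :=
        Finset.single_le_sum (f := n) (fun w _ => hn0 w) (hV.mem_toFinset.2 hv)
      have h4 := hlP v hv hvF
      exact mul_le_mul_of_nonneg_right h3 (by linarith)
    refine faces_of_strict hGc hGne (hGF.trans hFP) (N • l + m) (N * l g + m g) ?_ ?_
    · intro x hx
      show N * l x + m x = _
      rw [hlF x (hGF hx), hmG x hx]
    · intro v hv
      by_cases hvG : v ∈ G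
      · exact Or.inl hvG
      · right
        show N * l v + m v < _
        by_cases hvF : v ∈ F
        · rw [hlF v hvF]
          have := hmF v hvF hvG
          linarith
        · have := hN v hv hvF
          nlinarith
  · rintro ⟨hG, hGF⟩
    have hFP := face_subset hF
    obtain ⟨hGne, l, hl⟩ := hG
    obtain ⟨g, hg⟩ := id hGne
    refine ⟨hGne, l, ?_⟩
    ext x
    constructor
    · intro hx
      refine ⟨hGF hx, fun y hy => ?_⟩
      rw [hl] at hx
      exact hx.2 y (hFP hy)
    · rintro ⟨hx, hx2⟩
      have h1 := hx2 g (hGF hg)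
      rw [hl] at hg ⊢
      exact ⟨hFP hx, fun y hy => (hg.2 y hy).trans h1⟩

/-- a vertex of a polytope is a face -/
theorem singleton_mem_Faces {V : Set E} (hV : V.Finite) {v : E}
    (hv : v ∈ (convexHull ℝ V).extremePoints ℝ) : {v} ∈ Faces (convexHull ℝ V) := by
  have hvV : v ∈ V := extremePoints_convexHull_subset hv
  have hnot : v ∉ convexHull ℝ (V \ {v}) := by
    intro h
    have hsub : convexHull ℝ (V \ {v}) ⊆ convexHull ℝ V := convexHull_mono Set.sdiff_subset
    have h1 : v ∈ (convexHull ℝ (V \ {v})).extremePoints ℝ :=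
      inter_extremePoints_subset_extremePoints_of_subset hsub ⟨h, hv⟩
    exact (extremePoints_convexHull_subset h1).2 rfl
  have hclosed : IsClosed (convexHull ℝ (V \ {v})) :=
    (hV.subset Set.sdiff_subset).isClosed_convexHull ℝ
  obtain ⟨f, u, hf1, hf2⟩ := geometric_hahn_banach_closed_point (convex_convexHull ℝ _) hclosed hnot
  refine faces_of_strict (convex_singleton v) (Set.singleton_nonempty v)
    (Set.singleton_subset_iff.2 (subset_convexHull ℝ V hvV)) f (f v) ?_ ?_
  · rintro x rfl
    rfl
  · intro w hw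
    by_cases hwv : w = v
    · exact Or.inl hwv
    · right
      exact (hf1 w (subset_convexHull ℝ _ ⟨hw, hwv⟩)).trans hf2

/-- a polytope is the convex hull of its extreme points -/
theorem hull_extreme {V : Set E} (hV : V.Finite) :
    convexHull ℝ ((convexHull ℝ V).extremePoints ℝ) = convexHull ℝ V := by
  have h1 := closure_convexHull_extremePoints (hV.isCompact_convexHull ℝ) (convex_convexHull ℝ V)
  have h2 : IsClosed (convexHull ℝ ((convexHull ℝ V).extremePoints ℝ)) :=
    (hV.subset extremePoints_convexHull_subset).isClosed_convexHull ℝ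
  rwa [h2.closure_eq] at h1

/-- the zero-dimensional faces are the vertices -/
theorem zero_faces {V : Set E} (hV : V.Finite) :
    {F | F ∈ Faces (convexHull ℝ V) ∧ dim F = 0} =
      (fun v => ({v} : Set E)) '' (convexHull ℝ V).extremePoints ℝ := by
  ext F
  constructor
  · rintro ⟨hF, h0⟩
    obtain ⟨v, hvV, hvF⟩ := face_has_vertex hV hF
    have hfin : FiniteDimensional ℝ (vectorSpan ℝ F) := by
      have h1 : FiniteDimensional ℝ (vectorSpan ℝ (convexHull ℝ V)) := by
        rw [← direction_affineSpan, affineSpan_convexHull, direction_affineSpan]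
        exact finiteDimensional_vectorSpan_of_finite ℝ hV
      exact Submodule.finiteDimensional_of_le (vectorSpan_mono ℝ (face_subset hF))
    have h1 : vectorSpan ℝ F = ⊥ := Submodule.finrank_eq_zero.1 h0
    have h2 : F = {v} := by
      ext x
      constructor
      · intro hx
        have h3 : x -ᵥ v ∈ vectorSpan ℝ F := vsub_mem_vectorSpan ℝ hx hvF
        rw [h1, Submodule.mem_bot, vsub_eq_sub, sub_eq_zero] at h3
        exact h3
      · rintro rfl
        exact hvF
    refine ⟨v, ?_, h2.symm⟩
    have h3 := (mem_Faces_iff.1 hF).2.isExtreme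
    rw [h2] at h3
    exact isExtreme_singleton.1 h3
  · rintro ⟨v, hv, rfl⟩
    refine ⟨singleton_mem_Faces hV hv, ?_⟩
    unfold dim
    rw [vectorSpan_singleton, finrank_bot]

theorem faceNumber_zero {V : Set E} (hV : V.Finite) :
    faceNumber 0 (convexHull ℝ V) = ((convexHull ℝ V).extremePoints ℝ).ncard := by
  unfold faceNumber
  rw [zero_faces hV, Set.ncard_image_of_injective _ Set.singleton_injective]

end basic

end Pool.Agent.CubOwn
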