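import Mathlib
import Pool.Agent.CubLBC.OwnA

set_option autoImplicit false

/-!
# The faces of the cube, and the labelling of a combinatorial cube
-/

namespace Pool.Agent.CubOwn

open Module

/-- the vertex with the labels `c` -/
noncomputable def vt {m : ℕ} (c : Fin m → Bool) : EuclideanSpace ℝ (Fin m) :=
  WithLp.toLp 2 fun i => if c i then 1 else 0

theorem vt_apply {m : ℕ} (c : Fin m → Bool) (i : Fin m) : vt c i = if c i then 1 else 0 := rfl

theorem vt_mem {m : ℕ} (c : Fin m → Bool) : vt c ∈ cube m := by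
  intro i
  rw [vt_apply]
  split_ifs <;> norm_num

/-- the subcube -/
def sub {m : ℕ} (S : Finset (Fin m)) (c : Fin m → Bool) : Set (EuclideanSpace ℝ (Fin m)) :=
  {x | x ∈ cube m ∧ ∀ i ∈ S, x i = vt c i}

/-- the linear form with the coefficients `a` -/
noncomputable def lin {m : ℕ} (a : Fin m → ℝ) : EuclideanSpace ℝ (Fin m) →L[ℝ] ℝ :=
  ∑ i, a i • (EuclideanSpace.proj i : EuclideanSpace ℝ (Fin m) →L[ℝ] ℝ)

theorem lin_apply {m : ℕ} (a : Fin m → ℝ) (x : EuclideanSpace ℝ (Fin m)) :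
    lin a x = ∑ i, a i * x i := by
  simp [lin]

theorem exists_lin {m : ℕ} (l : EuclideanSpace ℝ (Fin m) →L[ℝ] ℝ) : ∃ a : Fin m → ℝ, l = lin a := by
  refine ⟨fun i => l (EuclideanSpace.single i 1), ?_⟩
  ext x
  rw [lin_apply]
  have h1 : x = ∑ i, x i • (EuclideanSpace.single i (1 : ℝ)) := by
    ext j
    simp [Finset.sum_apply, Pi.single_apply]
  conv_lhs => rw [h1]
  rw [map_sum]
  refine Finset.sum_congr rfl fun i _ => ?_
  rw [map_smul, smul_eq_mul, mul_comm]

/-- maximal points of a linear form on the cube -/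
theorem argmax {m : ℕ} (a : Fin m → ℝ) :
    {x | x ∈ cube m ∧ ∀ y ∈ cube m, lin a y ≤ lin a x} =
      sub (Finset.univ.filter fun i => a i ≠ 0) (fun i => decide (0 < a i)) := by
  have hterm : ∀ (x : EuclideanSpace ℝ (Fin m)), x ∈ cube m → ∀ i,
      a i * x i ≤ a i * vt (fun i => decide (0 < a i)) i := by
    intro x hx i
    rw [vt_apply]
    have h1 := hx i
    by_cases h : 0 < a i
    · rw [if_pos (by simpa using h)]
      nlinarith [h1.2]
    · rw [if_neg (by simpa using h)]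
      nlinarith [h1.1, not_lt.1 h]
  ext x
  constructor
  · rintro ⟨hx, hmax⟩
    refine ⟨hx, fun i hi => ?_⟩
    rw [Finset.mem_filter] at hi
    have h1 := hmax _ (vt_mem fun i => decide (0 < a i))
    rw [lin_apply, lin_apply] at h1
    have h2 : ∑ i, a i * x i = ∑ i, a i * vt (fun i => decide (0 < a i)) i :=
      le_antisymm (Finset.sum_le_sum fun i _ => hterm x hx i) h1
    have h3 := (Finset.sum_eq_sum_iff_of_le (fun i _ => hterm x hx i)).1 h2 i (Finset.mem_univ i)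
    exact mul_left_cancel₀ hi.2 h3
  · rintro ⟨hx, hS⟩
    refine ⟨hx, fun y hy => ?_⟩
    rw [lin_apply, lin_apply]
    refine Finset.sum_le_sum fun i _ => ?_
    by_cases h : a i = 0
    · rw [h, zero_mul, zero_mul]
    · rw [hS i (by simpa using h)]
      exact hterm y hy i

theorem sub_nonempty {m : ℕ} (S : Finset (Fin m)) (c : Fin m → Bool) : vt c ∈ sub S c :=
  ⟨vt_mem c, fun _ _ => rfl⟩

theorem sub_mem_Faces {m : ℕ} (S : Finset (Fin m)) (c : Fin m → Bool) :
    sub S c ∈ Faces (cube m) := by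
  classical
  refine ⟨⟨_, sub_nonempty S c⟩,
    lin fun i => if i ∈ S then (if c i then 1 else -1) else 0, ?_⟩
  rw [argmax]
  ext x
  constructor
  · rintro ⟨hx, h⟩
    refine ⟨hx, fun i hi => ?_⟩
    rw [Finset.mem_filter] at hi
    by_cases hiS : i ∈ S
    · rw [h i hiS, vt_apply, vt_apply]
      cases hc : c i <;> simp [hiS]
    · exact absurd (by simp [hiS]) hi.2
  · rintro ⟨hx, h⟩
    refine ⟨hx, fun i hi => ?_⟩
    have h1 : i ∈ Finset.univ.filter fun i =>
        (if i ∈ S then (if c i then (1:ℝ) else -1) else 0) ≠ 0 := by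
      rw [Finset.mem_filter]
      refine ⟨Finset.mem_univ i, ?_⟩
      rw [if_pos hi]
      split_ifs <;> norm_num
    rw [h i h1, vt_apply, vt_apply]
    cases hc : c i <;> simp [hi]

theorem exists_sub {m : ℕ} {G : Set (EuclideanSpace ℝ (Fin m))} (hG : G ∈ Faces (cube m)) :
    ∃ S c, G = sub S c := by
  obtain ⟨_, l, hl⟩ := hG
  obtain ⟨a, rfl⟩ := exists_lin l
  exact ⟨_, _, hl.trans (argmax a)⟩

theorem sub_univ {m : ℕ} (c : Fin m → Bool) : sub Finset.univ c = {vt c} := by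
  ext x
  constructor
  · rintro ⟨_, h⟩
    rw [Set.mem_singleton_iff]
    ext i
    exact h i (Finset.mem_univ i)
  · rintro rfl
    exact sub_nonempty _ c

theorem vt_mem_sub {m : ℕ} {S : Finset (Fin m)} {c x : Fin m → Bool} :
    vt x ∈ sub S c ↔ ∀ i ∈ S, x i = c i := by
  constructor
  · rintro ⟨_, h⟩ i hi
    have h1 := h i hi
    rw [vt_apply, vt_apply] at h1
    cases hx : x i <;> cases hc : c i <;> simp [hx, hc] at h1 ⊢
  · intro h
    refine ⟨vt_mem x, fun i hi => ?_⟩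
    rw [vt_apply, vt_apply, h i hi]

theorem vt_injective {m : ℕ} : Function.Injective (vt (m := m)) := by
  intro x y h
  funext i
  have h1 := congrArg (fun z : EuclideanSpace ℝ (Fin m) => z i) h
  simp only [vt_apply] at h1
  cases hx : x i <;> cases hc : y i <;> simp [hx, hc] at h1 ⊢

/-- the labelling of the vertices of a combinatorial cube -/
theorem exists_label {E : Type*} [NormedAddCommGroup E] [NormedSpace ℝ E] {V F : Set E}
    (hV : V.Finite) (hext : (convexHull ℝ V).extremePoints ℝ = V)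
    (hF : F ∈ Faces (convexHull ℝ V)) {m : ℕ} (hc : CombEquiv F (cube m)) :
    ∃ e : E → (Fin m → Bool),
      Set.BijOn e (V ∩ F) Set.univ ∧
      (∀ G ∈ Faces (convexHull ℝ V), G ⊆ F →
        ∃ S : Finset (Fin m), ∃ c : Fin m → Bool, e '' (V ∩ G) = {x | ∀ i ∈ S, x i = c i}) ∧
      (∀ S : Finset (Fin m), ∀ c : Fin m → Bool,
        ∃ G ∈ Faces (convexHull ℝ V), G ⊆ F ∧ e '' (V ∩ G) = {x | ∀ i ∈ S, x i = c i}) := by
  classical
  obtain ⟨θ⟩ := hc
  have hmem : ∀ G, G ∈ Faces F ↔ G ∈ Faces (convexHull ℝ V) ∧ G ⊆ F := by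
    intro G
    rw [Faces_face hV hF]
    exact Iff.rfl
  have hsing : ∀ v ∈ V ∩ F, ({v} : Set E) ∈ Faces F := by
    rintro v ⟨hv, hvF⟩
    rw [hmem]
    refine ⟨singleton_mem_Faces hV (by rw [hext]; exact hv), Set.singleton_subset_iff.2 hvF⟩
  -- the vertex belonging to `v`
  have hex : ∀ v (hv : v ∈ V ∩ F), ∃ c : Fin m → Bool, (θ ⟨{v}, hsing v hv⟩).1 = {vt c} := by
    intro v hv
    obtain ⟨S, c, hSc⟩ := exists_sub (θ ⟨{v}, hsing v hv⟩).2
    refine ⟨c, ?_⟩
    have h1 : (⟨sub Finset.univ c, sub_mem_Faces _ c⟩ : {G // G ∈ Faces (cube m)}) ≤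
        θ ⟨{v}, hsing v hv⟩ := by
      show sub Finset.univ c ⊆ (θ ⟨{v}, hsing v hv⟩).1
      rw [hSc, sub_univ, Set.singleton_subset_iff]
      exact sub_nonempty S c
    have h2 : θ.symm ⟨sub Finset.univ c, sub_mem_Faces _ c⟩ ≤ ⟨{v}, hsing v hv⟩ := by
      rw [OrderIso.symm_apply_le]
      exact h1
    have h3 : θ.symm ⟨sub Finset.univ c, sub_mem_Faces _ c⟩ = ⟨{v}, hsing v hv⟩ := by
      apply Subtype.ext
      have h4 : (θ.symm ⟨sub Finset.univ c, sub_mem_Faces _ c⟩ : Set E) ⊆ {v} := h2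
      rcases Set.subset_singleton_iff_eq.1 h4 with h5 | h5
      · exfalso
        have h6 := ((θ.symm ⟨sub Finset.univ c, sub_mem_Faces _ c⟩).2).1
        rw [h5] at h6
        exact Set.not_nonempty_empty h6
      · exact h5
    rw [← h3, OrderIso.apply_symm_apply]
    exact sub_univ c
  choose! lab hlab using fun v => (show ∃ c : Fin m → Bool, ∀ hv : v ∈ V ∩ F,
      (θ ⟨{v}, hsing v hv⟩).1 = {vt c} by
    by_cases hv : v ∈ V ∩ F
    · obtain ⟨c, hc⟩ := hex v hv
      exact ⟨c, fun _ => hc⟩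
    · exact ⟨fun _ => false, fun h => absurd h hv⟩)
  -- membership in faces
  have hin : ∀ v (hv : v ∈ V ∩ F) (G : {G // G ∈ Faces F}) (S : Finset (Fin m)) (c : Fin m → Bool),
      (θ G).1 = sub S c → (v ∈ (G : Set E) ↔ ∀ i ∈ S, lab v i = c i) := by
    intro v hv G S c hG
    have h1 : v ∈ (G : Set E) ↔ (⟨{v}, hsing v hv⟩ : {G // G ∈ Faces F}) ≤ G := by
      show _ ↔ ({v} : Set E) ⊆ G
      rw [Set.singleton_subset_iff]
    rw [h1, ← θ.le_iff_le]
    show (θ ⟨{v}, hsing v hv⟩).1 ⊆ (θ G).1 ↔ _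
    rw [hlab v hv, hG, Set.singleton_subset_iff, vt_mem_sub]
  have hsurj : ∀ x : Fin m → Bool, ∃ v ∈ V ∩ F, lab v = x := by
    intro x
    set G := θ.symm ⟨sub Finset.univ x, sub_mem_Faces _ x⟩ with hG
    have hG1 := (hmem G).1 G.2
    obtain ⟨v, hvV, hvG⟩ := face_has_vertex hV hG1.1
    have hv : v ∈ V ∩ F := ⟨hvV, hG1.2 hvG⟩
    refine ⟨v, hv, ?_⟩
    have h1 := (hin v hv G Finset.univ x (by rw [hG, OrderIso.apply_symm_apply])).1 hvG
    funext i
    exact h1 i (Finset.mem_univ i)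
  have hinj : ∀ v ∈ V ∩ F, ∀ w ∈ V ∩ F, lab v = lab w → v = w := by
    intro v hv w hw h
    have h1 : θ ⟨{v}, hsing v hv⟩ = θ ⟨{w}, hsing w hw⟩ := by
      apply Subtype.ext
      rw [hlab v hv, hlab w hw, h]
    have h2 := congrArg Subtype.val (θ.injective h1)
    exact Set.singleton_injective h2
  have himg : ∀ (G : {G // G ∈ Faces F}) (S : Finset (Fin m)) (c : Fin m → Bool),
      (θ G).1 = sub S c → lab '' (V ∩ (G : Set E)) = {x | ∀ i ∈ S, x i = c i} := by
    intro G S c hG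
    have hG1 := (hmem G).1 G.2
    ext x
    constructor
    · rintro ⟨v, ⟨hvV, hvG⟩, rfl⟩
      exact (hin v ⟨hvV, hG1.2 hvG⟩ G S c hG).1 hvG
    · intro hx
      obtain ⟨v, hv, rfl⟩ := hsurj x
      exact ⟨v, ⟨hv.1, (hin v hv G S c hG).2 hx⟩, rfl⟩
  refine ⟨lab, ⟨fun v _ => Set.mem_univ _, fun v hv w hw h => hinj v hv w hw h, ?_⟩, ?_, ?_⟩
  · rintro x -
    obtain ⟨v, hv, h⟩ := hsurj x
    exact ⟨v, hv, h⟩
  · intro G hG hGF
    set G' : {G // G ∈ Faces F} := ⟨G, (hmem G).2 ⟨hG, hGF⟩⟩ with hG'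
    obtain ⟨S, c, hSc⟩ := exists_sub (θ G').2
    exact ⟨S, c, himg G' S c hSc⟩
  · intro S c
    set G := θ.symm ⟨sub S c, sub_mem_Faces S c⟩ with hG
    have hG1 := (hmem G).1 G.2
    exact ⟨G, hG1.1, hG1.2, himg G S c (by rw [hG, OrderIso.apply_symm_apply])⟩

end Pool.Agent.CubOwn
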