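import Pool.Agent.CubLBC.PolyRidge

set_option autoImplicit false

namespace Pool.Agent.CubLBC

open Finset Module Pool.Agent.Convex97

variable {n : ℕ} {V : Finset (Eu n)} {ι : Type} [Fintype ι] (D : PD V ι)

/-- The facets containing a given face are connected through ridges. -/
theorem pchain (hlab : ∀ i, ∃ c : Lab V n, IsLab (pFace V) n (D.fac i) c) :
    ∀ A ∈ pFace V, ∀ i j, A ⊆ D.fac i → A ⊆ D.fac j →
    Relation.ReflTransGen
      (fun p q => A ⊆ D.fac q ∧ (p ≠ q → (D.fac p ∩ D.fac q).ncard = 2 ^ (n - 1))) i j := by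
  intro A hA i j hi hj
  obtain ⟨r, -, hr, hact⟩ := exists_active D hA
  have h := facet_chain D.f D.b D.o D.ho D.hirr r hr i j ((hact i).2 hi) ((hact j).2 hj)
  refine Relation.ReflTransGen.mono ?_ _ _ h
  rintro p q ⟨hq, x, hxp, hxq, hx⟩
  exact ⟨(hact q).1 hq, fun hpq => pcodim D hlab p q hpq x hxp hxq hx⟩

/-- All facets are connected through ridges. -/
theorem pgchain (hn : 1 ≤ n) (hlab : ∀ i, ∃ c : Lab V n, IsLab (pFace V) n (D.fac i) c) :
    ∀ i j, Relation.ReflTransGen
      (fun p q => p ≠ q → (D.fac p ∩ D.fac q).ncard = 2 ^ (n - 1)) i j := by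
  intro i j
  have hE : 2 ≤ finrank ℝ (Eu n) := by
    rw [finrank_Eu]
    omega
  have hb : Bornology.IsBounded (hp D.f D.b) := by
    rw [← D.hP]
    exact isBounded_hull V
  have h := facet_gchain hE D.f D.b D.o D.ho D.hirr hb i j
  refine Relation.ReflTransGen.mono ?_ _ _ h
  rintro p q ⟨x, hxp, hxq, hx⟩ hpq
  exact pcodim D hlab p q hpq x hxp hxq hx

end Pool.Agent.CubLBC
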