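import Pool.Agent.CubLBC.PolyDim

set_option autoImplicit false

namespace Pool.Agent.CubLBC

open Finset Module Pool.Agent.Convex97

variable {n : ℕ} {V : Finset (Eu n)} {ι : Type} [Fintype ι] (D : PD V ι)

theorem pcount (hlab : ∀ i, ∃ c : Lab V n, IsLab (pFace V) n (D.fac i) c) (k : ℕ) (hk : 1 ≤ k)
    (hkn : k ≤ n) :
    Set.ncard {A : Set V | A ∈ pFace V ∧ (∃ i, A ⊆ D.fac i) ∧ A.ncard = 2 ^ k} ≤
      Set.ncard {F : Set (EuclideanSpace ℝ (Fin (n + 1))) | F.Nonempty ∧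
        IsExposed ℝ (convexHull ℝ (V : Set (EuclideanSpace ℝ (Fin (n + 1))))) F ∧
        Module.finrank ℝ (affineSpan ℝ F).direction = k} := by
  have hfin : {F : Set (EuclideanSpace ℝ (Fin (n + 1))) | F.Nonempty ∧
        IsExposed ℝ (convexHull ℝ (V : Set (EuclideanSpace ℝ (Fin (n + 1))))) F ∧
        Module.finrank ℝ (affineSpan ℝ F).direction = k}.Finite := by
    apply (Set.toFinite (Set.range (fun A : Set V => (hul A : Set (Eu n))))).subset
    rintro F ⟨hne, hF, -⟩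
    exact ⟨{v : V | (v : Eu n) ∈ F}, hul_eq hne hF⟩
  apply Set.ncard_le_ncard_of_injOn (fun A : Set V => (hul A : Set (Eu n))) _ _ hfin
  · rintro A ⟨hA, ⟨i, hAi⟩, hcard⟩
    have h1 := pFace_hul hA
    refine ⟨h1.1, h1.2.1, ?_⟩
    rw [direction_affineSpan]
    exact pdim D hlab i hA hAi k hcard
  · rintro A ⟨hA, -⟩ B ⟨hB, -⟩ (hAB : hul A = hul B)
    rw [(pFace_hul hA).2.2, (pFace_hul hB).2.2, hAB]

end Pool.Agent.CubLBC
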