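import Pool.Agent.CubLBC.PolyLab
import Pool.Agent.CubLBC.PolyChain
import Pool.Agent.CubLBC.PolyCount

set_option autoImplicit false

namespace Pool.Agent.CubLBC

open Finset Module Pool.Agent.Convex97

/-- From a cubical polytope to face data. -/
theorem exists_faceData (n : ℕ) (hn : 1 ≤ n) (V : Finset (EuclideanSpace ℝ (Fin (n + 1))))
    (hspan : affineSpan ℝ (V : Set (EuclideanSpace ℝ (Fin (n + 1)))) = ⊤)
    (hext : Set.extremePoints ℝ (convexHull ℝ (V : Set (EuclideanSpace ℝ (Fin (n + 1))))) =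
      (V : Set (EuclideanSpace ℝ (Fin (n + 1)))))
    (hcub : ∀ F : Set (EuclideanSpace ℝ (Fin (n + 1))), F.Nonempty →
       IsExposed ℝ (convexHull ℝ (V : Set (EuclideanSpace ℝ (Fin (n + 1))))) F →
       Module.finrank ℝ (affineSpan ℝ F).direction = n →
       ∃ e : EuclideanSpace ℝ (Fin (n + 1)) → (Fin n → Bool),
         Set.BijOn e ((V : Set (EuclideanSpace ℝ (Fin (n + 1)))) ∩ F) Set.univ ∧
         (∀ G : Set (EuclideanSpace ℝ (Fin (n + 1))), G.Nonempty →
            IsExposed ℝ (convexHull ℝ (V : Set (EuclideanSpace ℝ (Fin (n + 1))))) G → G ⊆ F →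
            ∃ S : Finset (Fin n), ∃ c : Fin n → Bool,
              e '' ((V : Set (EuclideanSpace ℝ (Fin (n + 1)))) ∩ G) = {x | ∀ i ∈ S, x i = c i}) ∧
         (∀ S : Finset (Fin n), ∀ c : Fin n → Bool,
            ∃ G : Set (EuclideanSpace ℝ (Fin (n + 1))), G.Nonempty ∧
              IsExposed ℝ (convexHull ℝ (V : Set (EuclideanSpace ℝ (Fin (n + 1))))) G ∧ G ⊆ F ∧
              e '' ((V : Set (EuclideanSpace ℝ (Fin (n + 1)))) ∩ G) = {x | ∀ i ∈ S, x i = c i})) :
    ∃ (ι : Type) (_ : Nonempty ι) (D : FaceData V ι n), ∀ k : ℕ, 1 ≤ k → k ≤ n →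
      Set.ncard {A : Set V | A ∈ D.Face ∧ (∃ i, A ⊆ D.fac i) ∧ A.ncard = 2 ^ k} ≤
      Set.ncard {F : Set (EuclideanSpace ℝ (Fin (n + 1))) | F.Nonempty ∧
        IsExposed ℝ (convexHull ℝ (V : Set (EuclideanSpace ℝ (Fin (n + 1))))) F ∧
        Module.finrank ℝ (affineSpan ℝ F).direction = k} := by
  classical
  obtain ⟨ι, hfin, ⟨D⟩, hne⟩ := exists_PD V hspan hext
  have hlab := plab D hcub
  let FD : FaceData V ι n :=
    { fac := D.fac
      Face := pFace V
      inter := pinter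
      fac_mem := fac_mem D
      lab := hlab
      two := ptwo D hn hlab
      chain := pchain D hlab
      gchain := pgchain D hn hlab
      cover := pcover D }
  refine ⟨ι, hne, FD, fun k hk hkn => ?_⟩
  exact pcount D hlab k hk hkn

end Pool.Agent.CubLBC
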