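import Mathlib
import Pool.Agent.CubLBC.OwnB
import Pool.Agent.CubLBC.PolyC
import Pool.Agent.CubLBC.FaceC
import Pool.Agent.CubLBC.CFinal

set_option autoImplicit false

/-!
# The inequalities for a full-dimensional polytope, and the passage to its affine hull
-/

namespace Pool.Agent.CubOwn

open Module

/-- the inequalities for a full-dimensional polytope with labelled facets -/
theorem core :
  ∀ (d : ℕ), 2 ≤ d → ∀ (V : Finset (EuclideanSpace ℝ (Fin d))),
    affineSpan ℝ (V : Set (EuclideanSpace ℝ (Fin d))) = ⊤ →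
    Set.extremePoints ℝ (convexHull ℝ (V : Set (EuclideanSpace ℝ (Fin d)))) = (V : Set (EuclideanSpace ℝ (Fin d))) →
    (∀ F : Set (EuclideanSpace ℝ (Fin d)), F.Nonempty →
       IsExposed ℝ (convexHull ℝ (V : Set (EuclideanSpace ℝ (Fin d)))) F →
       Module.finrank ℝ (affineSpan ℝ F).direction = d - 1 →
       ∃ e : EuclideanSpace ℝ (Fin d) → (Fin (d - 1) → Bool),
         Set.BijOn e ((V : Set (EuclideanSpace ℝ (Fin d))) ∩ F) Set.univ ∧
         (∀ G : Set (EuclideanSpace ℝ (Fin d)), G.Nonempty →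
            IsExposed ℝ (convexHull ℝ (V : Set (EuclideanSpace ℝ (Fin d)))) G → G ⊆ F →
            ∃ S : Finset (Fin (d - 1)), ∃ c : Fin (d - 1) → Bool,
              e '' ((V : Set (EuclideanSpace ℝ (Fin d))) ∩ G) = {x | ∀ i ∈ S, x i = c i}) ∧
         (∀ S : Finset (Fin (d - 1)), ∀ c : Fin (d - 1) → Bool,
            ∃ G : Set (EuclideanSpace ℝ (Fin d)), G.Nonempty ∧
              IsExposed ℝ (convexHull ℝ (V : Set (EuclideanSpace ℝ (Fin d)))) G ∧ G ⊆ F ∧
              e '' ((V : Set (EuclideanSpace ℝ (Fin d))) ∩ G) = {x | ∀ i ∈ S, x i = c i})) →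
    (∀ k : ℕ, 1 ≤ k → k ≤ d - 2 →
       ((Nat.choose d k : ℝ) + (Nat.choose (d - 1) (k - 1) : ℝ)) / 2 ^ k * (V.card : ℝ)
           - (Nat.choose (d - 1) (k - 1) : ℝ) * 2 ^ (d - k)
         ≤ ((Set.ncard {F : Set (EuclideanSpace ℝ (Fin d)) | F.Nonempty ∧
               IsExposed ℝ (convexHull ℝ (V : Set (EuclideanSpace ℝ (Fin d)))) F ∧
               Module.finrank ℝ (affineSpan ℝ F).direction = k} : ℕ) : ℝ)) ∧
    ((2 * (d : ℝ) - 2) / 2 ^ (d - 1) * (V.card : ℝ) - (2 * (d : ℝ) - 4)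
      ≤ ((Set.ncard {F : Set (EuclideanSpace ℝ (Fin d)) | F.Nonempty ∧
             IsExposed ℝ (convexHull ℝ (V : Set (EuclideanSpace ℝ (Fin d)))) F ∧
             Module.finrank ℝ (affineSpan ℝ F).direction = d - 1} : ℕ) : ℝ)) := by
  intro d hd V hspan hext hcub
  obtain ⟨n, rfl⟩ : ∃ n, d = n + 1 := ⟨d - 1, by omega⟩
  have hn : 1 ≤ n := by omega
  obtain ⟨ι, ⟨i0⟩, D, hD⟩ := Pool.Agent.CubLBC.exists_faceData n hn V hspan hext hcub
  have hne : (D.cx hn).F.Nonempty := by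
    obtain ⟨c, hc⟩ := D.lab i0
    exact ⟨c, i0, hc⟩
  have hcard : (Fintype.card V : ℝ) = (V.card : ℝ) := by rw [Fintype.card_coe]
  have key : ∀ k : ℕ, 1 ≤ k → k ≤ n → (((D.cx hn).frames k).card : ℝ) ≤
      2 ^ k * (k.factorial : ℝ) * ((Set.ncard {F : Set (EuclideanSpace ℝ (Fin (n + 1))) | F.Nonempty ∧
             IsExposed ℝ (convexHull ℝ (V : Set (EuclideanSpace ℝ (Fin (n + 1))))) F ∧
             Module.finrank ℝ (affineSpan ℝ F).direction = k} : ℕ) : ℝ) := by
    intro k hk1 hkn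
    have h1 := D.frames_le hn k hkn
    have h2 := hD k hk1 hkn
    have h3 := h1.trans (Nat.mul_le_mul_left _ h2)
    exact_mod_cast h3
  constructor
  · intro k hk1 hk2
    have hn2 : 2 ≤ n := by omega
    have hkn : k + 1 ≤ n := by omega
    have h1 := Pool.Agent.CubLBC.cub_faces hn2 (D.cx hn) (D.cx_isVert hn) (D.cx_sim hn) hne k hk1 hkn
    have h2 := h1.trans (key k hk1 (by omega))
    rw [hcard] at h2
    have hfac : (0 : ℝ) < (k.factorial : ℝ) := by exact_mod_cast k.factorial_pos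
    have h2k : (0 : ℝ) < 2 ^ k := by positivity
    have hpow : (2 : ℝ) ^ (n + 1) = 2 ^ k * 2 ^ (n + 1 - k) := by
      rw [← pow_add]
      congr 1
      omega
    rw [hpow] at h2
    have e1 : n + 1 - 1 = n := rfl
    rw [e1]
    set N := ((Set.ncard {F : Set (EuclideanSpace ℝ (Fin (n + 1))) | F.Nonempty ∧
             IsExposed ℝ (convexHull ℝ (V : Set (EuclideanSpace ℝ (Fin (n + 1))))) F ∧
             Module.finrank ℝ (affineSpan ℝ F).direction = k} : ℕ) : ℝ) with hN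
    have h3 : ((Nat.choose (n + 1) k : ℝ) + (Nat.choose n (k - 1) : ℝ)) * (V.card : ℝ)
        - (Nat.choose n (k - 1) : ℝ) * (2 ^ k * 2 ^ (n + 1 - k)) ≤ 2 ^ k * N := by
      have h4 : (k.factorial : ℝ) * (((Nat.choose (n + 1) k : ℝ) + (Nat.choose n (k - 1) : ℝ)) *
          (V.card : ℝ) - (Nat.choose n (k - 1) : ℝ) * (2 ^ k * 2 ^ (n + 1 - k))) ≤
          (k.factorial : ℝ) * (2 ^ k * N) := by
        calc _ ≤ _ := h2
          _ = _ := by ring
      exact le_of_mul_le_mul_left h4 hfac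
    have h5 : ((Nat.choose (n + 1) k : ℝ) + (Nat.choose n (k - 1) : ℝ)) / 2 ^ k * (V.card : ℝ)
        - (Nat.choose n (k - 1) : ℝ) * 2 ^ (n + 1 - k) =
        (((Nat.choose (n + 1) k : ℝ) + (Nat.choose n (k - 1) : ℝ)) * (V.card : ℝ)
        - (Nat.choose n (k - 1) : ℝ) * (2 ^ k * 2 ^ (n + 1 - k))) / 2 ^ k := by
      field_simp
    rw [h5, div_le_iff₀ h2k]
    linarith
  · have h1 := Pool.Agent.CubLBC.cub_facets hn (D.cx hn) (D.cx_isVert hn) (D.cx_sim hn) hne
    have h2 := h1.trans (key n hn le_rfl)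
    rw [hcard] at h2
    have hfac : (0 : ℝ) < (n.factorial : ℝ) := by exact_mod_cast n.factorial_pos
    have h2k : (0 : ℝ) < 2 ^ n := by positivity
    have e1 : n + 1 - 1 = n := rfl
    rw [e1]
    set N := ((Set.ncard {F : Set (EuclideanSpace ℝ (Fin (n + 1))) | F.Nonempty ∧
             IsExposed ℝ (convexHull ℝ (V : Set (EuclideanSpace ℝ (Fin (n + 1))))) F ∧
             Module.finrank ℝ (affineSpan ℝ F).direction = n} : ℕ) : ℝ) with hN
    have h3 : 2 * (n : ℝ) * (V.card : ℝ) - ((n : ℝ) - 1) * 2 ^ (n + 1) ≤ 2 ^ n * N := by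
      have h4 : (n.factorial : ℝ) * (2 * (n : ℝ) * (V.card : ℝ) - ((n : ℝ) - 1) * 2 ^ (n + 1)) ≤
          (n.factorial : ℝ) * (2 ^ n * N) := by
        calc _ ≤ _ := h2
          _ = _ := by ring
      exact le_of_mul_le_mul_left h4 hfac
    push_cast
    have h5 : (2 * ((n : ℝ) + 1) - 2) / 2 ^ n * (V.card : ℝ) - (2 * ((n : ℝ) + 1) - 4) =
        (2 * (n : ℝ) * (V.card : ℝ) - ((n : ℝ) - 1) * 2 ^ (n + 1)) / 2 ^ n := by
      rw [pow_succ]
      field_simp
      ring
    rw [h5, div_le_iff₀ h2k]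
    linarith

section transport

variable {E E' : Type*} [NormedAddCommGroup E] [NormedSpace ℝ E] [NormedAddCommGroup E']
  [NormedSpace ℝ E'] [FiniteDimensional ℝ E] [FiniteDimensional ℝ E']

theorem image_mem_Faces {φ : E' →ᵃ[ℝ] E} (hφ : Function.Injective φ) {P' G : Set E'} :
    φ '' G ∈ Faces (φ '' P') ↔ G ∈ Faces P' := by
  have hlin : Function.Injective φ.linear := φ.linear_injective_iff.2 hφ
  have hval : ∀ (l : E →L[ℝ] ℝ) (x : E'), l (φ x) = l (φ.linear x) + l (φ 0) := by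
    intro l x
    rw [← map_add]
    congr 1
    have := φ.map_vadd 0 x
    simpa using this
  constructor
  · rintro ⟨⟨_, x, hx, rfl⟩, l, hl⟩
    refine ⟨⟨x, hx⟩, l.comp φ.linear.toContinuousLinearMap, ?_⟩
    ext y
    have h1 : y ∈ G ↔ φ y ∈ φ '' G := (hφ.mem_set_image).symm
    rw [h1, hl]
    constructor
    · rintro ⟨h2, h3⟩
      refine ⟨hφ.mem_set_image.1 h2, fun z hz => ?_⟩
      have h4 := h3 (φ z) ⟨z, hz, rfl⟩
      rw [hval, hval l y] at h4
      show l (φ.linear z) ≤ l (φ.linear y)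
      linarith
    · rintro ⟨h2, h3⟩
      refine ⟨⟨y, h2, rfl⟩, ?_⟩
      rintro _ ⟨z, hz, rfl⟩
      have h4 : l (φ.linear z) ≤ l (φ.linear y) := h3 z hz
      rw [hval, hval l y]
      linarith
  · rintro ⟨⟨x, hx⟩, l, hl⟩
    obtain ⟨g, hg⟩ := φ.linear.exists_leftInverse_of_injective (LinearMap.ker_eq_bot.2 hlin)
    refine ⟨⟨φ x, x, hx, rfl⟩, l.comp g.toContinuousLinearMap, ?_⟩
    have hg' : ∀ z, g (φ.linear z) = z := fun z => by
      have := congrArg (fun h => h z) hg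
      simpa using this
    have hval2 : ∀ z, (l.comp g.toContinuousLinearMap) (φ z) =
        l z + (l.comp g.toContinuousLinearMap) (φ 0) := by
      intro z
      rw [hval]
      congr 1
      show l (g (φ.linear z)) = l z
      rw [hg']
    ext y
    constructor
    · rintro ⟨z, hz, rfl⟩
      rw [hl] at hz
      refine ⟨⟨z, hz.1, rfl⟩, ?_⟩
      rintro _ ⟨w, hw, rfl⟩
      rw [hval2, hval2 z]
      have := hz.2 w hw
      linarith
    · rintro ⟨⟨z, hz, rfl⟩, h3⟩
      refine ⟨z, ?_, rfl⟩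
      rw [hl]
      refine ⟨hz, fun w hw => ?_⟩
      have h4 := h3 (φ w) ⟨w, hw, rfl⟩
      rw [hval2, hval2 z] at h4
      linarith

theorem exists_preimage_face {φ : E' →ᵃ[ℝ] E} (hφ : Function.Injective φ) {P' : Set E'}
    {F : Set E} (hF : F ∈ Faces (φ '' P')) : ∃ G ∈ Faces P', φ '' G = F := by
  have h1 : φ '' (φ ⁻¹' F) = F := by
    rw [Set.image_preimage_eq_iff]
    exact (face_subset hF).trans (Set.image_subset_range _ _)
  exact ⟨φ ⁻¹' F, (image_mem_Faces hφ).1 (by rw [h1]; exact hF), h1⟩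

omit [FiniteDimensional ℝ E] [FiniteDimensional ℝ E'] in
theorem dim_image {φ : E' →ᵃ[ℝ] E} (hφ : Function.Injective φ) (G : Set E') :
    dim (φ '' G) = dim G := by
  have hlin : Function.Injective φ.linear := φ.linear_injective_iff.2 hφ
  unfold dim
  rw [← φ.map_vectorSpan]
  exact ((Submodule.equivMapOfInjective φ.linear hlin (vectorSpan ℝ G)).finrank_eq).symm

theorem faceNumber_image {φ : E' →ᵃ[ℝ] E} (hφ : Function.Injective φ) (k : ℕ) (P' : Set E') :
    faceNumber k (φ '' P') = faceNumber k P' := by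
  unfold faceNumber
  have h1 : {F | F ∈ Faces (φ '' P') ∧ dim F = k} =
      (fun G => φ '' G) '' {G | G ∈ Faces P' ∧ dim G = k} := by
    ext F
    constructor
    · rintro ⟨hF, hk⟩
      obtain ⟨G, hG, rfl⟩ := exists_preimage_face hφ hF
      rw [dim_image hφ] at hk
      exact ⟨G, ⟨hG, hk⟩, rfl⟩
    · rintro ⟨G, ⟨hG, hk⟩, rfl⟩
      exact ⟨(image_mem_Faces hφ).2 hG, by rw [dim_image hφ]; exact hk⟩
  rw [h1, Set.ncard_image_of_injective _ (Set.image_injective.2 hφ)]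

/-- the faces of the image -/
noncomputable def facesIso {φ : E' →ᵃ[ℝ] E} (hφ : Function.Injective φ) (P' : Set E') :
    {G // G ∈ Faces P'} ≃o {F // F ∈ Faces (φ '' P')} where
  toFun G := ⟨φ '' G.1, (image_mem_Faces hφ).2 G.2⟩
  invFun F := ⟨φ ⁻¹' F.1, (image_mem_Faces hφ).1 (by
    have h1 : φ '' (φ ⁻¹' F.1) = F.1 := by
      rw [Set.image_preimage_eq_iff]
      exact (face_subset F.2).trans (Set.image_subset_range _ _)
    rw [h1]
    exact F.2)⟩
  left_inv G := Subtype.ext (Set.preimage_image_eq _ hφ)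
  right_inv F := Subtype.ext (by
    show φ '' (φ ⁻¹' F.1) = F.1
    rw [Set.image_preimage_eq_iff]
    exact (face_subset F.2).trans (Set.image_subset_range _ _))
  map_rel_iff' := by
    intro G G'
    show φ '' G.1 ⊆ φ '' G'.1 ↔ G.1 ⊆ G'.1
    exact Set.image_subset_image_iff hφ

theorem combEquiv_image {E'' : Type*} [NormedAddCommGroup E''] [NormedSpace ℝ E'']
    {φ : E' →ᵃ[ℝ] E} (hφ : Function.Injective φ) {P' : Set E'} {Q : Set E''}
    (h : CombEquiv (φ '' P') Q) : CombEquiv P' Q := by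
  obtain ⟨θ⟩ := h
  exact ⟨(facesIso hφ P').trans θ⟩

end transport

theorem dim_convexHull {E : Type*} [NormedAddCommGroup E] [NormedSpace ℝ E] (V : Set E) :
    dim (convexHull ℝ V) = dim V := by
  unfold dim
  rw [← direction_affineSpan, affineSpan_convexHull, direction_affineSpan]

/-- every polytope is the image of a full-dimensional one -/
theorem exists_full {N d : ℕ} {P : Set (EuclideanSpace ℝ (Fin N))} (hP : IsPolytope d P) :
    ∃ (φ : EuclideanSpace ℝ (Fin d) →ᵃ[ℝ] EuclideanSpace ℝ (Fin N)) (V : Finset (EuclideanSpace ℝ (Fin d))),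
      Function.Injective φ ∧ P = φ '' convexHull ℝ (V : Set (EuclideanSpace ℝ (Fin d))) ∧
      affineSpan ℝ (V : Set (EuclideanSpace ℝ (Fin d))) = ⊤ ∧
      (convexHull ℝ (V : Set (EuclideanSpace ℝ (Fin d)))).extremePoints ℝ = V := by
  classical
  obtain ⟨⟨p0, hp0⟩, hdim, V₁, hV₁, hPV⟩ := hP
  set V0 := P.extremePoints ℝ with hV0
  have hV0V₁ : V0 ⊆ V₁ := by
    rw [hV0, hPV]
    exact extremePoints_convexHull_subset
  have hV0fin : V0.Finite := hV₁.subset hV0V₁
  have hhull : convexHull ℝ V0 = P := by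
    rw [hV0, hPV]
    exact hull_extreme hV₁
  -- the parametrisation of the affine hull
  have hfr : finrank ℝ (EuclideanSpace ℝ (Fin d)) = finrank ℝ (vectorSpan ℝ P) := by
    rw [finrank_euclideanSpace_fin]
    exact hdim.symm
  let ψ : EuclideanSpace ℝ (Fin d) ≃ₗ[ℝ] vectorSpan ℝ P := LinearEquiv.ofFinrankEq _ _ hfr
  let ψ' : EuclideanSpace ℝ (Fin d) →ₗ[ℝ] EuclideanSpace ℝ (Fin N) :=
    (vectorSpan ℝ P).subtype ∘ₗ ψ.toLinearMap
  let φ : EuclideanSpace ℝ (Fin d) →ᵃ[ℝ] EuclideanSpace ℝ (Fin N) :=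
    ψ'.toAffineMap + AffineMap.const ℝ _ p0
  have hφv : ∀ x, φ x = (ψ x : EuclideanSpace ℝ (Fin N)) + p0 := fun x => rfl
  have hφ : Function.Injective φ := by
    intro x y h
    rw [hφv, hφv] at h
    exact ψ.injective (Subtype.ext (add_right_cancel h))
  have hrange : ∀ x ∈ P, ∃ y, φ y = x := by
    intro x hx
    have h1 : x -ᵥ p0 ∈ vectorSpan ℝ P := vsub_mem_vectorSpan ℝ hx hp0
    refine ⟨ψ.symm ⟨x -ᵥ p0, h1⟩, ?_⟩
    rw [hφv, LinearEquiv.apply_symm_apply]
    simp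
  have hV0P : V0 ⊆ P := extremePoints_subset
  have himg : φ '' (φ ⁻¹' V0) = V0 := by
    rw [Set.image_preimage_eq_iff]
    intro x hx
    exact hrange x (hV0P hx)
  have hVfin : (φ ⁻¹' V0).Finite := hV0fin.preimage hφ.injOn
  have hco : ((hVfin.toFinset : Finset (EuclideanSpace ℝ (Fin d))) : Set (EuclideanSpace ℝ (Fin d))) =
      φ ⁻¹' V0 := hVfin.coe_toFinset
  have hPimg : P = φ '' convexHull ℝ (φ ⁻¹' V0) := by
    rw [AffineMap.image_convexHull, himg, hhull]
  refine ⟨φ, hVfin.toFinset, hφ, ?_, ?_, ?_⟩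
  · rw [hco]
    exact hPimg
  · rw [hco]
    have h1 : dim (φ ⁻¹' V0) = d := by
      rw [← dim_convexHull, ← dim_image hφ, ← hPimg]
      exact hdim
    have h2 : vectorSpan ℝ (φ ⁻¹' V0) = ⊤ := by
      apply Submodule.eq_top_of_finrank_eq
      rw [finrank_euclideanSpace_fin]
      exact h1
    have h3 : (φ ⁻¹' V0).Nonempty := by
      rw [← convexHull_nonempty_iff (𝕜 := ℝ)]
      rw [hPimg] at hp0
      obtain ⟨y, hy, _⟩ := hp0
      exact ⟨y, hy⟩
    exact (AffineSubspace.affineSpan_eq_top_iff_vectorSpan_eq_top_of_nonempty ℝ _ _ h3).2 h2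
  · rw [hco]
    apply Set.Subset.antisymm extremePoints_convexHull_subset
    intro v hv
    have h1 : φ v ∈ (convexHull ℝ V0).extremePoints ℝ := by
      rw [hhull]
      exact hv
    have h2 := singleton_mem_Faces hV0fin h1
    rw [hhull, ← Set.image_singleton] at h2
    have h3 : φ '' {v} ∈ Faces (φ '' convexHull ℝ (φ ⁻¹' V0)) := by
      rw [← hPimg]
      exact h2
    have h4 := (image_mem_Faces hφ).1 h3
    exact isExtreme_singleton.1 (mem_Faces_iff.1 h4).2.isExtreme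

/-- every facet is combinatorially a cube -/
def IsCubical {E : Type*} [NormedAddCommGroup E] [NormedSpace ℝ E] (d : ℕ) (P : Set E) : Prop :=
  IsPolytope d P ∧ ∀ F ∈ Faces P, dim F = d - 1 → CombEquiv F (cube (d - 1))

theorem set_eq {E : Type*} [NormedAddCommGroup E] [NormedSpace ℝ E] (k : ℕ) (P : Set E) :
    {F : Set E | F.Nonempty ∧ IsExposed ℝ P F ∧
      Module.finrank ℝ (affineSpan ℝ F).direction = k} = {F | F ∈ Faces P ∧ dim F = k} := by
  ext F
  show (F.Nonempty ∧ IsExposed ℝ P F ∧ Module.finrank ℝ (affineSpan ℝ F).direction = k) ↔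
    (F ∈ Faces P ∧ dim F = k)
  rw [mem_Faces_iff, direction_affineSpan, and_assoc]
  rfl

theorem two_vertices {N : ℕ} {P : Set (EuclideanSpace ℝ (Fin N))} (hP : IsPolytope 1 P) :
    2 ≤ faceNumber 0 P := by
  obtain ⟨-, hdim, V, hV, rfl⟩ := hP
  rw [faceNumber_zero hV]
  by_contra hcon
  have hfin : ((convexHull ℝ V).extremePoints ℝ).Finite :=
    hV.subset extremePoints_convexHull_subset
  have h1 : ((convexHull ℝ V).extremePoints ℝ).ncard ≤ 1 := by omega
  rw [Set.ncard_le_one hfin] at h1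
  have h2 : ((convexHull ℝ V).extremePoints ℝ).Subsingleton := fun x hx y hy => h1 x hx y hy
  have h3 : dim ((convexHull ℝ V).extremePoints ℝ) = 1 := by
    rw [← dim_convexHull, hull_extreme hV]
    exact hdim
  unfold dim at h3
  rw [vectorSpan_of_subsingleton ℝ h2, finrank_bot] at h3
  exact absurd h3 (by norm_num)

theorem main (N d : ℕ) (P : Set (EuclideanSpace ℝ (Fin N))) (hd : 1 ≤ d) (hP : IsCubical d P) :
    (∀ k : ℕ, 1 ≤ k → k + 2 ≤ d →
      ((d.choose k : ℝ) + ((d - 1).choose (k - 1) : ℝ)) / 2 ^ k * (faceNumber 0 P : ℝ)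
        - ((d - 1).choose (k - 1) : ℝ) * 2 ^ (d - k) ≤ (faceNumber k P : ℝ)) ∧
    ((2 * (d : ℝ) - 2) / 2 ^ (d - 1) * (faceNumber 0 P : ℝ) - (2 * (d : ℝ) - 4)
      ≤ (faceNumber (d - 1) P : ℝ)) := by
  obtain ⟨hP, hcub⟩ := hP
  rcases Nat.lt_or_ge d 2 with h2 | h2
  · obtain rfl : d = 1 := by omega
    refine ⟨fun k hk1 hk2 => absurd hk2 (by omega), ?_⟩
    have h3 := two_vertices hP
    have h4 : (2 : ℝ) ≤ (faceNumber 0 P : ℝ) := by exact_mod_cast h3
    show (2 * ((1 : ℕ) : ℝ) - 2) / 2 ^ (1 - 1) * (faceNumber 0 P : ℝ) - (2 * ((1 : ℕ) : ℝ) - 4)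
      ≤ (faceNumber 0 P : ℝ)
    norm_num
    linarith
  · obtain ⟨φ, V, hφ, rfl, hspan, hext⟩ := exists_full hP
    have hVf : (V : Set (EuclideanSpace ℝ (Fin d))).Finite := V.finite_toSet
    have hcard : faceNumber 0 (convexHull ℝ (V : Set (EuclideanSpace ℝ (Fin d)))) = V.card := by
      rw [faceNumber_zero hVf, hext, Set.ncard_coe_finset]
    simp only [faceNumber_image hφ]
    rw [hcard]
    have key := core d h2 V hspan hext (by
      intro F hF1 hF2 hF3
      have hF : F ∈ Faces (convexHull ℝ (V : Set (EuclideanSpace ℝ (Fin d)))) :=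
        mem_Faces_iff.2 ⟨hF1, hF2⟩
      have hdF : dim F = d - 1 := by
        rw [direction_affineSpan] at hF3
        exact hF3
      have hc := hcub (φ '' F) ((image_mem_Faces hφ).2 hF) (by rw [dim_image hφ]; exact hdF)
      obtain ⟨e, he1, he2, he3⟩ := exists_label hVf hext hF (combEquiv_image hφ hc)
      refine ⟨e, he1, fun G hG1 hG2 hG3 => he2 G (mem_Faces_iff.2 ⟨hG1, hG2⟩) hG3,
        fun S c => ?_⟩
      obtain ⟨G, hG1, hG2, hG3⟩ := he3 S c
      have hG4 := mem_Faces_iff.1 hG1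
      exact ⟨G, hG4.1, hG4.2, hG2, hG3⟩)
    simp only [set_eq] at key
    exact ⟨fun k hk1 hk2 => key.1 k hk1 (by omega), key.2⟩

end Pool.Agent.CubOwn
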