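import Pool.Agent.CubLBC.Defs
import Pool.Agent.CubLBC.Surf

set_option autoImplicit false

namespace Pool.Agent.CubLBC

open Finset

namespace PSThreeAux

variable {W : Type}

open Classical in
/-- the three edges of a labelled triangle -/
noncomputable def fe (b : Fin 3 → W) : Finset (Sym2 W) :=
  {s(b 0, b 1), s(b 1, b 2), s(b 2, b 0)}

lemma mem_fe (b : Fin 3 → W) (e : Sym2 W) : e ∈ fe b ↔ e = s(b 0, b 1) ∨
    e = s(b 1, b 2) ∨ e = s(b 2, b 0) := by
  unfold fe; simp

lemma mem_fe' (b : Fin 3 → W) (e : Sym2 W) : e ∈ fe b ↔ ∃ i j : Fin 3, i ≠ j ∧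
    e = s(b i, b j) := by
  rw [mem_fe]
  constructor
  · rintro (h | h | h)
    · exact ⟨0, 1, by decide, h⟩
    · exact ⟨1, 2, by decide, h⟩
    · exact ⟨2, 0, by decide, h⟩
  · rintro ⟨i, j, hij, h⟩
    fin_cases i <;> fin_cases j
    · exact absurd rfl hij
    · left; exact h
    · right; right; rw [h]; exact Sym2.eq_swap
    · left; rw [h]; exact Sym2.eq_swap
    · exact absurd rfl hij
    · right; left; exact h
    · right; right; exact h
    · right; left; rw [h]; exact Sym2.eq_swap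
    · exact absurd rfl hij

lemma fe_perm (b : Fin 3 → W) (π : Equiv.Perm (Fin 3)) : fe (b ∘ π) = fe b := by
  ext e
  rw [mem_fe', mem_fe']
  constructor
  · rintro ⟨i, j, hij, h⟩
    exact ⟨π i, π j, fun h' => hij (π.injective h'), h⟩
  · rintro ⟨i, j, hij, h⟩
    refine ⟨π.symm i, π.symm j, fun h' => hij (π.symm.injective h'), ?_⟩
    rw [h]
    simp

lemma exists_perm : ∀ i j : Fin 3, i ≠ j → ∃ π : Equiv.Perm (Fin 3), π 0 = i ∧ π 1 = j := by
  decide

/-- every oriented edge of a triangle can be put into the position `0 → 1` -/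
lemma relabel (S : SimpCx W 3) (b : Fin 3 → W) (hb : b ∈ S.T) (x y : W) (h : s(x, y) ∈ fe b) :
    ∃ b' ∈ S.T, fe b' = fe b ∧ b' 0 = x ∧ b' 1 = y := by
  rw [mem_fe'] at h
  obtain ⟨i, j, hij, h⟩ := h
  rw [Sym2.eq_iff] at h
  rcases h with ⟨rfl, rfl⟩ | ⟨rfl, rfl⟩
  · obtain ⟨π, h0, h1⟩ := exists_perm i j hij
    refine ⟨b ∘ π, S.perm b hb π, fe_perm b π, ?_, ?_⟩
    · simp [h0]
    · simp [h1]
  · obtain ⟨π, h0, h1⟩ := exists_perm j i hij.symm
    refine ⟨b ∘ π, S.perm b hb π, fe_perm b π, ?_, ?_⟩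
    · simp [h0]
    · simp [h1]

lemma distinct (S : SimpCx W 3) (b : Fin 3 → W) (hb : b ∈ S.T) :
    b 0 ≠ b 1 ∧ b 0 ≠ b 2 ∧ b 1 ≠ b 2 := by
  have hi := S.inj b hb
  refine ⟨hi.ne ?_, hi.ne ?_, hi.ne ?_⟩ <;> decide

lemma nodup (S : SimpCx W 3) (b : Fin 3 → W) (hb : b ∈ S.T) :
    (s(b 0, b 1) : Sym2 W) ≠ s(b 1, b 2) ∧ (s(b 0, b 1) : Sym2 W) ≠ s(b 2, b 0) ∧
    (s(b 1, b 2) : Sym2 W) ≠ s(b 2, b 0) := by
  obtain ⟨h1, h2, h3⟩ := distinct S b hb
  refine ⟨?_, ?_, ?_⟩ <;> rw [Ne, Sym2.eq_iff] <;> rintro (⟨h, h'⟩ | ⟨h, h'⟩)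
  · exact h1 h
  · exact h2 h
  · exact h2 h
  · exact h3 h'
  · exact h3 h
  · exact h1 h.symm

open Classical in
/-- sums over the three edges -/
lemma sum_fe (S : SimpCx W 3) (b : Fin 3 → W) (hb : b ∈ S.T) (g : Sym2 W → ℕ) :
    ∑ e ∈ fe b, g e = g s(b 0, b 1) + (g s(b 1, b 2) + g s(b 2, b 0)) := by
  obtain ⟨n1, n2, n3⟩ := nodup S b hb
  unfold fe
  rw [Finset.sum_insert, Finset.sum_insert, Finset.sum_singleton]
  · rw [mem_singleton]; exact n3
  · rw [mem_insert, mem_singleton]; tauto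

lemma agree_of (b b' : Fin 3 → W) (h0 : b 0 = b' 0) (h1 : b 1 = b' 1) : AgreeS b b' := by
  intro i hi
  fin_cases i
  · exact h0
  · exact h1
  · exact absurd rfl hi

lemma of_agree (b b' : Fin 3 → W) (h : AgreeS b b') : b 0 = b' 0 ∧ b 1 = b' 1 :=
  ⟨h 0 (by decide), h 1 (by decide)⟩

lemma eq_of_three (b b' : Fin 3 → W) (h0 : b 0 = b' 0) (h1 : b 1 = b' 1) (h2 : b 2 = b' 2) :
    b = b' := by
  funext i
  fin_cases i
  · exact h0
  · exact h1
  · exact h2

end PSThreeAux

open PSThreeAux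

/-- Base case of the simplicial pinned inequality. -/
theorem PS3 {W : Type} [Fintype W] (S : SimpCx W 3) (X : Finset W) (hX : ∀ x ∈ X, S.IsVert x)
    (hF : ∃ b ∈ S.T, ∀ i, b i ∉ X) : 6 * X.card ≤ (S.inc X).card := by
  classical
  set F := {s : Finset (Sym2 W) // ∃ b ∈ S.T, s = fe b} with hFdef
  have hfin : Fintype F := Fintype.ofFinite _
  have key := surf_ineq (V := W) (F := F) 3 (Or.inl rfl) (fun f => f.1) ?_ ?_ ?_ ?_ ?_ X ?_ ?_
  · -- conclusion
    set EX := (univ.filter (fun e : Sym2 W => (∃ f : F, e ∈ f.1) ∧ ∃ v ∈ e, v ∈ X)) with hEX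
    have h2 : 2 * EX.card ≤ (S.inc X).card := by
      have hadj : ∀ x y, (∃ f : F, s(x, y) ∈ f.1) → S.Adj x y := by
        rintro x y ⟨⟨f, b, hb, rfl⟩, h⟩
        obtain ⟨b', hb', _, h1, h2⟩ := relabel S b hb x y h
        refine ⟨?_, b', hb', ⟨0, h1⟩, ⟨1, h2⟩⟩
        rw [← h1, ← h2]
        exact (distinct S b' hb').1
      have hadj' : ∀ x y, S.Adj x y → ∃ f : F, s(x, y) ∈ f.1 := by
        rintro x y ⟨hxy, b, hb, ⟨i, rfl⟩, ⟨j, rfl⟩⟩
        refine ⟨⟨fe b, b, hb, rfl⟩, ?_⟩
        show _ ∈ fe b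
        rw [mem_fe']
        exact ⟨i, j, fun h => hxy (by rw [h]), rfl⟩
      have hmaps : ∀ p ∈ S.inc X, (s(p.1, p.2) : Sym2 W) ∈ EX := by
        intro p hp
        unfold SimpCx.inc at hp
        rw [Finset.mem_filter] at hp
        rw [hEX, Finset.mem_filter]
        refine ⟨Finset.mem_univ _, hadj' _ _ hp.2.1, ?_⟩
        rcases hp.2.2 with h | h
        · exact ⟨p.1, by simp, h⟩
        · exact ⟨p.2, by simp, h⟩
      rw [Finset.card_eq_sum_card_fiberwise hmaps, mul_comm, ← smul_eq_mul, ← Finset.sum_const]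
      apply Finset.sum_le_sum
      intro e he
      rw [hEX, Finset.mem_filter] at he
      obtain ⟨_, ⟨f, hf⟩, v, hv, hvX⟩ := he
      induction e using Sym2.ind with
      | _ x y =>
        have hxy : x ≠ y := by
          rintro rfl
          obtain ⟨b, hb, hfb⟩ := f.2
          rw [hfb] at hf
          obtain ⟨b', hb', _, h1, h2⟩ := relabel S b hb x x hf
          exact (distinct S b' hb').1 (h1.trans h2.symm)
        have hsub : ({(x, y), (y, x)} : Finset (W × W)) ⊆
            (S.inc X).filter (fun p => (s(p.1, p.2) : Sym2 W) = s(x, y)) := by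
          intro p hp
          rw [Finset.mem_insert, Finset.mem_singleton] at hp
          rw [Finset.mem_filter]
          unfold SimpCx.inc
          rw [Finset.mem_filter]
          rw [Sym2.mem_iff] at hv
          rcases hp with rfl | rfl
          · refine ⟨⟨Finset.mem_univ _, hadj _ _ ⟨f, hf⟩, ?_⟩, rfl⟩
            rcases hv with rfl | rfl
            · exact Or.inl hvX
            · exact Or.inr hvX
          · refine ⟨⟨Finset.mem_univ _, hadj _ _ ⟨f, ?_⟩, ?_⟩, Sym2.eq_swap⟩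
            · rw [Sym2.eq_swap]; exact hf
            · rcases hv with rfl | rfl
              · exact Or.inr hvX
              · exact Or.inl hvX
        have hc2 : ({(x, y), (y, x)} : Finset (W × W)).card = 2 := by
          apply Finset.card_pair
          intro h
          exact hxy (Prod.mk.inj h).1
        exact hc2.symm.le.trans (Finset.card_le_card hsub)
    omega
  · -- card
    rintro ⟨f, b, hb, rfl⟩
    show (fe b).card = 3
    rw [Finset.card_eq_sum_ones, sum_fe S b hb]
  · -- no loops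
    rintro ⟨f, b, hb, rfl⟩ e he hd
    obtain ⟨h1, h2, h3⟩ := distinct S b hb
    rw [mem_fe] at he
    rcases he with rfl | rfl | rfl
    · exact h1 (by simpa using hd)
    · exact h3 (by simpa using hd)
    · exact h2.symm (by simpa using hd)
  · -- even
    rintro ⟨f, b, hb, rfl⟩ v
    obtain ⟨h1, h2, h3⟩ := distinct S b hb
    show Even ((fe b).filter (fun e => v ∈ e)).card
    rw [Finset.card_filter, sum_fe S b hb]
    simp only [Sym2.mem_iff]
    by_cases e1 : v = b 0
    · subst e1; simp [h1, h2]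
    by_cases e2 : v = b 1
    · subst e2; simp [h1.symm, h3]
    by_cases e3 : v = b 2
    · subst e3; simp [h2.symm, h3.symm]
    simp [e1, e2, e3]
  · -- two
    rintro ⟨f, b, hb, rfl⟩ e he
    change e ∈ fe b at he
    induction e using Sym2.ind with
    | _ x y =>
      obtain ⟨c1, hc1, hfe, hx, hy⟩ := relabel S b hb x y he
      obtain ⟨c2, hc2, hne, hag, huniq⟩ := S.ridge c1 hc1
      obtain ⟨a1, a2⟩ := of_agree c1 c2 hag
      rw [Finset.card_eq_two]
      refine ⟨⟨fe c1, c1, hc1, rfl⟩, ⟨fe c2, c2, hc2, rfl⟩, ?_, ?_⟩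
      · intro h
        have h' : fe c1 = fe c2 := congrArg Subtype.val h
        apply hne
        refine (eq_of_three c1 c2 a1 a2 ?_).symm
        have h3 : (s(c1 2, c1 0) : Sym2 W) ∈ fe c2 := by
          rw [← h', mem_fe]; tauto
        obtain ⟨g1, g2, g3⟩ := distinct S c2 hc2
        obtain ⟨k1, k2, k3⟩ := distinct S c1 hc1
        rw [mem_fe, a1] at h3
        simp only [Sym2.eq_iff] at h3
        rcases h3 with (⟨h, h'⟩ | ⟨h, h'⟩) | (⟨h, h'⟩ | ⟨h, h'⟩) | (⟨h, h'⟩ | ⟨h, h'⟩)
        · exact absurd h' g1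
        · exact absurd (a2.trans h.symm) k3
        · exact absurd h' g2
        · exact absurd h' g1
        · exact h
        · exact absurd h' g2
      · ext g
        simp only [mem_filter, mem_univ, true_and, mem_insert, mem_singleton]
        constructor
        · intro hg
          obtain ⟨g, c3, hc3, rfl⟩ := g
          obtain ⟨c4, hc4, hfe4, hx4, hy4⟩ := relabel S c3 hc3 x y hg
          have hag4 : AgreeS c1 c4 := agree_of c1 c4 (hx.trans hx4.symm) (hy.trans hy4.symm)
          rcases huniq c4 hc4 hag4 with h | h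
          · left; exact Subtype.ext (by show fe c3 = fe c1; rw [← hfe4, h])
          · right; exact Subtype.ext (by show fe c3 = fe c2; rw [← hfe4, h])
        · rintro (rfl | rfl)
          · show _ ∈ fe c1
            rw [hfe]; exact he
          · show _ ∈ fe c2
            rw [mem_fe, ← a1, ← a2, hx, hy]; tauto
  · -- cyc
    rintro ⟨f, b, hb, rfl⟩ Z ⟨e, he, v, hv, hvS⟩ hcl
    have k1 : b 0 ∈ Z ↔ b 1 ∈ Z := by
      have h := hcl s(b 0, b 1) (by rw [mem_fe]; tauto)
      constructor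
      · intro hh; exact h ⟨_, by simp, hh⟩ _ (by simp)
      · intro hh; exact h ⟨b 1, by simp, hh⟩ _ (by simp)
    have k2 : b 1 ∈ Z ↔ b 2 ∈ Z := by
      have h := hcl s(b 1, b 2) (by rw [mem_fe]; tauto)
      constructor
      · intro hh; exact h ⟨_, by simp, hh⟩ _ (by simp)
      · intro hh; exact h ⟨b 2, by simp, hh⟩ _ (by simp)
    have hall : b 0 ∈ Z := by
      rw [mem_fe] at he
      rcases he with rfl | rfl | rfl <;> rw [Sym2.mem_iff] at hv <;>
        rcases hv with rfl | rfl <;> tauto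
    intro e' he' w hw
    rw [mem_fe] at he'
    rcases he' with rfl | rfl | rfl <;> rw [Sym2.mem_iff] at hw <;>
      rcases hw with rfl | rfl <;> tauto
  · -- covering
    intro x hx
    obtain ⟨b, hb, i, rfl⟩ := hX x hx
    obtain ⟨j, hj⟩ : ∃ j : Fin 3, i ≠ j := by
      fin_cases i
      · exact ⟨1, by decide⟩
      · exact ⟨0, by decide⟩
      · exact ⟨0, by decide⟩
    exact ⟨⟨fe b, b, hb, rfl⟩, s(b i, b j), by show _ ∈ fe b; rw [mem_fe']; exact ⟨i, j, hj, rfl⟩,
      by simp⟩
  · -- free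
    rintro ⟨f, c, hc, rfl⟩
    obtain ⟨c', hc', hfree⟩ := hF
    have hsim := S.conn 0 c hc c' hc' (fun i hi => absurd hi (Nat.not_lt_zero _))
    refine ⟨⟨fe c', c', hc', rfl⟩, ?_, ?_⟩
    · have gen : ∀ d, Relation.ReflTransGen (SStep S.T 0) c d → ∀ hd : d ∈ S.T,
          Relation.ReflTransGen (fun f g : F => (f.1 ∩ g.1).Nonempty)
            ⟨fe c, c, hc, rfl⟩ ⟨fe d, d, hd, rfl⟩ := by
        intro d hcd
        induction hcd with
        | refl => intro hd; exact Relation.ReflTransGen.refl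
        | @tail d d' hcd hstep ih =>
          intro hd'
          have hd : d ∈ S.T := by
            rcases hcd.cases_tail with h | ⟨z, _, hz⟩
            · rw [h]; exact hc
            · exact hz.1
          refine (ih hd).tail ?_
          show (fe d ∩ fe d').Nonempty
          have hself : (s(d 0, d 1) : Sym2 W) ∈ fe d := by rw [mem_fe]; tauto
          refine ⟨s(d 0, d 1), ?_⟩
          rw [Finset.mem_inter]
          refine ⟨hself, ?_⟩
          obtain ⟨_, ⟨π, _, rfl⟩ | hag⟩ := hstep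
          · rw [fe_perm]; exact hself
          · obtain ⟨h1, h2⟩ := of_agree d d' hag
            rw [mem_fe, h1, h2]; tauto
      exact gen c' hsim hc'
    · intro e he v hv hvX
      change e ∈ fe c' at he
      rw [mem_fe] at he
      rcases he with rfl | rfl | rfl <;> rw [Sym2.mem_iff] at hv <;>
        rcases hv with rfl | rfl <;> exact hfree _ hvX

end Pool.Agent.CubLBC
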