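import Pool.Agent.Convex97.Polytope
import Pool.Agent.CubLBC.Expo

set_option autoImplicit false

namespace Pool.Agent.CubLBC

open Finset Module Pool.Agent.Convex97

variable {E : Type} [NormedAddCommGroup E] [NormedSpace ℝ E] [FiniteDimensional ℝ E]
variable {ι : Type} [Fintype ι]

/-- the functionals normalised at the interior point `o`. -/
noncomputable def gn (f : ι → E →ₗ[ℝ] ℝ) (b : ι → ℝ) (o : E) (i : ι) : E →ₗ[ℝ] ℝ :=
  (b i - f i o)⁻¹ • f i

omit [FiniteDimensional ℝ E] [Fintype ι] in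
lemma gn_apply (f : ι → E →ₗ[ℝ] ℝ) (b : ι → ℝ) (o : E) (i : ι) (u : E) :
    gn f b o i u = (b i - f i o)⁻¹ * f i u := rfl

omit [FiniteDimensional ℝ E] [Fintype ι] in
lemma gn_eq_one_iff (f : ι → E →ₗ[ℝ] ℝ) (b : ι → ℝ) (o : E) (i : ι) (hi : f i o < b i) (x : E) :
    gn f b o i (x - o) = 1 ↔ f i x = b i := by
  have hpos : 0 < b i - f i o := by linarith
  rw [gn_apply, map_sub, inv_mul_eq_div, div_eq_one_iff_eq hpos.ne']
  constructor <;> intro h <;> linarith

omit [FiniteDimensional ℝ E] [Fintype ι] in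
lemma gn_lt_one_iff (f : ι → E →ₗ[ℝ] ℝ) (b : ι → ℝ) (o : E) (i : ι) (hi : f i o < b i) (x : E) :
    gn f b o i (x - o) < 1 ↔ f i x < b i := by
  have hpos : 0 < b i - f i o := by linarith
  rw [gn_apply, map_sub, inv_mul_eq_div, div_lt_one hpos]
  constructor <;> intro h <;> linarith

omit [FiniteDimensional ℝ E] [Fintype ι] in
lemma gn_exposed (f : ι → E →ₗ[ℝ] ℝ) (b : ι → ℝ) (o : E) (ho : ∀ i, f i o < b i)
    (hirr : ∀ i, ∃ z, f i z = b i ∧ ∀ j, j ≠ i → f j z < b j) (S : Finset ι) :
    ∀ i ∈ S, ∃ z, ∀ j ∈ S, j ≠ i → gn f b o j z < gn f b o i z := by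
  intro i _
  obtain ⟨z, hz, hz'⟩ := hirr i
  refine ⟨z - o, fun j _ hji => ?_⟩
  rw [(gn_eq_one_iff f b o i (ho i) z).2 hz]
  exact (gn_lt_one_iff f b o j (ho j) z).2 (hz' j hji)

/-- Facets through a point `r` are connected through points with exactly two active inequalities,
both active at `r`. -/
theorem facet_chain (f : ι → E →ₗ[ℝ] ℝ) (b : ι → ℝ) (o : E) (ho : ∀ i, f i o < b i)
    (hirr : ∀ i, ∃ z, f i z = b i ∧ ∀ j, j ≠ i → f j z < b j) (r : E) (hr : r ∈ hp f b)
    (i j : ι) (hi : f i r = b i) (hj : f j r = b j) :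
    Relation.ReflTransGen (fun p q => f q r = b q ∧
      ∃ x, f p x = b p ∧ f q x = b q ∧ ∀ l, l ≠ p → l ≠ q → f l x < b l) i j := by
  classical
  set S : Finset ι := Finset.univ.filter (fun i => f i r = b i) with hS
  have hmem : ∀ i, i ∈ S ↔ f i r = b i := by
    intro i
    simp [hS]
  have hconn := Pool.Agent.Cubical.exposed_connected (gn f b o) S (gn_exposed f b o ho hirr S) i j
    ((hmem i).2 hi) ((hmem j).2 hj)
  refine Relation.ReflTransGen.mono ?_ _ _ hconn
  rintro p q ⟨hp, hq, hpq, u, h1, h2⟩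
  refine ⟨(hmem q).1 hq, ?_⟩
  set M := gn f b o p u with hM
  have hval : ∀ (l : ι) (ε : ℝ), gn f b o l ((r + ε • (u - M • (r - o))) - o) =
      gn f b o l (r - o) + ε * (gn f b o l u - M * gn f b o l (r - o)) := by
    intro l ε
    have : (r + ε • (u - M • (r - o))) - o = (r - o) + ε • (u - M • (r - o)) := by abel
    rw [this]
    simp only [map_add, map_smul, map_sub, smul_eq_mul]
  have hone : ∀ l ∈ S, gn f b o l (r - o) = 1 := fun l hl =>
    (gn_eq_one_iff f b o l (ho l) r).2 ((hmem l).1 hl)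
  have hlt : ∀ l, l ∉ S → gn f b o l (r - o) < 1 := by
    intro l hl
    rw [gn_lt_one_iff f b o l (ho l) r]
    exact lt_of_le_of_ne (hr l) (fun h => hl ((hmem l).2 h))
  have hev : ∀ l ∈ (Finset.univ : Finset ι), ∀ᶠ ε in nhdsWithin (0:ℝ) (Set.Ioi 0), l ∉ S →
      gn f b o l ((r + ε • (u - M • (r - o))) - o) < 1 := by
    intro l _
    by_cases hl : l ∈ S
    · filter_upwards with ε h
      exact absurd hl h
    · have hc : Continuous (fun ε : ℝ => gn f b o l (r - o) +
          ε * (gn f b o l u - M * gn f b o l (r - o))) := by fun_prop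
      have h0 : (fun ε : ℝ => gn f b o l (r - o) +
          ε * (gn f b o l u - M * gn f b o l (r - o))) 0 < 1 := by
        simpa using hlt l hl
      have := (hc.tendsto 0).eventually (gt_mem_nhds h0)
      filter_upwards [this.filter_mono nhdsWithin_le_nhds] with ε hε _
      rw [hval]
      exact hε
  have hev2 := (Filter.eventually_all_finset (Finset.univ : Finset ι)).2 hev
  obtain ⟨ε, hε1, hε2⟩ := (hev2.and self_mem_nhdsWithin).exists
  have hεpos : 0 < ε := hε2
  refine ⟨r + ε • (u - M • (r - o)), ?_, ?_, ?_⟩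
  · rw [← gn_eq_one_iff f b o p (ho p), hval, hone p hp]
    ring
  · rw [← gn_eq_one_iff f b o q (ho q), hval, hone q hq, ← h1]
    ring
  · intro l hlp hlq
    rw [← gn_lt_one_iff f b o l (ho l)]
    by_cases hl : l ∈ S
    · rw [hval, hone l hl]
      have := mul_lt_mul_of_pos_left (h2 l hl hlp hlq) hεpos
      linarith
    · exact hε1 l (Finset.mem_univ l) hl

omit [FiniteDimensional ℝ E] [Fintype ι] in
/-- A bounded polyhedron with an interior point has trivial recession cone. -/
lemma recession_zero (f : ι → E →ₗ[ℝ] ℝ) (b : ι → ℝ) (o : E)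
    (ho : ∀ i, f i o < b i) (hbdd : Bornology.IsBounded (hp f b)) (u : E) (hu : ∀ l, f l u ≤ 0) :
    u = 0 := by
  obtain ⟨C, hC⟩ := hbdd.exists_norm_le
  by_contra hne
  have hnorm : 0 < ‖u‖ := norm_pos_iff.2 hne
  have hmem : ∀ t : ℝ, 0 ≤ t → o + t • u ∈ hp f b := by
    intro t ht l
    rw [map_add, map_smul, smul_eq_mul]
    have := mul_nonpos_of_nonneg_of_nonpos ht (hu l)
    linarith [ho l]
  have ho' : ‖o‖ ≤ C := by
    have := hC _ (hmem 0 le_rfl)
    simpa using this
  have hCpos : 0 ≤ C := le_trans (norm_nonneg _) ho'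
  set t : ℝ := (2 * C + 1) / ‖u‖ with ht
  have htpos : 0 ≤ t := by positivity
  have h1 := hC _ (hmem t htpos)
  have h2 : ‖t • u‖ = 2 * C + 1 := by
    rw [norm_smul, Real.norm_of_nonneg htpos, ht]
    field_simp
  have h3 : ‖t • u‖ ≤ ‖o + t • u‖ + ‖o‖ := by
    have : t • u = (o + t • u) - o := by abel
    calc ‖t • u‖ = ‖(o + t • u) - o‖ := by rw [← this]
      _ ≤ _ := norm_sub_le _ _
  linarith

/-- All facets of a bounded polyhedron (dimension at least two) are connected. -/
theorem facet_gchain (hE : 2 ≤ finrank ℝ E) (f : ι → E →ₗ[ℝ] ℝ) (b : ι → ℝ) (o : E)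
    (ho : ∀ i, f i o < b i) (hirr : ∀ i, ∃ z, f i z = b i ∧ ∀ j, j ≠ i → f j z < b j)
    (hbdd : Bornology.IsBounded (hp f b)) (i j : ι) :
    Relation.ReflTransGen (fun p q =>
      ∃ x, f p x = b p ∧ f q x = b q ∧ ∀ l, l ≠ p → l ≠ q → f l x < b l) i j := by
  classical
  have hconn := Pool.Agent.Cubical.exposed_connected (gn f b o) Finset.univ
    (gn_exposed f b o ho hirr Finset.univ) i j (Finset.mem_univ i) (Finset.mem_univ j)
  refine Relation.ReflTransGen.mono ?_ _ _ hconn
  rintro p q ⟨-, -, hpq, u, h1, h2⟩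
  have hpos : ∀ l, 0 < b l - f l o := fun l => by linarith [ho l]
  -- the common value is positive
  have hM : 0 < gn f b o p u := by
    by_contra hcon
    have hle : gn f b o p u ≤ 0 := not_lt.1 hcon
    have hall : ∀ l, f l u ≤ 0 := by
      intro l
      have hl : gn f b o l u ≤ 0 := by
        by_cases hlp : l = p
        · rw [hlp]; exact hle
        by_cases hlq : l = q
        · rw [hlq, ← h1]; exact hle
        exact ((h2 l (Finset.mem_univ l) hlp hlq).le).trans hle
      rw [gn_apply] at hl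
      by_contra h
      have : 0 < (b l - f l o)⁻¹ * f l u := mul_pos (inv_pos.2 (hpos l)) (not_le.1 h)
      linarith
    have hu0 := recession_zero f b o ho hbdd u hall
    have honly : ∀ l, l = p ∨ l = q := by
      intro l
      by_contra h
      rw [not_or] at h
      have := h2 l (Finset.mem_univ l) h.1 h.2
      rw [hu0, map_zero, map_zero] at this
      exact lt_irrefl _ this
    -- a nonzero vector in the kernel of `f p`
    have hker : ∃ v : E, v ≠ 0 ∧ f p v = 0 := by
      have h3 : 0 < finrank ℝ (LinearMap.ker (f p)) := by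
        have h4 := LinearMap.finrank_range_add_finrank_ker (f p)
        have h5 : finrank ℝ (LinearMap.range (f p)) ≤ 1 := by
          calc finrank ℝ (LinearMap.range (f p)) ≤ finrank ℝ ℝ := Submodule.finrank_le _
            _ = 1 := Module.finrank_self ℝ
        omega
      have h4 : Nontrivial (LinearMap.ker (f p)) := Module.finrank_pos_iff.1 h3
      obtain ⟨v, hv⟩ := exists_ne (0 : LinearMap.ker (f p))
      exact ⟨v, fun h => hv (Subtype.ext h), v.2⟩
    obtain ⟨v, hv, hv0⟩ := hker
    rcases le_total (f q v) 0 with h | h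
    · apply hv
      apply recession_zero f b o ho hbdd v
      intro l
      rcases honly l with rfl | rfl
      · exact hv0.le
      · exact h
    · apply hv
      rw [← neg_eq_zero]
      apply recession_zero f b o ho hbdd (-v)
      intro l
      rcases honly l with rfl | rfl
      · rw [map_neg, hv0, neg_zero]
      · rw [map_neg]
        linarith
  set M := gn f b o p u with hMdef
  have hval : ∀ l, gn f b o l ((o + M⁻¹ • u) - o) = M⁻¹ * gn f b o l u := by
    intro l
    have : (o + M⁻¹ • u) - o = M⁻¹ • u := by abel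
    rw [this, map_smul, smul_eq_mul]
  refine ⟨o + M⁻¹ • u, ?_, ?_, ?_⟩
  · rw [← gn_eq_one_iff f b o p (ho p), hval, ← hMdef]
    exact inv_mul_cancel₀ hM.ne'
  · rw [← gn_eq_one_iff f b o q (ho q), hval, ← h1]
    exact inv_mul_cancel₀ hM.ne'
  · intro l hlp hlq
    rw [← gn_lt_one_iff f b o l (ho l), hval]
    have := mul_lt_mul_of_pos_left (h2 l (Finset.mem_univ l) hlp hlq) (inv_pos.2 hM)
    rwa [inv_mul_cancel₀ hM.ne'] at this

end Pool.Agent.CubLBC
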