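import Pool.Agent.Convex97.Polytope

set_option autoImplicit false

namespace Pool.Agent.CubLBC

open Finset Module Pool.Agent.Convex97

variable {E : Type} [NormedAddCommGroup E] [NormedSpace ℝ E] [FiniteDimensional ℝ E]
variable {ι : Type} [Fintype ι]

omit [FiniteDimensional ℝ E] in
/-- Elements of the direction of a set on which a functional is constant are killed by it. -/
lemma pb_vanish (g : E →ₗ[ℝ] ℝ) (c : ℝ) (R : Set E) (h : ∀ x ∈ R, g x = c) :
    vectorSpan ℝ R ≤ LinearMap.ker g := by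
  rw [vectorSpan_def, Submodule.span_le]
  rintro _ ⟨x, hx, y, hy, rfl⟩
  simp [h x hx, h y hy]

/-- Three elements of a space of functionals of dimension at most two are dependent. -/
lemma pb_dep (u v w : E →ₗ[ℝ] ℝ) (A : Submodule ℝ (Dual ℝ E)) (hA : finrank ℝ A ≤ 2)
    (hu : (u : Dual ℝ E) ∈ A) (hv : (v : Dual ℝ E) ∈ A) (hw : (w : Dual ℝ E) ∈ A) :
    ∃ α β γ : ℝ, (∀ y : E, α * u y + β * v y + γ * w y = 0) ∧ ¬ (α = 0 ∧ β = 0 ∧ γ = 0) := by
  by_contra hcon
  push Not at hcon
  have hli : LinearIndependent ℝ (![u, v, w] : Fin 3 → Dual ℝ E) := by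
    rw [Fintype.linearIndependent_iff]
    intro g hg
    have h1 := hcon (g 0) (g 1) (g 2) (by
      intro y
      have h2 := congrArg (fun t : Dual ℝ E => t y) hg
      simpa [Fin.sum_univ_three] using h2)
    intro i
    fin_cases i
    · exact h1.1
    · exact h1.2.1
    · exact h1.2.2
  have h1 := finrank_span_eq_card hli
  have h2 : Submodule.span ℝ (Set.range (![u, v, w] : Fin 3 → Dual ℝ E)) ≤ A := by
    rw [Submodule.span_le]
    rintro _ ⟨i, rfl⟩
    fin_cases i
    · exact hu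
    · exact hv
    · exact hw
  have h3 := Submodule.finrank_mono h2
  rw [h1, Fintype.card_fin] at h3
  omega

/-- At most two facets contain a set of codimension two. -/
theorem ridge_two (f : ι → E →ₗ[ℝ] ℝ) (b : ι → ℝ) (o : E) (ho : ∀ i, f i o < b i)
    (hirr : ∀ i, ∃ z, f i z = b i ∧ ∀ j, j ≠ i → f j z < b j) (R : Set E) (hRne : R.Nonempty)
    (hdim : finrank ℝ (vectorSpan ℝ R) + 2 = finrank ℝ E) (i j l : ι)
    (hi : ∀ x ∈ R, f i x = b i) (hj : ∀ x ∈ R, f j x = b j) (hl : ∀ x ∈ R, f l x = b l)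
    (hij : i ≠ j) : l = i ∨ l = j := by
  classical
  by_contra hcon
  push Not at hcon
  obtain ⟨hli, hlj⟩ := hcon
  set L : Submodule ℝ E := vectorSpan ℝ R with hL
  have hann : finrank ℝ L.dualAnnihilator = 2 := by
    have := Subspace.finrank_add_finrank_dualAnnihilator_eq L
    omega
  have hmem : ∀ (k : ι), (∀ x ∈ R, f k x = b k) → (f k : Dual ℝ E) ∈ L.dualAnnihilator := by
    intro k hk
    rw [Submodule.mem_dualAnnihilator]
    intro w hw
    exact pb_vanish (f k) (b k) R hk hw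
  obtain ⟨α, β, γ, hg', hne⟩ := pb_dep (f i) (f j) (f l) L.dualAnnihilator hann.le
    (hmem i hi) (hmem j hj) (hmem l hl)
  obtain ⟨x0, hx0⟩ := hRne
  have hb : α * b i + β * b j + γ * b l = 0 := by
    have := hg' x0
    rwa [hi x0 hx0, hj x0 hx0, hl x0 hx0] at this
  have hz : ∀ y : E, α * (b i - f i y) + β * (b j - f j y) + γ * (b l - f l y) = 0 := by
    intro y
    have := hg' y
    linarith
  obtain ⟨zi, hzi, hzi'⟩ := hirr i
  obtain ⟨zj, hzj, hzj'⟩ := hirr j
  obtain ⟨zl, hzl, hzl'⟩ := hirr l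
  have e1 := hz zi
  have e2 := hz zj
  have e3 := hz zl
  have p1 : 0 < b j - f j zi := sub_pos.mpr (hzi' j hij.symm)
  have p2 : 0 < b l - f l zi := sub_pos.mpr (hzi' l hli)
  have p3 : 0 < b i - f i zj := sub_pos.mpr (hzj' i hij)
  have p4 : 0 < b l - f l zj := sub_pos.mpr (hzj' l hlj)
  have p5 : 0 < b i - f i zl := sub_pos.mpr (hzl' i (Ne.symm hli))
  have p6 : 0 < b j - f j zl := sub_pos.mpr (hzl' j (Ne.symm hlj))
  rw [hzi, sub_self, mul_zero, zero_add] at e1
  rw [hzj, sub_self, mul_zero, add_zero] at e2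
  rw [hzl, sub_self, mul_zero, add_zero] at e3
  generalize b j - f j zi = a1 at e1 p1
  generalize b l - f l zi = a2 at e1 p2
  generalize b i - f i zj = a3 at e2 p3
  generalize b l - f l zj = a4 at e2 p4
  generalize b i - f i zl = a5 at e3 p5
  generalize b j - f j zl = a6 at e3 p6
  have h0 : α = 0 := by
    rcases lt_trichotomy (α) 0 with h | h | h
    · exfalso
      have s1 : 0 < β := by
        by_contra hc
        push Not at hc
        linarith [mul_neg_of_neg_of_pos h p5, mul_nonpos_of_nonpos_of_nonneg hc p6.le]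
      have s2 : 0 < γ := by
        by_contra hc
        push Not at hc
        linarith [mul_neg_of_neg_of_pos h p3, mul_nonpos_of_nonpos_of_nonneg hc p4.le]
      linarith [mul_pos s1 p1, mul_pos s2 p2]
    · exact h
    · exfalso
      have s1 : β < 0 := by
        by_contra hc
        push Not at hc
        linarith [mul_pos h p5, mul_nonneg hc p6.le]
      have s2 : γ < 0 := by
        by_contra hc
        push Not at hc
        linarith [mul_pos h p3, mul_nonneg hc p4.le]
      linarith [mul_neg_of_neg_of_pos s1 p1, mul_neg_of_neg_of_pos s2 p2]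
  have h1 : β = 0 := by
    rw [h0, zero_mul, zero_add] at e3
    exact (mul_eq_zero.mp e3).resolve_right p6.ne'
  have h2 : γ = 0 := by
    rw [h0, zero_mul, zero_add] at e2
    exact (mul_eq_zero.mp e2).resolve_right p4.ne'
  exact hne ⟨h0, h1, h2⟩

/-- A point with exactly two active inequalities spans a face of codimension at most two. -/
theorem ridge_dim (f : ι → E →ₗ[ℝ] ℝ) (b : ι → ℝ) (p q : ι) (x : E) (hp' : f p x = b p)
    (hq : f q x = b q) (hl : ∀ l, l ≠ p → l ≠ q → f l x < b l) :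
    finrank ℝ E ≤ finrank ℝ (vectorSpan ℝ {y | y ∈ hp f b ∧ f p y = b p ∧ f q y = b q}) + 2 := by
  classical
  have hx : x ∈ hp f b := by
    intro l
    by_cases h1 : l = p
    · rw [h1, hp']
    · by_cases h2 : l = q
      · rw [h2, hq]
      · exact (hl l h1 h2).le
  have hle : LinearMap.ker (f p) ⊓ LinearMap.ker (f q) ≤
      vectorSpan ℝ {y | y ∈ hp f b ∧ f p y = b p ∧ f q y = b q} := by
    rintro u ⟨hu1, hu2⟩
    have hu1' : f p u = 0 := hu1
    have hu2' : f q u = 0 := hu2
    have hact : ∀ i, f i x = b i → f i u = 0 := by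
      intro i hi
      by_cases h1 : i = p
      · rw [h1, hu1']
      · by_cases h2 : i = q
        · rw [h2, hu2']
        · exact absurd hi (hl i h1 h2).ne
    have hev := eventually_mem_hp f b x u hx hact
    obtain ⟨t, ht1, htpos⟩ := ((hev.filter_mono nhdsWithin_le_nhds).and
      (self_mem_nhdsWithin : Set.Ioi (0:ℝ) ∈ nhdsWithin (0:ℝ) (Set.Ioi 0))).exists
    have hmem1 : x + t • u ∈ {y | y ∈ hp f b ∧ f p y = b p ∧ f q y = b q} := by
      refine ⟨ht1, ?_, ?_⟩
      · rw [map_add, map_smul, hu1', smul_zero, add_zero, hp']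
      · rw [map_add, map_smul, hu2', smul_zero, add_zero, hq]
    have hmem2 : x ∈ {y | y ∈ hp f b ∧ f p y = b p ∧ f q y = b q} := ⟨hx, hp', hq⟩
    have h3 := vsub_mem_vectorSpan ℝ hmem1 hmem2
    have h4 : t • u ∈ vectorSpan ℝ {y | y ∈ hp f b ∧ f p y = b p ∧ f q y = b q} := by
      simpa using h3
    have htne : t ≠ 0 := (Set.mem_Ioi.mp htpos).ne'
    exact (Submodule.smul_mem_iff _ htne).mp h4
  have h1 : ∀ g : E →ₗ[ℝ] ℝ, finrank ℝ E ≤ finrank ℝ (LinearMap.ker g) + 1 := by
    intro g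
    have := LinearMap.finrank_range_add_finrank_ker g
    have h2 : finrank ℝ (LinearMap.range g) ≤ 1 := by
      have := Submodule.finrank_le (LinearMap.range g)
      simpa using this
    omega
  have h2 := Submodule.finrank_sup_add_finrank_inf_eq (LinearMap.ker (f p)) (LinearMap.ker (f q))
  have h3 := Submodule.finrank_le (LinearMap.ker (f p) ⊔ LinearMap.ker (f q))
  have h4 := Submodule.finrank_mono hle
  have h5 := h1 (f p)
  have h6 := h1 (f q)
  omega

omit [FiniteDimensional ℝ E] in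
/-- An exposed face of a polytope is the hull of the vertices it contains. -/
theorem exposed_hull (V : Finset E) (G : Set E) (hne : G.Nonempty)
    (hG : IsExposed ℝ (convexHull ℝ (V : Set E)) G) :
    G = convexHull ℝ ((V : Set E) ∩ G) := by
  classical
  have hconv : Convex ℝ G := hG.convex (convex_convexHull ℝ _)
  refine Set.Subset.antisymm ?_ (convexHull_min Set.inter_subset_right hconv)
  obtain ⟨l, hl⟩ := hG hne
  intro x hx
  have hx' := hx
  rw [hl] at hx'
  obtain ⟨hxP, hmax⟩ := hx'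
  rw [Finset.mem_convexHull'] at hxP
  obtain ⟨w, hw0, hw1, hwx⟩ := hxP
  have hlv : ∀ v ∈ V, l v ≤ l x := fun v hv => hmax v (subset_convexHull ℝ _ hv)
  have hsum : ∑ v ∈ V, w v * (l x - l v) = 0 := by
    have h1 : ∑ v ∈ V, w v * l v = l x := by
      rw [← hwx, map_sum]
      simp
    simp only [mul_sub]
    rw [Finset.sum_sub_distrib, h1, ← Finset.sum_mul, hw1, one_mul, sub_self]
  have hzero : ∀ v ∈ V, w v * (l x - l v) = 0 :=
    (Finset.sum_eq_zero_iff_of_nonneg
      (fun v hv => mul_nonneg (hw0 v hv) (sub_nonneg.mpr (hlv v hv)))).mp hsum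
  have hin : ∀ v ∈ V, w v ≠ 0 → v ∈ (V : Set E) ∩ G := by
    intro v hv hwv
    refine ⟨hv, ?_⟩
    have h1 : l x = l v := by
      have := (mul_eq_zero.mp (hzero v hv)).resolve_left hwv
      linarith
    rw [hl]
    refine ⟨subset_convexHull ℝ _ hv, fun y hy => ?_⟩
    rw [← h1]
    exact hmax y hy
  have hx2 : x = ∑ v ∈ V.filter (fun v => w v ≠ 0), w v • v := by
    rw [← hwx, Finset.sum_filter]
    refine Finset.sum_congr rfl (fun v _ => ?_)
    by_cases h : w v = 0
    · simp [h]
    · simp [h]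
  rw [hx2]
  refine (convex_convexHull ℝ _).sum_mem (fun v hv => hw0 v (Finset.mem_filter.mp hv).1) ?_
    (fun v hv => subset_convexHull ℝ _ (hin v (Finset.mem_filter.mp hv).1
      (Finset.mem_filter.mp hv).2))
  rw [Finset.sum_filter_ne_zero, hw1]

/-- Strict monotonicity of the dimension of exposed faces. -/
theorem exposed_dim_lt (P : Set E) (G G' : Set E) (hne : G.Nonempty) (hG : IsExposed ℝ P G)
    (hG' : G' ⊆ P) (hlt : G ⊂ G') :
    finrank ℝ (vectorSpan ℝ G) < finrank ℝ (vectorSpan ℝ G') := by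
  obtain ⟨l, hl⟩ := hG hne
  obtain ⟨g0, hg0⟩ := hne
  obtain ⟨hsub, hnot⟩ := Set.ssubset_iff_subset_ne.mp hlt
  obtain ⟨x, hxG', hxG⟩ := Set.exists_of_ssubset hlt
  have hconst : ∀ y ∈ G, (l : E →ₗ[ℝ] ℝ) y = l g0 := by
    intro y hy
    have h1 := hy
    have h2 := hg0
    rw [hl] at h1 h2
    exact le_antisymm (h2.2 y h1.1) (h1.2 g0 h2.1)
  have hker := pb_vanish (l : E →ₗ[ℝ] ℝ) (l g0) G hconst
  apply Submodule.finrank_lt_finrank_of_lt
  refine lt_of_le_of_ne (vectorSpan_mono ℝ hsub) ?_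
  intro heq
  have h1 : x - g0 ∈ vectorSpan ℝ G' := by
    simpa using vsub_mem_vectorSpan ℝ hxG' (hsub hg0)
  rw [← heq] at h1
  have h2 : l (x - g0) = 0 := hker h1
  have h3 : l x = l g0 := by
    rw [map_sub] at h2
    linarith
  apply hxG
  rw [hl]
  refine ⟨hG' hxG', fun y hy => ?_⟩
  rw [h3]
  have h4 := hg0
  rw [hl] at h4
  exact h4.2 y hy

end Pool.Agent.CubLBC
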