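import Pool.Agent.CubLBC.PolySetup

set_option autoImplicit false

namespace Pool.Agent.CubLBC

open Finset Module Pool.Agent.Convex97

/-- the vertices of the subcube given by the constraints `(S, a)` -/
def cubeSetPD {n : ℕ} (S : Finset (Fin n)) (a : Fin n → Bool) : Set (Fin n → Bool) :=
  {ε | ∀ s ∈ S, ε s = a s}

lemma cubeSet_ncard {n : ℕ} (S : Finset (Fin n)) (a : Fin n → Bool) :
    (cubeSetPD S a).ncard = 2 ^ (n - S.card) := by
  classical
  have h1 : cubeSetPD S a =
      ((Fintype.piFinset (fun i => if i ∈ S then {a i} else (Finset.univ : Finset Bool)) :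
        Finset (Fin n → Bool)) : Set (Fin n → Bool)) := by
    ext ε
    simp only [cubeSetPD, Set.mem_ofPred_eq, Finset.mem_coe, Fintype.mem_piFinset]
    constructor
    · intro h i
      by_cases hi : i ∈ S
      · simp [hi, h i hi]
      · simp [hi]
    · intro h s hs
      have := h s
      simpa [hs] using this
  rw [h1, Set.ncard_coe_finset, Fintype.card_piFinset]
  have h2 : ∀ i : Fin n, #(if i ∈ S then {a i} else (Finset.univ : Finset Bool)) =
      if i ∈ S then 1 else 2 := by
    intro i
    by_cases hi : i ∈ S <;> simp [hi]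
  rw [Finset.prod_congr rfl (fun i _ => h2 i), Finset.prod_ite]
  simp only [Finset.prod_const_one, one_mul, Finset.prod_const]
  congr 1
  have h3 : (Finset.univ.filter (fun i : Fin n => i ∉ S)) = Sᶜ := by
    ext i; simp
  rw [h3, Finset.card_compl, Fintype.card_fin]

lemma IsLab.image_eq {V : Type} {n : ℕ} {Face : Set (Set V)} {B A : Set V} {c : Lab V n}
    (h : IsLab Face n B c) (hAB : A ⊆ B) {S : Finset (Fin n)} {a : Fin n → Bool}
    (hS : ∀ ε, c ε ∈ A ↔ ∀ s ∈ S, ε s = a s) : A = c '' cubeSetPD S a := by
  ext v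
  constructor
  · intro hv
    have h1 : v ∈ Set.range c := by rw [h.2.1]; exact hAB hv
    obtain ⟨ε, rfl⟩ := h1
    exact ⟨ε, (hS ε).1 hv, rfl⟩
  · rintro ⟨ε, hε, rfl⟩
    exact (hS ε).2 hε

lemma IsLab.image_mem {V : Type} {n : ℕ} {Face : Set (Set V)} {B : Set V} {c : Lab V n}
    (h : IsLab Face n B c) (S : Finset (Fin n)) (a : Fin n → Bool) :
    c '' cubeSetPD S a ∈ Face ∧ c '' cubeSetPD S a ⊆ B := by
  obtain ⟨A, hA, hAB, hS⟩ := h.2.2.2 S a
  rw [← h.image_eq hAB hS]
  exact ⟨hA, hAB⟩

lemma IsLab.image_ncard {V : Type} {n : ℕ} {Face : Set (Set V)} {B : Set V} {c : Lab V n}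
    (h : IsLab Face n B c) (S : Finset (Fin n)) (a : Fin n → Bool) :
    (c '' cubeSetPD S a).ncard = 2 ^ (n - S.card) := by
  rw [Set.ncard_image_of_injective _ h.1, cubeSet_ncard]

/-- A face inside a labelled facet is a subcube, so it has `2 ^ k` vertices; a proper one has
`k < n`. -/
theorem IsLab.ncard_pow {V : Type} {n : ℕ} {Face : Set (Set V)} {B A : Set V} {c : Lab V n}
    (h : IsLab Face n B c) (hA : A ∈ Face) (_hne : A.Nonempty) (hAB : A ⊆ B) :
    ∃ k ≤ n, A.ncard = 2 ^ k ∧ (A ≠ B → k < n) := by
  obtain ⟨S, a, hS⟩ := h.2.2.1 A hA hAB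
  have h1 := h.image_eq hAB hS
  refine ⟨n - S.card, Nat.sub_le _ _, ?_, ?_⟩
  · rw [h1, h.image_ncard]
  · intro hne'
    have h2 : S.Nonempty := by
      rw [Finset.nonempty_iff_ne_empty]
      intro h3
      apply hne'
      rw [h1, h3]
      have : cubeSetPD (∅ : Finset (Fin n)) a = Set.univ := by
        ext ε; simp [cubeSetPD]
      rw [this, Set.image_univ, h.2.1]
    have h3 := Finset.card_pos.2 h2
    have h4 := Finset.card_le_univ S
    rw [Fintype.card_fin] at h4
    omega

/-- Between a face with `2 ^ k` vertices and the facet there is a strictly increasing chain of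
faces, and below it a chain down to a vertex. -/
theorem IsLab.exists_chain {V : Type} {n : ℕ} {Face : Set (Set V)} {B A : Set V} {c : Lab V n}
    (h : IsLab Face n B c) (hA : A ∈ Face) (_hne : A.Nonempty) (hAB : A ⊆ B) (k : ℕ)
    (hk : A.ncard = 2 ^ k) :
    ∃ C : ℕ → Set V, C k = A ∧ C n = B ∧ (∀ j ≤ n, C j ∈ Face ∧ C j ⊆ B) ∧
      ∀ j < n, C j ⊂ C (j + 1) := by
  classical
  obtain ⟨S, a, hS⟩ := h.2.2.1 A hA hAB
  have h1 := h.image_eq hAB hS
  have hcard : k = n - S.card := by
    have h2 : (2:ℕ) ^ k = 2 ^ (n - S.card) := by rw [← hk, h1, h.image_ncard]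
    exact Nat.pow_right_injective le_rfl h2
  have hSn : S.card ≤ n := by
    have h4 := Finset.card_le_univ S
    rwa [Fintype.card_fin] at h4
  -- an enumeration of the coordinates starting with those of `S`
  obtain ⟨T, hT1, hT2, hT3⟩ : ∃ T : ℕ → Finset (Fin n), T S.card = S ∧ (∀ j ≤ n, (T j).card = j) ∧
      ∀ j < n, T j ⊆ T (j + 1) := by
    have e1 : Fintype.card {i // i ∈ S} = S.card := by simp
    obtain ⟨σ, hσ⟩ : ∃ σ : Fin n ≃ Fin n, ∀ i : Fin n, σ i ∈ S ↔ (i : ℕ) < S.card := by
      have h2 : Fintype.card {i : Fin n // (i : ℕ) < S.card} = Fintype.card {i : Fin n // i ∈ S} := by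
        rw [e1, Fintype.card_subtype]
        have h3 : (Finset.univ.filter (fun i : Fin n => (i : ℕ) < S.card)).card = S.card := by
          have h4 : (Finset.univ.filter (fun i : Fin n => (i : ℕ) < S.card)).map
              Fin.valEmbedding = Finset.range S.card := by
            ext x
            simp only [Finset.mem_map, Finset.mem_filter, Finset.mem_univ, true_and,
              Fin.valEmbedding_apply, Finset.mem_range]
            constructor
            · rintro ⟨i, hi, rfl⟩; exact hi
            · intro hx; exact ⟨⟨x, by omega⟩, hx, rfl⟩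
          rw [← Finset.card_map Fin.valEmbedding, h4, Finset.card_range]
        exact h3
      let e := Fintype.equivOfCardEq h2
      refine ⟨e.extendSubtype, fun i => ?_⟩
      constructor
      · intro hi
        by_contra hcon
        exact e.extendSubtype_not_mem i hcon hi
      · intro hi
        exact e.extendSubtype_mem i hi
    refine ⟨fun j => (Finset.univ.filter (fun i : Fin n => (i : ℕ) < j)).map σ.toEmbedding,
      ?_, ?_, ?_⟩
    · ext x
      simp only [Finset.mem_map, Finset.mem_filter, Finset.mem_univ, true_and,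
        Equiv.coe_toEmbedding]
      constructor
      · rintro ⟨i, hi, rfl⟩; exact (hσ i).2 hi
      · intro hx
        refine ⟨σ.symm x, ?_, by simp⟩
        rw [← hσ]; simpa using hx
    · intro j hj
      rw [Finset.card_map]
      have h4 : (Finset.univ.filter (fun i : Fin n => (i : ℕ) < j)).map
          Fin.valEmbedding = Finset.range j := by
        ext x
        simp only [Finset.mem_map, Finset.mem_filter, Finset.mem_univ, true_and,
          Fin.valEmbedding_apply, Finset.mem_range]
        constructor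
        · rintro ⟨i, hi, rfl⟩; exact hi
        · intro hx; exact ⟨⟨x, by omega⟩, hx, rfl⟩
      rw [← Finset.card_map Fin.valEmbedding, h4, Finset.card_range]
    · intro j _
      apply Finset.map_subset_map.2
      intro i hi
      simp only [Finset.mem_filter, Finset.mem_univ, true_and] at hi ⊢
      omega
  refine ⟨fun j => c '' cubeSetPD (T (n - j)) a, ?_, ?_, ?_, ?_⟩
  · have : n - k = S.card := by omega
    simp only [this, hT1]
    exact h1.symm
  · have h2 : T (n - n) = ∅ := by
      rw [← Finset.card_eq_zero, hT2 _ (by omega)]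
      omega
    simp only [h2]
    have : cubeSetPD (∅ : Finset (Fin n)) a = Set.univ := by
      ext ε; simp [cubeSetPD]
    rw [this, Set.image_univ, h.2.1]
  · intro j _
    exact h.image_mem _ _
  · intro j hj
    have h2 : T (n - (j + 1)) ⊆ T (n - j) := by
      have h3 : n - j = (n - (j + 1)) + 1 := by omega
      rw [h3]
      exact hT3 _ (by omega)
    have h5 : c '' cubeSetPD (T (n - j)) a ⊆ c '' cubeSetPD (T (n - (j + 1))) a := by
      apply Set.image_mono
      intro ε hε s hs
      exact hε s (h2 hs)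
    refine Set.ssubset_iff_subset_ne.2 ⟨h5, fun heq => ?_⟩
    have h6 := congrArg Set.ncard heq
    simp only at h6
    rw [h.image_ncard, h.image_ncard, hT2 _ (by omega), hT2 _ (by omega)] at h6
    have h7 := Nat.pow_right_injective le_rfl h6
    omega

variable {n : ℕ} {V : Finset (Eu n)} {ι : Type} [Fintype ι] (D : PD V ι)

/-- A face with `2 ^ k` vertices inside a facet has dimension `k`. -/
theorem pdim (hlab : ∀ i, ∃ c : Lab V n, IsLab (pFace V) n (D.fac i) c) (i : ι) {A : Set V}
    (hA : A ∈ pFace V) (hAi : A ⊆ D.fac i) (k : ℕ) (hk : A.ncard = 2 ^ k) :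
    finrank ℝ (vectorSpan ℝ (hul A)) = k := by
  obtain ⟨c, hc⟩ := hlab i
  obtain ⟨k', hk'n, hk', -⟩ := hc.ncard_pow hA (pFace_nonempty hA) hAi
  have hkk : k = k' := by
    rw [hk] at hk'
    exact Nat.pow_right_injective le_rfl hk'
  subst hkk
  obtain ⟨C, hCk, hCn, hC, hlt⟩ := hc.exists_chain hA (pFace_nonempty hA) hAi k hk
  have hstep : ∀ j < n, finrank ℝ (vectorSpan ℝ (hul (C j))) <
      finrank ℝ (vectorSpan ℝ (hul (C (j + 1)))) := by
    intro j hj
    have h1 := pFace_hul (hC j hj.le).1
    exact exposed_dim_lt (convexHull ℝ (V : Set (Eu n))) _ _ h1.1 h1.2.1 (hul_subset _)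
      (hul_ssubset (hC j hj.le).1 (hlt j hj))
  have hlow : ∀ j ≤ n, j ≤ finrank ℝ (vectorSpan ℝ (hul (C j))) := by
    intro j
    induction j with
    | zero => intro _; exact Nat.zero_le _
    | succ j ih =>
      intro hj
      have h1 := ih (by omega)
      have h2 := hstep j (by omega)
      omega
  have hup : ∀ m ≤ n, finrank ℝ (vectorSpan ℝ (hul (C (n - m)))) + m ≤ n := by
    intro m
    induction m with
    | zero =>
      intro _
      rw [Nat.sub_zero, hCn, fac_finrank]
      omega
    | succ m ih =>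
      intro hm
      have h1 := ih (by omega)
      have h2 := hstep (n - (m + 1)) (by omega)
      have h3 : n - (m + 1) + 1 = n - m := by omega
      rw [h3] at h2
      omega
  have h1 := hlow k hk'n
  have h2 := hup (n - k) (by omega)
  have h3 : n - (n - k) = k := by omega
  rw [h3] at h2
  rw [hCk] at h1 h2
  omega

end Pool.Agent.CubLBC
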