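import Pool.Agent.CubLBC.PolySetup

set_option autoImplicit false

namespace Pool.Agent.CubLBC

open Finset Module Pool.Agent.Convex97

variable {n : ℕ} {V : Finset (Eu n)} {ι : Type} [Fintype ι] (D : PD V ι)

/-- The facets carry cube labellings. -/
theorem plab
    (hcub : ∀ F : Set (EuclideanSpace ℝ (Fin (n + 1))), F.Nonempty →
       IsExposed ℝ (convexHull ℝ (V : Set (EuclideanSpace ℝ (Fin (n + 1))))) F →
       Module.finrank ℝ (affineSpan ℝ F).direction = n →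
       ∃ e : EuclideanSpace ℝ (Fin (n + 1)) → (Fin n → Bool),
         Set.BijOn e ((V : Set (EuclideanSpace ℝ (Fin (n + 1)))) ∩ F) Set.univ ∧
         (∀ G : Set (EuclideanSpace ℝ (Fin (n + 1))), G.Nonempty →
            IsExposed ℝ (convexHull ℝ (V : Set (EuclideanSpace ℝ (Fin (n + 1))))) G → G ⊆ F →
            ∃ S : Finset (Fin n), ∃ c : Fin n → Bool,
              e '' ((V : Set (EuclideanSpace ℝ (Fin (n + 1)))) ∩ G) = {x | ∀ i ∈ S, x i = c i}) ∧
         (∀ S : Finset (Fin n), ∀ c : Fin n → Bool,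
            ∃ G : Set (EuclideanSpace ℝ (Fin (n + 1))), G.Nonempty ∧
              IsExposed ℝ (convexHull ℝ (V : Set (EuclideanSpace ℝ (Fin (n + 1))))) G ∧ G ⊆ F ∧
              e '' ((V : Set (EuclideanSpace ℝ (Fin (n + 1)))) ∩ G) = {x | ∀ i ∈ S, x i = c i}))
    (i : ι) : ∃ c : Lab V n, IsLab (pFace V) n (D.fac i) c := by
  obtain ⟨hne, hexp, heq⟩ := pFace_hul (fac_mem D i)
  have hfr : Module.finrank ℝ (affineSpan ℝ (hul (D.fac i))).direction = n := by
    rw [direction_affineSpan]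
    exact fac_finrank D i
  obtain ⟨e, hbij, hdown, hup⟩ := hcub (hul (D.fac i)) hne hexp hfr
  -- membership in the facet
  have hmem : ∀ v : V, v ∈ D.fac i ↔ (v : Eu n) ∈ hul (D.fac i) := by
    intro v
    constructor
    · intro h
      rw [heq] at h
      exact h
    · intro h
      rw [heq]
      exact h
  have hsurj : ∀ ε : Fin n → Bool, ∃ v : Eu n, (v ∈ (V : Set (Eu n)) ∩ hul (D.fac i)) ∧ e v = ε := by
    intro ε
    obtain ⟨v, hv, hve⟩ := hbij.surjOn (Set.mem_univ ε)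
    exact ⟨v, hv, hve⟩
  choose g hg hge using hsurj
  let c : Lab V n := fun ε => ⟨g ε, (hg ε).1⟩
  have hc : ∀ ε, ((c ε : V) : Eu n) = g ε := fun ε => rfl
  have hcB : ∀ ε, c ε ∈ D.fac i := fun ε => (hmem (c ε)).2 (hg ε).2
  -- inverse property
  have hinv : ∀ (v : V) (ε : Fin n → Bool), (v : Eu n) ∈ hul (D.fac i) → e v = ε → v = c ε := by
    intro v ε hv hve
    apply Subtype.ext
    apply hbij.injOn ⟨v.2, hv⟩ (hg ε)
    rw [hve, hge]
  refine ⟨c, ?_, ?_, ?_, ?_⟩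
  · intro ε ε' h
    have h1 : g ε = g ε' := congrArg Subtype.val h
    rw [← hge ε, ← hge ε', h1]
  · ext v
    constructor
    · rintro ⟨ε, rfl⟩
      exact hcB ε
    · intro hv
      exact ⟨e v, (hinv v (e v) ((hmem v).1 hv) rfl).symm⟩
  · intro A hA hAB
    obtain ⟨hAne, hAexp, hAeq⟩ := pFace_hul hA
    obtain ⟨S, a, hSa⟩ := hdown (hul A) hAne hAexp (hul_mono hAB)
    refine ⟨S, a, fun ε => ?_⟩
    have h1 : c ε ∈ A ↔ ((c ε : V) : Eu n) ∈ hul A := by
      constructor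
      · intro h
        rw [hAeq] at h
        exact h
      · intro h
        rw [hAeq]
        exact h
    have h2 : ((c ε : V) : Eu n) ∈ hul A ↔ ε ∈ e '' ((V : Set (Eu n)) ∩ hul A) := by
      constructor
      · intro h
        exact ⟨c ε, ⟨(c ε).2, h⟩, hge ε⟩
      · rintro ⟨v, ⟨hvV, hvA⟩, hve⟩
        have h3 := hinv ⟨v, hvV⟩ ε (hul_mono hAB hvA) hve
        rw [← h3]
        exact hvA
    rw [h1, h2, hSa]
    rfl
  · intro S a
    obtain ⟨G, hGne, hGexp, hGF, hGe⟩ := hup S a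
    refine ⟨{v : V | (v : Eu n) ∈ G}, ⟨G, hGne, hGexp, rfl⟩, fun v hv => (hmem v).2 (hGF hv),
      fun ε => ?_⟩
    have h2 : ((c ε : V) : Eu n) ∈ G ↔ ε ∈ e '' ((V : Set (Eu n)) ∩ G) := by
      constructor
      · intro h
        exact ⟨c ε, ⟨(c ε).2, h⟩, hge ε⟩
      · rintro ⟨v, ⟨hvV, hvA⟩, hve⟩
        have h3 := hinv ⟨v, hvV⟩ ε (hGF hvA) hve
        rw [← h3]
        exact hvA
    show ((c ε : V) : Eu n) ∈ G ↔ _
    rw [h2, hGe]
    rfl

end Pool.Agent.CubLBC
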