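import Pool.Agent.CubLBC.PolyDim

set_option autoImplicit false

namespace Pool.Agent.CubLBC

open Finset Module Pool.Agent.Convex97 Filter Topology

variable {n : ℕ} {V : Finset (Eu n)} {ι : Type} [Fintype ι] (D : PD V ι)

/-- A face whose only facet is `i` is the facet `i`. -/
theorem fac_subset_of_only {i : ι} {R : Set V} (hR : R ∈ pFace V) (hRi : R ⊆ D.fac i)
    (honly : ∀ l, R ⊆ D.fac l → l = i) : D.fac i ⊆ R := by
  obtain ⟨r, hrR, hrP, hact⟩ := exists_active D hR
  obtain ⟨hne, hexp, hReq⟩ := pFace_hul hR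
  obtain ⟨φ, hφ⟩ := hexp hne
  intro v hv
  have hri : D.f i r = D.b i := (hact i).2 hRi
  have hvi : D.f i (v : Eu n) = D.b i := hv
  have hvP : (v : Eu n) ∈ convexHull ℝ (V : Set (Eu n)) := subset_convexHull ℝ _ v.2
  have hu : ∀ l, D.f l r = D.b l → D.f l ((v : Eu n) - r) = 0 := by
    intro l hl
    rw [honly l ((hact l).1 hl), map_sub, hvi, hri, sub_self]
  have hu' : ∀ l, D.f l r = D.b l → D.f l (-((v : Eu n) - r)) = 0 := by
    intro l hl
    rw [map_neg, hu l hl, neg_zero]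
  have h1 := eventually_mem_hp D.f D.b r ((v : Eu n) - r) hrP hu
  have h2 := eventually_mem_hp D.f D.b r (-((v : Eu n) - r)) hrP hu'
  obtain ⟨t, ⟨ht1, ht2⟩, htpos⟩ := (((h1.and h2).filter_mono nhdsWithin_le_nhds).and
      (self_mem_nhdsWithin : Set.Ioi (0:ℝ) ∈ 𝓝[>] 0)).exists
  have htpos' : 0 < t := htpos
  have hrmem : r ∈ {x ∈ convexHull ℝ (V : Set (Eu n)) |
      ∀ y ∈ convexHull ℝ (V : Set (Eu n)), φ y ≤ φ x} := by
    rw [← hφ]; exact hrR
  have hφr := hrmem.2
  rw [← D.hP] at ht1 ht2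
  have e1 := hφr _ ht1
  have e2 := hφr _ ht2
  rw [map_add, map_smul, smul_eq_mul] at e1 e2
  rw [map_neg] at e2
  have e3 : t * φ ((v : Eu n) - r) = 0 := by nlinarith
  have e4 : φ ((v : Eu n) - r) = 0 := by
    rcases mul_eq_zero.1 e3 with h | h
    · exact absurd h htpos'.ne'
    · exact h
  rw [map_sub, sub_eq_zero] at e4
  rw [hReq]
  change (v : Eu n) ∈ hul R
  rw [hφ]
  refine ⟨hvP, fun y hy => ?_⟩
  rw [e4]
  exact hφr y hy

/-- The number of vertices of a facet. -/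
theorem fac_ncard (hlab : ∀ i, ∃ c : Lab V n, IsLab (pFace V) n (D.fac i) c) (i : ι) :
    (D.fac i).ncard = 2 ^ n := by
  obtain ⟨c, hinj, hrange, _⟩ := hlab i
  rw [← hrange, ← Set.image_univ, Set.ncard_image_of_injective _ hinj, Set.ncard_univ,
    Nat.card_eq_fintype_card]
  simp

/-- Every ridge is in exactly two facets. -/
theorem ptwo (hn : 1 ≤ n) (hlab : ∀ i, ∃ c : Lab V n, IsLab (pFace V) n (D.fac i) c) :
    ∀ i, ∀ R ∈ pFace V, R ⊆ D.fac i → R.ncard = 2 ^ (n - 1) →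
    ∃ j, j ≠ i ∧ R ⊆ D.fac j ∧ ∀ l, R ⊆ D.fac l → l = i ∨ l = j := by
  intro i R hR hRi hcard
  have hex : ∃ j, j ≠ i ∧ R ⊆ D.fac j := by
    by_contra hcon
    push Not at hcon
    have honly : ∀ l, R ⊆ D.fac l → l = i := by
      intro l hl
      by_contra hli
      exact hcon l hli hl
    have hsub := fac_subset_of_only D hR hRi honly
    have heq : R = D.fac i := Set.Subset.antisymm hRi hsub
    rw [heq, fac_ncard D hlab i] at hcard
    have := Nat.pow_right_injective (le_refl 2) hcard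
    omega
  obtain ⟨j, hji, hRj⟩ := hex
  refine ⟨j, hji, hRj, fun l hl => ?_⟩
  have hmem : ∀ k, R ⊆ D.fac k → ∀ x ∈ hul R, D.f k x = D.b k := by
    intro k hk x hx
    have := hul_mono hk hx
    rw [hul_fac] at this
    exact this.2
  have hdim := pdim D hlab i hR hRi (n - 1) hcard
  exact ridge_two D.f D.b D.o D.ho D.hirr (hul R) (pFace_hul hR).1 (by
    rw [hdim, finrank_Eu]; omega) i j l (hmem i hRi) (hmem j hRj) (hmem l hl) hji.symm

/-- Two facets meeting in a point with no other active inequality meet in a ridge. -/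
theorem pcodim (hlab : ∀ i, ∃ c : Lab V n, IsLab (pFace V) n (D.fac i) c) (p q : ι) (hpq : p ≠ q)
    (x : Eu n) (hp' : D.f p x = D.b p) (hq : D.f q x = D.b q)
    (hl : ∀ l, l ≠ p → l ≠ q → D.f l x < D.b l) :
    (D.fac p ∩ D.fac q).ncard = 2 ^ (n - 1) := by
  have hx : x ∈ hp D.f D.b := by
    intro l
    by_cases hlp : l = p
    · rw [hlp, hp']
    by_cases hlq : l = q
    · rw [hlq, hq]
    exact (hl l hlp hlq).le
  obtain ⟨hA, hhul⟩ := fac_inter_mem D p q x hx hp' hq
  have hne : D.fac p ∩ D.fac q ≠ D.fac p := by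
    intro heq
    obtain ⟨z, hz, hz'⟩ := D.hirr p
    have hzf : z ∈ fc D.f D.b p := by
      refine ⟨fun j => ?_, hz⟩
      by_cases hj : j = p
      · rw [hj, hz]
      · exact (hz' j hj).le
    rw [← hul_fac D p, ← heq, hhul] at hzf
    exact absurd hzf.2.2 (hz' q hpq.symm).ne
  obtain ⟨c, hc⟩ := hlab p
  obtain ⟨k, hkn, hk, hlt⟩ := hc.ncard_pow hA (pFace_nonempty hA) Set.inter_subset_left
  have hklt := hlt hne
  have hdim := pdim D hlab p hA Set.inter_subset_left k hk
  have hr := ridge_dim D.f D.b p q x hp' hq hl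
  rw [← hhul, hdim, finrank_Eu] at hr
  have : k = n - 1 := by omega
  rw [hk, this]

end Pool.Agent.CubLBC
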