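import Pool.Agent.CubLBC.PolyA
import Pool.Agent.CubLBC.PolyB
import Pool.Agent.CubLBC.FaceDefs

set_option autoImplicit false

namespace Pool.Agent.CubLBC

open Finset Module Pool.Agent.Convex97

/-- Euclidean space of dimension `n + 1`. -/
abbrev Eu (n : ℕ) : Type := EuclideanSpace ℝ (Fin (n + 1))

variable {n : ℕ}

/-- The vertex sets of the nonempty exposed faces of the hull of `V`. -/
def pFace (V : Finset (Eu n)) : Set (Set V) :=
  {A | ∃ G : Set (Eu n), G.Nonempty ∧ IsExposed ℝ (convexHull ℝ (V : Set (Eu n))) G ∧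
    A = {v : V | (v : Eu n) ∈ G}}

/-- The hull of a set of vertices. -/
def hul {V : Finset (Eu n)} (A : Set V) : Set (Eu n) := convexHull ℝ (Subtype.val '' A)

/-- An irredundant description of the polytope `convexHull V`. -/
structure PD (V : Finset (Eu n)) (ι : Type) where
  f : ι → Eu n →ₗ[ℝ] ℝ
  b : ι → ℝ
  o : Eu n
  hP : convexHull ℝ (V : Set (Eu n)) = hp f b
  hf : ∀ i, f i ≠ 0
  ho : ∀ i, f i o < b i
  hirr : ∀ i, ∃ z, f i z = b i ∧ ∀ j, j ≠ i → f j z < b j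
  hext : Set.extremePoints ℝ (convexHull ℝ (V : Set (Eu n))) = (V : Set (Eu n))

/-- The vertices of the `i`-th facet. -/
def PD.fac {V : Finset (Eu n)} {ι : Type} (D : PD V ι) (i : ι) : Set V :=
  {v : V | D.f i (v : Eu n) = D.b i}

/-! ### basic facts -/

lemma finrank_Eu (n : ℕ) : finrank ℝ (Eu n) = n + 1 := by
  simp

instance (n : ℕ) : Nontrivial (Eu n) := by
  apply Module.nontrivial_of_finrank_pos (R := ℝ)
  rw [finrank_Eu]
  omega

lemma isBounded_hull (V : Finset (Eu n)) :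
    Bornology.IsBounded (convexHull ℝ (V : Set (Eu n))) :=
  isBounded_convexHull.2 V.finite_toSet.isBounded

theorem exists_PD (V : Finset (Eu n)) (hspan : affineSpan ℝ (V : Set (Eu n)) = ⊤)
    (hext : Set.extremePoints ℝ (convexHull ℝ (V : Set (Eu n))) = (V : Set (Eu n))) :
    ∃ (ι : Type) (_ : Fintype ι), Nonempty (PD V ι) ∧ Nonempty ι := by
  obtain ⟨o, ho⟩ := interior_convexHull_nonempty_iff_affineSpan_eq_top.2 hspan
  obtain ⟨ι, hfin, f, b, hP, hf, hfo, hirr⟩ := exists_irredundant V o ho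
  refine ⟨ι, hfin, ⟨⟨f, b, o, hP, hf, hfo, hirr, hext⟩⟩, ?_⟩
  by_contra hne
  rw [not_nonempty_iff] at hne
  obtain ⟨u, hu⟩ := exists_ne (0 : Eu n)
  apply hu
  apply recession_zero f b o hfo ?_ u (fun l => (hne.false l).elim)
  rw [← hP]
  exact isBounded_hull V

lemma image_val (V : Finset (Eu n)) (G : Set (Eu n)) :
    Subtype.val '' {v : V | (v : Eu n) ∈ G} = (V : Set (Eu n)) ∩ G := by
  ext x
  constructor
  · rintro ⟨v, hv, rfl⟩
    exact ⟨v.2, hv⟩
  · rintro ⟨hx, hxG⟩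
    exact ⟨⟨x, hx⟩, hxG, rfl⟩

lemma hul_eq {V : Finset (Eu n)} {G : Set (Eu n)} (hne : G.Nonempty)
    (hG : IsExposed ℝ (convexHull ℝ (V : Set (Eu n))) G) : hul {v : V | (v : Eu n) ∈ G} = G := by
  rw [hul, image_val]
  exact (exposed_hull V G hne hG).symm

theorem pFace_hul {V : Finset (Eu n)} {A : Set V} (hA : A ∈ pFace V) :
    (hul A).Nonempty ∧ IsExposed ℝ (convexHull ℝ (V : Set (Eu n))) (hul A) ∧
      A = {v : V | (v : Eu n) ∈ hul A} := by
  obtain ⟨G, hne, hG, rfl⟩ := hA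
  rw [hul_eq hne hG]
  exact ⟨hne, hG, rfl⟩

theorem hul_mono {V : Finset (Eu n)} {A B : Set V} (h : A ⊆ B) : hul A ⊆ hul B :=
  convexHull_mono (Set.image_mono h)

theorem hul_ssubset {V : Finset (Eu n)} {A B : Set V} (hA : A ∈ pFace V) (h : A ⊂ B) :
    hul A ⊂ hul B := by
  refine ⟨hul_mono h.1, fun hcon => h.2 fun v hv => ?_⟩
  rw [(pFace_hul hA).2.2]
  exact hcon (subset_convexHull ℝ _ ⟨v, hv, rfl⟩)

theorem hul_subset {V : Finset (Eu n)} (A : Set V) :
    hul A ⊆ convexHull ℝ (V : Set (Eu n)) := by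
  apply convexHull_mono
  rintro _ ⟨v, _, rfl⟩
  exact v.2

theorem pFace_nonempty {V : Finset (Eu n)} {A : Set V} (hA : A ∈ pFace V) : A.Nonempty := by
  have h := (pFace_hul hA).1
  rw [hul, convexHull_nonempty_iff] at h
  exact Set.image_nonempty.1 h

theorem pinter {V : Finset (Eu n)} : ∀ A ∈ pFace V, ∀ B ∈ pFace V, (A ∩ B).Nonempty →
    A ∩ B ∈ pFace V := by
  rintro A ⟨G, hne, hG, rfl⟩ B ⟨G', hne', hG', rfl⟩ ⟨v, hv, hv'⟩
  exact ⟨G ∩ G', ⟨v, hv, hv'⟩, hG.inter hG', rfl⟩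

variable {V : Finset (Eu n)} {ι : Type} [Fintype ι] (D : PD V ι)

omit [Fintype ι] in
lemma PD.mem_hp (v : V) : (v : Eu n) ∈ hp D.f D.b := by
  rw [← D.hP]
  exact subset_convexHull ℝ _ v.2

omit [Fintype ι] in
lemma PD.fac_eq (i : ι) : D.fac i = {v : V | (v : Eu n) ∈ fc D.f D.b i} := by
  ext v
  constructor
  · intro hv
    exact ⟨D.mem_hp v, hv⟩
  · intro hv
    exact hv.2

omit [Fintype ι] in
lemma PD.fc_nonempty (i : ι) : (fc D.f D.b i).Nonempty := by
  obtain ⟨z, hz, hz'⟩ := D.hirr i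
  refine ⟨z, fun j => ?_, hz⟩
  by_cases hj : j = i
  · rw [hj, hz]
  · exact (hz' j hj).le

omit [Fintype ι] in
lemma PD.exposed (i : ι) : IsExposed ℝ (convexHull ℝ (V : Set (Eu n))) (fc D.f D.b i) := by
  rw [D.hP]
  exact exposed_fc D.f D.b i

theorem hul_fac (i : ι) : hul (D.fac i) = fc D.f D.b i := by
  rw [D.fac_eq i]
  exact hul_eq (D.fc_nonempty i) (D.exposed i)

theorem fac_mem (i : ι) : D.fac i ∈ pFace V :=
  ⟨fc D.f D.b i, D.fc_nonempty i, D.exposed i, D.fac_eq i⟩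

theorem fac_finrank (i : ι) : finrank ℝ (vectorSpan ℝ (hul (D.fac i))) = n := by
  obtain ⟨z, hz, hz'⟩ := D.hirr i
  have h := (isFacet_fc D.f D.b i (D.hf i) z hz hz').2.2
  rw [hul_fac]
  rw [finrank_Eu] at h
  omega

theorem pcover (v : V) : ∃ i, v ∈ D.fac i := by
  by_contra hcon
  push Not at hcon
  obtain ⟨u, hu⟩ := exists_ne (0 : Eu n)
  apply hu
  have hv : (v : Eu n) ∈ Set.extremePoints ℝ (hp D.f D.b) := by
    rw [← D.hP, D.hext]
    exact v.2
  apply active_ker D.f D.b v hv u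
  intro i hi
  exact absurd hi (hcon i)

/-- The two facets `p`, `q` through a point have a common face. -/
theorem fac_inter_mem (p q : ι) (x : Eu n) (hx : x ∈ hp D.f D.b) (hp' : D.f p x = D.b p)
    (hq : D.f q x = D.b q) : D.fac p ∩ D.fac q ∈ pFace V ∧
    hul (D.fac p ∩ D.fac q) = {y | y ∈ hp D.f D.b ∧ D.f p y = D.b p ∧ D.f q y = D.b q} := by
  have hG : fc D.f D.b p ∩ fc D.f D.b q =
      {y | y ∈ hp D.f D.b ∧ D.f p y = D.b p ∧ D.f q y = D.b q} := by
    ext y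
    constructor
    · rintro ⟨⟨h1, h2⟩, ⟨_, h3⟩⟩
      exact ⟨h1, h2, h3⟩
    · rintro ⟨h1, h2, h3⟩
      exact ⟨⟨h1, h2⟩, ⟨h1, h3⟩⟩
  have hne : (fc D.f D.b p ∩ fc D.f D.b q).Nonempty := ⟨x, ⟨hx, hp'⟩, ⟨hx, hq⟩⟩
  have hexp := (D.exposed p).inter (D.exposed q)
  have hset : D.fac p ∩ D.fac q = {v : V | (v : Eu n) ∈ fc D.f D.b p ∩ fc D.f D.b q} := by
    rw [D.fac_eq p, D.fac_eq q]
    rfl
  refine ⟨⟨_, hne, hexp, hset⟩, ?_⟩
  rw [hset, hul_eq hne hexp, hG]

/-- A point of a face whose active facets are exactly those containing the face. -/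
theorem exists_active {A : Set V} (hA : A ∈ pFace V) :
    ∃ r, r ∈ hul A ∧ r ∈ hp D.f D.b ∧ ∀ i, D.f i r = D.b i ↔ A ⊆ D.fac i := by
  classical
  obtain ⟨v0, hv0⟩ := pFace_nonempty hA
  set S : Finset V := A.toFinset with hS
  have hmem : ∀ v, v ∈ S ↔ v ∈ A := fun v => Set.mem_toFinset
  have hpos : 0 < (S.card : ℝ) := by
    have : 0 < S.card := Finset.card_pos.2 ⟨v0, (hmem v0).2 hv0⟩
    exact_mod_cast this
  set r : Eu n := ∑ v ∈ S, (S.card : ℝ)⁻¹ • (v : Eu n) with hr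
  have hrA : r ∈ hul A := by
    apply (convex_convexHull ℝ _).sum_mem
    · intro v _
      positivity
    · rw [Finset.sum_const, nsmul_eq_mul]
      exact mul_inv_cancel₀ hpos.ne'
    · intro v hv
      exact subset_convexHull ℝ _ ⟨v, (hmem v).1 hv, rfl⟩
  have hrP : r ∈ hp D.f D.b := by
    rw [← D.hP]
    exact hul_subset A hrA
  have hval : ∀ i, D.b i - D.f i r = ∑ v ∈ S, (S.card : ℝ)⁻¹ * (D.b i - D.f i (v : Eu n)) := by
    intro i
    rw [hr, map_sum]
    simp only [map_smul, smul_eq_mul, mul_sub, Finset.sum_sub_distrib]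
    congr 1
    rw [Finset.sum_const, nsmul_eq_mul, ← mul_assoc, mul_inv_cancel₀ hpos.ne', one_mul]
  refine ⟨r, hrA, hrP, fun i => ?_⟩
  constructor
  · intro hi v hv
    have h0 : ∑ v ∈ S, (S.card : ℝ)⁻¹ * (D.b i - D.f i (v : Eu n)) = 0 := by
      rw [← hval, hi, sub_self]
    have h1 : ∀ v ∈ S, 0 ≤ (S.card : ℝ)⁻¹ * (D.b i - D.f i (v : Eu n)) := by
      intro v _
      have := D.mem_hp v i
      have h2 : 0 ≤ D.b i - D.f i (v : Eu n) := by linarith
      positivity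
    have h2 := (Finset.sum_eq_zero_iff_of_nonneg h1).1 h0 v ((hmem v).2 hv)
    have h3 : D.b i - D.f i (v : Eu n) = 0 := by
      rcases mul_eq_zero.1 h2 with h | h
      · exact absurd h (inv_ne_zero hpos.ne')
      · exact h
    change D.f i (v : Eu n) = D.b i
    linarith
  · intro hi
    have : D.b i - D.f i r = 0 := by
      rw [hval]
      apply Finset.sum_eq_zero
      intro v hv
      have : D.f i (v : Eu n) = D.b i := hi ((hmem v).1 hv)
      rw [this, sub_self, mul_zero]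
    linarith

end Pool.Agent.CubLBC
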