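import Pool.Agent.CubLBC.Defs

set_option autoImplicit false

namespace Pool.Agent.CubLBC

open Finset

variable {W : Type} {m : ℕ}

/-- Extend a permutation of `Fin m` to `Fin (m + 1)`, fixing `0`. -/
def extPerm (π : Equiv.Perm (Fin m)) : Equiv.Perm (Fin (m + 1)) :=
  Equiv.Perm.decomposeFin.symm (0, π)

theorem extPerm_zero (π : Equiv.Perm (Fin m)) : extPerm π 0 = 0 := by
  simp [extPerm]

theorem extPerm_succ (π : Equiv.Perm (Fin m)) (i : Fin m) : extPerm π i.succ = (π i).succ := by
  simp [extPerm, Equiv.Perm.decomposeFin_symm_apply_succ]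

theorem exists_restrict (π : Equiv.Perm (Fin (m + 1))) (h : π 0 = 0) :
    ∃ σ : Equiv.Perm (Fin m), ∀ i, π i.succ = (σ i).succ := by
  obtain ⟨⟨p, σ⟩, hp⟩ : ∃ q, Equiv.Perm.decomposeFin.symm q = π :=
    ⟨Equiv.Perm.decomposeFin π, by simp⟩
  have h0 : p = 0 := by
    have := congrArg (fun e : Equiv.Perm (Fin (m + 1)) => e 0) hp
    simpa [h] using this
  subst h0
  refine ⟨σ, fun i => ?_⟩
  rw [← hp]
  simp [Equiv.Perm.decomposeFin_symm_apply_succ]

theorem cons_comp_ext (w : W) (b : Fin m → W) (π : Equiv.Perm (Fin m)) :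
    (Fin.cons w (b ∘ π) : Fin (m + 1) → W) = (Fin.cons w b : Fin (m + 1) → W) ∘ (extPerm π) := by
  funext i
  refine Fin.cases ?_ (fun j => ?_) i
  · simp [extPerm_zero]
  · simp [extPerm_succ]

theorem agree_cons (w : W) (b b' : Fin m → W) (h : AgreeS b b') :
    AgreeS (Fin.cons w b : Fin (m + 1) → W) (Fin.cons w b') := by
  intro i
  refine Fin.cases ?_ (fun j => ?_) i
  · intro _; simp
  · intro hj
    simp only [Fin.cons_succ]
    apply h
    intro h'
    apply hj
    simp only [Fin.val_succ]
    omega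

theorem agree_tail (c c' : Fin (m + 1) → W) (h : AgreeS c c') :
    AgreeS (Fin.tail c) (Fin.tail c') := by
  intro i hi
  apply h
  simp only [Fin.val_succ]
  omega

theorem agree_head (hm : 1 ≤ m) (c c' : Fin (m + 1) → W) (h : AgreeS c c') : c 0 = c' 0 := by
  apply h
  simp only [Fin.val_zero]
  omega

theorem link_chain (S : SimpCx W (m + 1)) (hm : 1 ≤ m) (w : W) (k : ℕ) (c c' : Fin (m + 1) → W)
    (hc : c 0 = w) (h : Relation.ReflTransGen (SStep S.T (k + 1)) c c') :
    c' 0 = w ∧ Relation.ReflTransGen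
      (SStep {b : Fin m → W | (Fin.cons w b : Fin (m + 1) → W) ∈ S.T} k)
      (Fin.tail c) (Fin.tail c') := by
  induction h with
  | refl => exact ⟨hc, Relation.ReflTransGen.refl⟩
  | @tail d e _ hde ih =>
    obtain ⟨hd0, hd⟩ := ih
    obtain ⟨heT, hor⟩ := hde
    have he0 : e 0 = w := by
      rcases hor with ⟨π, hπ, rfl⟩ | hag
      · have : π 0 = 0 := hπ 0 (by simp)
        simp [this, hd0]
      · rw [← agree_head hm d e hag, hd0]
    refine ⟨he0, hd.tail ⟨?_, ?_⟩⟩
    · show (Fin.cons w (Fin.tail e) : Fin (m + 1) → W) ∈ S.T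
      rw [← he0, Fin.cons_self_tail]
      exact heT
    · rcases hor with ⟨π, hπ, rfl⟩ | hag
      · left
        have h0 : π 0 = 0 := hπ 0 (by simp)
        obtain ⟨σ, hσ⟩ := exists_restrict π h0
        refine ⟨σ, ?_, ?_⟩
        · intro i hi
          have h1 := hπ i.succ (by simp only [Fin.val_succ]; omega)
          rw [hσ] at h1
          exact Fin.succ_injective _ h1
        · funext i
          simp [Fin.tail, hσ]
      · right
        exact agree_tail _ _ hag

/-- The link of a vertex. -/
def SimpCx.link (S : SimpCx W (m + 1)) (hm : 1 ≤ m) (w : W) : SimpCx W m where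
  T := {b | Fin.cons w b ∈ S.T}
  perm := by
    intro b hb π
    show Fin.cons w (b ∘ π) ∈ S.T
    rw [cons_comp_ext]
    exact S.perm _ hb _
  inj := by
    intro b hb i j hij
    have h := S.inj _ hb (a₁ := i.succ) (a₂ := j.succ) (by simpa using hij)
    exact Fin.succ_injective _ h
  ridge := by
    intro b hb
    obtain ⟨c, hc, hne, hag, huniq⟩ := S.ridge _ hb
    have hc0 : c 0 = w := by
      rw [← agree_head hm _ _ hag]; simp
    have hcc : (Fin.cons w (Fin.tail c) : Fin (m + 1) → W) = c := by
      rw [← hc0, Fin.cons_self_tail]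
    refine ⟨Fin.tail c, ?_, ?_, ?_, ?_⟩
    · show (Fin.cons w (Fin.tail c) : Fin (m + 1) → W) ∈ S.T
      rw [hcc]; exact hc
    · intro h
      apply hne
      rw [← hcc, h]
    · have := agree_tail _ _ hag
      rwa [Fin.tail_cons] at this
    · intro b'' hb'' hag''
      rcases huniq (Fin.cons w b'') hb'' (agree_cons w b b'' hag'') with h | h
      · left
        exact (Fin.cons_injective2 h).2
      · right
        rw [← h, Fin.tail_cons]
  conn := by
    intro k b hb b' hb' hag
    have h := S.conn (k + 1) (Fin.cons w b) hb (Fin.cons w b') hb' (by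
      intro i
      refine Fin.cases ?_ (fun j => ?_) i
      · intro _; simp
      · intro hj
        simp only [Fin.cons_succ]
        apply hag
        simp only [Fin.val_succ] at hj
        omega)
    have h2 := (link_chain S hm w k _ _ (by simp) h).2
    rwa [Fin.tail_cons, Fin.tail_cons] at h2

theorem mem_link (S : SimpCx W (m + 1)) (hm : 1 ≤ m) (w : W) (b : Fin m → W) :
    b ∈ (S.link hm w).T ↔ (Fin.cons w b : Fin (m + 1) → W) ∈ S.T := Iff.rfl

/-- Recursion for the number of ordered faces. -/
theorem tup_succ [Fintype W] (k : ℕ) (hm : 1 ≤ m) (hk : k ≤ m)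
    (S : SimpCx W (m + 1)) :
    (S.tup (k + 1)).card = ∑ w : W, ((S.link hm w).tup k).card := by
  classical
  rw [Finset.card_eq_sum_card_fiberwise (f := fun p : Fin (k + 1) → W => p 0) (t := Finset.univ)
    (by intro p _; simp)]
  refine Finset.sum_congr rfl (fun w _ => ?_)
  refine Finset.card_bij (fun p _ => Fin.tail p) ?_ ?_ ?_
  · intro p hp
    simp only [SimpCx.tup, Finset.mem_filter, Finset.mem_univ, true_and] at hp ⊢
    obtain ⟨⟨b, hb, hpb⟩, hp0⟩ := hp
    have hb0 : b 0 = w := by
      have := hpb 0 (by simp)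
      rw [← hp0, this]
      rfl
    refine ⟨Fin.tail b, ?_, ?_⟩
    · show (Fin.cons w (Fin.tail b) : Fin (m + 1) → W) ∈ S.T
      rw [← hb0, Fin.cons_self_tail]
      exact hb
    · intro i h
      have := hpb i.succ (by simp only [Fin.val_succ]; omega)
      simp only [Fin.tail]
      rw [this]
      rfl
  · intro p hp q hq hpq
    simp only [Finset.mem_filter] at hp hq
    rw [← Fin.cons_self_tail p, ← Fin.cons_self_tail q, hp.2, hq.2, hpq]
  · intro q hq
    simp only [SimpCx.tup, Finset.mem_filter, Finset.mem_univ, true_and] at hq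
    obtain ⟨b, hb, hqb⟩ := hq
    refine ⟨Fin.cons w q, ?_, ?_⟩
    · simp only [SimpCx.tup, Finset.mem_filter, Finset.mem_univ, true_and]
      refine ⟨⟨Fin.cons w b, hb, ?_⟩, by simp⟩
      intro i
      refine Fin.cases ?_ (fun j => ?_) i
      · intro h
        simp only [Fin.cons_zero]
        rfl
      · intro h
        simp only [Fin.cons_succ]
        have h' : (j : ℕ) < m := by
          simp only [Fin.val_succ] at h
          omega
        rw [hqb j h']
        rfl
    · rw [Fin.tail_cons]

end Pool.Agent.CubLBC
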