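import Pool.Agent.CubLBC.SLink
import Pool.Agent.CubLBC.PSThree

set_option autoImplicit false

namespace Pool.Agent.CubLBC

open Finset

section aux

variable {W : Type} {m : ℕ}

lemma sadj_symm (S : SimpCx W m) {x y : W} (h : S.Adj x y) : S.Adj y x := by
  obtain ⟨hne, b, hb, h1, h2⟩ := h
  exact ⟨hne.symm, b, hb, h2, h1⟩

lemma link_adj (S : SimpCx W (m + 1)) (hm : 1 ≤ m) (w : W) {x y : W}
    (h : (S.link hm w).Adj x y) : S.Adj x y := by
  obtain ⟨hne, b, hb, ⟨i, hi⟩, ⟨j, hj⟩⟩ := h
  rw [mem_link] at hb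
  exact ⟨hne, _, hb, ⟨i.succ, by simpa using hi⟩, ⟨j.succ, by simpa using hj⟩⟩

lemma link_isVert (S : SimpCx W (m + 1)) (hm : 1 ≤ m) (w : W) {x : W}
    (h : (S.link hm w).IsVert x) : S.Adj w x := by
  obtain ⟨b, hb, ⟨i, hi⟩⟩ := h
  rw [mem_link] at hb
  refine ⟨?_, _, hb, ⟨0, by simp⟩, ⟨i.succ, by simpa using hi⟩⟩
  intro he
  have h1 : (Fin.cons w b : Fin (m + 1) → W) 0 = (Fin.cons w b : Fin (m + 1) → W) i.succ := by
    simp [hi, he]
  have := S.inj _ hb h1
  exact absurd this (Fin.succ_ne_zero i).symm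

lemma sadj_isVert (S : SimpCx W m) {x y : W} (h : S.Adj x y) : S.IsVert x := by
  obtain ⟨_, b, hb, h1, _⟩ := h
  exact ⟨b, hb, h1⟩

/-- A ridge step that leaves `X`. -/
lemma exists_leave (S : SimpCx W m) (X : Finset W) (b b' : Fin m → W) (hb : b ∈ S.T)
    (hbX : ∃ i, b i ∈ X) (hb'X : ∀ i, b' i ∉ X)
    (h : Relation.ReflTransGen (SStep S.T 0) b b') :
    ∃ b1 ∈ S.T, ∃ b2 ∈ S.T, AgreeS b1 b2 ∧ (∃ i, b1 i ∈ X) ∧ ∀ i, b2 i ∉ X := by
  have key : ∀ b', Relation.ReflTransGen (SStep S.T 0) b b' → (b' ∈ S.T ∧ ∃ i, b' i ∈ X) ∨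
      ∃ b1 ∈ S.T, ∃ b2 ∈ S.T, AgreeS b1 b2 ∧ (∃ i, b1 i ∈ X) ∧ ∀ i, b2 i ∉ X := by
    intro b' h
    induction h with
    | refl => exact Or.inl ⟨hb, hbX⟩
    | @tail c d _ hcd ih =>
      rcases ih with ⟨hc, hcX⟩ | ih
      · obtain ⟨hd, hor⟩ := hcd
        by_cases hdX : ∃ i, d i ∈ X
        · exact Or.inl ⟨hd, hdX⟩
        · push Not at hdX
          right
          rcases hor with ⟨π, _, rfl⟩ | hag
          · exfalso
            obtain ⟨i, hi⟩ := hcX
            apply hdX (π.symm i)
            simpa using hi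
          · exact ⟨c, hc, d, hd, hag, hcX, hdX⟩
      · exact Or.inr ih
  rcases key b' h with ⟨_, i, hi⟩ | h
  · exact absurd hi (hb'X i)
  · exact h

end aux

/-- The simplicial pinned inequality. -/
theorem PS {W : Type} [Fintype W] (m : ℕ) (hm : 3 ≤ m) (S : SimpCx W m) (X : Finset W)
    (hX : ∀ x ∈ X, S.IsVert x) (hF : ∃ b ∈ S.T, ∀ i, b i ∉ X) :
    2 * m * X.card ≤ (S.inc X).card := by
  classical
  induction m, hm using Nat.le_induction generalizing X with
  | base =>
    have := PS3 S X hX hF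
    omega
  | succ m hm IH =>
    have hm1 : 1 ≤ m := by omega
    induction hcard : X.card using Nat.strong_induction_on generalizing X with
    | _ N IHN =>
      subst hcard
      rcases X.eq_empty_or_nonempty with rfl | ⟨x, hx⟩
      · simp
      obtain ⟨b', hb', hb'X⟩ := hF
      obtain ⟨b, hb, i, hi⟩ := hX x hx
      obtain ⟨b1, hb1, b2, hb2, hag, ⟨i1, hi1⟩, h2X⟩ := exists_leave S X b b' hb
        ⟨i, by rw [hi]; exact hx⟩ hb'X (S.conn 0 b hb b' hb' (by simp))
      set w := b1 0 with hw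
      have hw2 : b2 0 = w := (agree_head hm1 b1 b2 hag).symm
      have hwX : w ∉ X := by rw [← hw2]; exact h2X 0
      set X0 := X.filter (fun x => (S.link hm1 w).IsVert x) with hX0
      set X1 := X.filter (fun x => ¬ (S.link hm1 w).IsVert x) with hX1
      have hsum : X0.card + X1.card = X.card := Finset.card_filter_add_card_filter_not _
      have hX0sub : X0 ⊆ X := Finset.filter_subset _ _
      have hX1sub : X1 ⊆ X := Finset.filter_subset _ _
      have hX0ne : X0.Nonempty := by
        refine ⟨b1 i1, mem_filter.mpr ⟨hi1, Fin.tail b1, ?_, ?_⟩⟩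
        · rw [mem_link, hw, Fin.cons_self_tail]
          exact hb1
        · have hne : i1 ≠ 0 := by
            rintro rfl
            exact hwX hi1
          refine ⟨i1.pred hne, ?_⟩
          simp [Fin.tail]
      have h1 := IHN X1.card (by have := hX0ne.card_pos; omega) X1 (fun x hx => hX x (hX1sub hx))
        ⟨b', hb', fun i h => hb'X i (hX1sub h)⟩ rfl
      have h2 := IH (S.link hm1 w) X0 (fun x hx => (mem_filter.mp hx).2) ⟨Fin.tail b2, by
        rw [mem_link, ← hw2, Fin.cons_self_tail]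
        exact hb2, fun i h => h2X i.succ (hX0sub h)⟩
      -- the three kinds of darts
      set A := (S.link hm1 w).inc X0 with hA
      set B := X0.image (fun x => (w, x)) with hB
      set C := X0.image (fun x => (x, w)) with hC
      have hBc : B.card = X0.card := Finset.card_image_of_injective _ (fun a b h => (Prod.mk.inj h).2)
      have hCc : C.card = X0.card := Finset.card_image_of_injective _ (fun a b h => (Prod.mk.inj h).1)
      have hwl : ¬ (S.link hm1 w).IsVert w := fun h => (link_isVert S hm1 w h).1 rfl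
      have hwX0 : w ∉ X0 := fun h => hwX (hX0sub h)
      have hAB : Disjoint A B := by
        rw [Finset.disjoint_left]
        intro p hp hpB
        obtain ⟨x, _, rfl⟩ := mem_image.mp hpB
        exact hwl (sadj_isVert _ (mem_filter.mp hp).2.1)
      have hAC : Disjoint A C := by
        rw [Finset.disjoint_left]
        intro p hp hpC
        obtain ⟨x, _, rfl⟩ := mem_image.mp hpC
        exact hwl (sadj_isVert _ (sadj_symm _ (mem_filter.mp hp).2.1))
      have hBC : Disjoint B C := by
        rw [Finset.disjoint_left]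
        intro p hp hpC
        obtain ⟨x, hx, rfl⟩ := mem_image.mp hp
        obtain ⟨y, hy, hxy⟩ := mem_image.mp hpC
        have : y = w := (Prod.mk.inj hxy).1
        rw [this] at hy
        exact hwX0 hy
      have hABd : Disjoint (A ∪ B) C := by
        rw [Finset.disjoint_union_left]
        exact ⟨hAC, hBC⟩
      -- nothing of these meets X1
      have hstar : ∀ p ∈ (A ∪ B) ∪ C, S.Adj p.1 p.2 ∧ (p.1 ∈ X0 ∨ p.2 ∈ X0) ∧
          p.1 ∉ X1 ∧ p.2 ∉ X1 := by
        have hn1 : ∀ z, (S.link hm1 w).IsVert z → z ∉ X1 := fun z hz h => (mem_filter.mp h).2 hz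
        have hn2 : w ∉ X1 := fun h => hwX (hX1sub h)
        have hn3 : ∀ z ∈ X0, z ∉ X1 := fun z hz => hn1 z (mem_filter.mp hz).2
        intro p hp
        rcases mem_union.mp hp with hp | hp
        · rcases mem_union.mp hp with hp | hp
          · have := (mem_filter.mp hp).2
            exact ⟨link_adj S hm1 w this.1, this.2, hn1 _ (sadj_isVert _ this.1),
              hn1 _ (sadj_isVert _ (sadj_symm _ this.1))⟩
          · obtain ⟨x, hx, rfl⟩ := mem_image.mp hp
            exact ⟨link_isVert S hm1 w (mem_filter.mp hx).2, Or.inr hx, hn2, hn3 x hx⟩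
        · obtain ⟨x, hx, rfl⟩ := mem_image.mp hp
          exact ⟨sadj_symm _ (link_isVert S hm1 w (mem_filter.mp hx).2), Or.inl hx, hn3 x hx, hn2⟩
      have hdisj : Disjoint ((A ∪ B) ∪ C) (S.inc X1) := by
        rw [Finset.disjoint_left]
        intro p hp hp'
        have h3 := hstar p hp
        have h4 := (mem_filter.mp hp').2.2
        rcases h4 with h4 | h4
        · exact h3.2.2.1 h4
        · exact h3.2.2.2 h4
      have hsub : ((A ∪ B) ∪ C) ∪ S.inc X1 ⊆ S.inc X := by
        intro p hp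
        refine mem_filter.mpr ⟨mem_univ _, ?_⟩
        rcases mem_union.mp hp with h | h
        · have h3 := hstar p h
          exact ⟨h3.1, h3.2.1.imp (fun h => hX0sub h) (fun h => hX0sub h)⟩
        · have h3 := (mem_filter.mp h).2
          exact ⟨h3.1, h3.2.imp (fun h => hX1sub h) (fun h => hX1sub h)⟩
      have h3 := Finset.card_le_card hsub
      rw [Finset.card_union_of_disjoint hdisj, Finset.card_union_of_disjoint hABd,
        Finset.card_union_of_disjoint hAB, hBc, hCc] at h3
      rw [← hsum]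
      nlinarith

lemma tup_one_card {W : Type} [Fintype W] {m : ℕ} (hm : 1 ≤ m) (S : SimpCx W m) (X : Finset W)
    (hX : ∀ x, x ∈ X ↔ S.IsVert x) : (S.tup 1).card = X.card := by
  classical
  symm
  apply Finset.card_bij (fun x _ => (fun _ => x : Fin 1 → W))
  · intro x hx
    obtain ⟨b, hb, i, hi⟩ := (hX x).mp hx
    refine mem_filter.mpr ⟨mem_univ _, b ∘ (Equiv.swap ⟨0, hm⟩ i), S.perm b hb _, ?_⟩
    intro j hj
    have : (⟨(j : ℕ), hj⟩ : Fin m) = ⟨0, hm⟩ := by
      apply Fin.ext
      simp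
    rw [this]
    simp [hi]
  · intro x _ y _ h
    exact congrFun h 0
  · intro p hp
    obtain ⟨b, hb, h⟩ := (mem_filter.mp hp).2
    refine ⟨p 0, (hX _).mpr ⟨b, hb, ⟨0, hm⟩, ?_⟩, ?_⟩
    · rw [h 0 hm]
      rfl
    · funext j
      rw [Subsingleton.elim j 0]

open Classical in
lemma tup_two_card {W : Type} [Fintype W] {m : ℕ} (hm : 2 ≤ m) (S : SimpCx W m) :
    (S.tup 2).card = ((univ : Finset (W × W)).filter (fun p => S.Adj p.1 p.2)).card := by
  symm
  apply Finset.card_bij (fun p _ => (![p.1, p.2] : Fin 2 → W))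
  · rintro ⟨x, y⟩ hp
    obtain ⟨hne, b, hb, ⟨i, hi⟩, ⟨j, hj⟩⟩ := (mem_filter.mp hp).2
    simp only at hne hi hj
    have hij : i ≠ j := by
      rintro rfl
      exact hne (hi.symm.trans hj)
    obtain ⟨π, hπ0, hπ1⟩ : ∃ π : Equiv.Perm (Fin m), π ⟨0, by omega⟩ = i ∧ π ⟨1, by omega⟩ = j := by
      have h01 : (⟨0, by omega⟩ : Fin m) ≠ ⟨1, by omega⟩ := by
        intro h
        simpa using congrArg Fin.val h
      set i0 : Fin m := ⟨0, by omega⟩ with hi0
      set i1 : Fin m := ⟨1, by omega⟩ with hi1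
      refine ⟨Equiv.swap i0 i * Equiv.swap i1 (Equiv.swap i0 i j), ?_, ?_⟩
      · rw [Equiv.Perm.mul_apply]
        have h1 : Equiv.swap i0 i j ≠ i0 := by
          intro h
          have := congrArg (Equiv.swap i0 i) h
          rw [Equiv.swap_apply_self, Equiv.swap_apply_left] at this
          exact hij this.symm
        rw [Equiv.swap_apply_of_ne_of_ne h01 h1.symm, Equiv.swap_apply_left]
      · rw [Equiv.Perm.mul_apply, Equiv.swap_apply_left, Equiv.swap_apply_self]
    refine mem_filter.mpr ⟨mem_univ _, b ∘ π, S.perm b hb π, ?_⟩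
    intro l hl
    fin_cases l
    · simp only [Fin.zero_eta, Matrix.cons_val_zero, Function.comp]
      exact (hi.symm.trans (congrArg b hπ0.symm))
    · simp only [Fin.mk_one, Matrix.cons_val_one, Function.comp]
      exact (hj.symm.trans (congrArg b hπ1.symm))
  · rintro ⟨x, y⟩ _ ⟨x', y'⟩ _ h
    have h0 := congrFun h 0
    have h1 := congrFun h 1
    simp at h0 h1
    rw [h0, h1]
  · intro p hp
    obtain ⟨b, hb, h⟩ := (mem_filter.mp hp).2
    have h0 := h 0 (by simp; omega)
    have h1 := h 1 (by simp; omega)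
    refine ⟨(p 0, p 1), mem_filter.mpr ⟨mem_univ _, ?_, b, hb, ⟨_, h0.symm⟩, ⟨_, h1.symm⟩⟩, ?_⟩
    · intro he
      simp only at he
      rw [h0, h1] at he
      have := S.inj b hb he
      simpa using congrArg Fin.val this
    · funext l
      fin_cases l <;> rfl

/-- Lower bound theorem for the edges (in terms of ordered pairs). -/
theorem lbt_edges {W : Type} [Fintype W] (m : ℕ) (hm : 3 ≤ m) (S : SimpCx W m)
    (hne : S.T.Nonempty) :
    2 * (m : ℝ) * ((S.tup 1).card : ℝ) - m * (m + 1) ≤ ((S.tup 2).card : ℝ) := by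
  classical
  obtain ⟨b, hb⟩ := hne
  set Vt := (univ : Finset W).filter (fun x => S.IsVert x) with hVt
  set R := (univ : Finset (Fin m)).image b with hR
  have hRc : R.card = m := by
    rw [hR, Finset.card_image_of_injective _ (S.inj b hb), Finset.card_univ, Fintype.card_fin]
  have hRsub : R ⊆ Vt := by
    intro x hx
    obtain ⟨i, _, rfl⟩ := mem_image.mp hx
    exact mem_filter.mpr ⟨mem_univ _, b, hb, i, rfl⟩
  set X := Vt \ R with hX
  have hXc : X.card + m = Vt.card := by
    have := Finset.card_sdiff_add_card_eq_card hRsub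
    rw [hRc] at this
    exact this
  have h1 := PS m hm S X (fun x hx => (mem_filter.mp (Finset.mem_sdiff.mp hx).1).2)
    ⟨b, hb, fun i h => (Finset.mem_sdiff.mp h).2 (mem_image.mpr ⟨i, mem_univ _, rfl⟩)⟩
  have h2 := tup_one_card (by omega) S Vt (fun x => by simp [hVt])
  have h3 := tup_two_card (by omega) S
  -- darts inside R
  have h4 : (S.inc X).card + m * (m - 1) ≤
      ((univ : Finset (W × W)).filter (fun p => S.Adj p.1 p.2)).card := by
    have hoff : (R.offDiag).card = m * (m - 1) := by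
      rw [Finset.offDiag_card, hRc, Nat.mul_sub, mul_one]
    rw [← hoff]
    rw [← Finset.card_union_of_disjoint]
    · apply Finset.card_le_card
      intro p hp
      rcases mem_union.mp hp with h | h
      · exact mem_filter.mpr ⟨mem_univ _, (mem_filter.mp h).2.1⟩
      · rw [Finset.mem_offDiag] at h
        obtain ⟨h5, h6, h7⟩ := h
        obtain ⟨i, _, hi⟩ := mem_image.mp h5
        obtain ⟨j, _, hj⟩ := mem_image.mp h6
        exact mem_filter.mpr ⟨mem_univ _, h7, b, hb, ⟨i, hi⟩, ⟨j, hj⟩⟩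
    · rw [Finset.disjoint_left]
      intro p hp hp'
      rw [Finset.mem_offDiag] at hp'
      rcases (mem_filter.mp hp).2.2 with h | h
      · exact (Finset.mem_sdiff.mp h).2 hp'.1
      · exact (Finset.mem_sdiff.mp h).2 hp'.2.1
  rw [← h3] at h4
  have h5 : ((X.card : ℝ)) = ((S.tup 1).card : ℝ) - m := by
    rw [h2, ← hXc]
    push_cast
    ring
  have h6 : 2 * (m : ℝ) * (X.card : ℝ) ≤ ((S.inc X).card : ℝ) := by exact_mod_cast h1
  have h7 : ((S.inc X).card : ℝ) + (m : ℝ) * ((m : ℝ) - 1) ≤ ((S.tup 2).card : ℝ) := by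
    have : (((S.inc X).card + m * (m - 1) : ℕ) : ℝ) ≤ ((S.tup 2).card : ℝ) := by exact_mod_cast h4
    rw [Nat.cast_add, Nat.cast_mul, Nat.cast_sub (by omega)] at this
    simpa using this
  rw [h5] at h6
  nlinarith

end Pool.Agent.CubLBC
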